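import Mathlib

/-!
Abstract part of the proof that cubic graphs all of whose vertices lie on short cycles are
(1,1,2,2)-packing colourable.
-/

namespace Pool.Agent.CubicShort

open scoped Classical

universe u w

variable {V : Type u} {ι : Type w}

/-- combinatorial data extracted from a partition of the vertex set of a cubic graph -/
structure PD (V : Type u) (ι : Type w) [Fintype V] (G : SimpleGraph V) where
  pt : V → ι
  op : V → V
  tri : ι → Prop
  bip : ι → Prop
  Z1 : V → Prop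
  Z2 : V → Prop
  Top : V → Prop
  β : V → Bool
  op_op : ∀ v, op (op v) = v
  pt_op : ∀ v, op v ≠ v → pt (op v) ≠ pt v
  op_of_adj : ∀ u v, G.Adj u v → pt u ≠ pt v → op u = v
  tri_bip : ∀ i, tri i → bip i → False
  tri_three : ∀ v, tri (pt v) → ∃ a b, v ≠ a ∧ v ≠ b ∧ a ≠ b ∧ pt a = pt v ∧ pt b = pt v ∧
    ∀ w, pt w = pt v → w = v ∨ w = a ∨ w = b
  tri_op : ∀ v, tri (pt v) → op v ≠ v
  β_ok : ∀ u v, G.Adj u v → pt u = pt v → ¬ tri (pt u) → ¬ Z1 u → ¬ Z1 v → ¬ Z2 u → ¬ Z2 v →
    ¬ Top u → ¬ Top v → β u ≠ β v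
  card4 : ∀ i, ¬ tri i → (Finset.univ.filter (fun v => pt v = i ∧ op v ≠ v ∧ ¬ Top v)).card ≤ 4
  card2 : ∀ i, ¬ tri i → ¬ bip i →
    (Finset.univ.filter (fun v => pt v = i ∧ op v ≠ v ∧ ¬ Top v)).card ≤ 2
  Z1_op : ∀ v, Z1 v → op v = v
  Z1_nb : ∀ v, Z1 v → ¬ bip (pt v)
  Z1_nt : ∀ v, Z1 v → ¬ tri (pt v)
  Z1_uniq : ∀ u v, Z1 u → Z1 v → pt u = pt v → u = v
  Z2_nb : ∀ v, Z2 v → ¬ bip (pt v)
  Z2_nt : ∀ v, Z2 v → ¬ tri (pt v)
  Z2_op : ∀ v, Z2 v → ∀ u, pt u = pt v → op u = u
  Z2_uniq : ∀ u v, Z2 u → Z2 v → pt u = pt v → u = v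
  Z12 : ∀ v, Z1 v → ¬ Z2 v
  Top_nb : ∀ v, Top v → ¬ bip (pt v)
  Top_nt : ∀ v, Top v → ¬ tri (pt v)
  Top_uniq : ∀ u v, Top u → Top v → pt u = pt v → u = v
  Top_Z1 : ∀ u v, Top u → Z1 v → pt u ≠ pt v
  Top_Z2 : ∀ u v, Top u → Z2 v → pt u ≠ pt v
  Top_ab : ∀ t, Top t → ∃ a b, G.Adj a b ∧ pt a = pt t ∧ pt b = pt t ∧ op a = a ∧ op b = b ∧
    ¬ Top a ∧ ¬ Top b ∧ ∀ w, G.Adj t w → pt w = pt t → w = a ∨ w = b

variable [Fintype V] {G : SimpleGraph V} (d : PD V ι G)

namespace PD

/-- active edges inside parts -/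
def Act (u v : V) : Prop := G.Adj u v ∧ d.pt u = d.pt v ∧ ¬ d.tri (d.pt u) ∧ ¬ d.Z1 u ∧ ¬ d.Z1 v ∧
  ¬ d.Z2 u ∧ ¬ d.Z2 v ∧ ¬ d.Top u ∧ ¬ d.Top v

structure Valid (M : Finset V) (c : V → Bool) : Prop where
  v0 : ∀ u ∈ M, d.op u ≠ u
  v0' : ∀ u ∈ M, d.op u ∈ M
  v1 : ∀ v, d.tri (d.pt v) → ∃ u ∈ M, d.pt u = d.pt v
  v2 : ∀ u, d.op u ≠ u → u ∉ M → c u ≠ c (d.op u)
  v3 : ∀ u v, d.Act u v → c u ≠ c v
  v4 : ∀ u v, d.tri (d.pt u) → d.pt u = d.pt v → u ≠ v → u ∉ M → v ∉ M → c u ≠ c v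

lemma op_inj {u v : V} (h : d.op u = d.op v) : u = v := by
  rw [← d.op_op u, h, d.op_op]

lemma op_ne_of {u : V} (h : d.op u ≠ u) : d.op (d.op u) ≠ d.op u := by
  rw [d.op_op]; exact h.symm

lemma exists_valid : ∃ M c, d.Valid M c := by
  refine ⟨Finset.univ.filter (fun v => d.op v ≠ v), d.β, ?_, ?_, ?_, ?_, ?_, ?_⟩
  · intro u hu; simpa using hu
  · intro u hu
    simp only [Finset.mem_filter, Finset.mem_univ, true_and] at hu ⊢
    exact d.op_ne_of hu
  · intro v hv
    exact ⟨v, by simpa using d.tri_op v hv, rfl⟩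
  · intro u hu hu'
    simp at hu'
    exact absurd hu' hu
  · intro u v h
    obtain ⟨h1, h2, h3, h4, h5, h6, h7, h8, h9⟩ := h
    exact d.β_ok u v h1 h2 h3 h4 h5 h6 h7 h8 h9
  · intro u v h1 h2 h3 h4 h5
    simp at h4
    exact absurd h4 (d.tri_op u h1)

/-- base relation for connectivity by parts and killed edges -/
def E (M : Finset V) (u v : V) : Prop := d.pt u = d.pt v ∨ (u ∈ M ∧ d.op u = v)

def Rel (M : Finset V) : V → V → Prop := Relation.ReflTransGen (d.E M)

noncomputable def kap (M : Finset V) : ℕ :=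
  (Finset.univ.filter (fun p : V × V => d.Rel M p.1 p.2)).card

/-- a valid pair with the fewest killed edges, then the most connected pairs -/
structure Best (M : Finset V) (c : V → Bool) : Prop extends d.Valid M c where
  min : ∀ M' c', d.Valid M' c' → M.card ≤ M'.card
  max : ∀ M' c', d.Valid M' c' → M'.card = M.card → d.kap M' ≤ d.kap M

lemma exists_best : ∃ M c, d.Best M c := by
  obtain ⟨M0, c0, h0⟩ := d.exists_valid
  -- minimal cardinality
  have h1 : ∃ n, ∃ M c, d.Valid M c ∧ M.card = n := ⟨M0.card, M0, c0, h0, rfl⟩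
  obtain ⟨M1, c1, h1v, h1c⟩ := Nat.find_spec h1
  have hmin : ∀ M' c', d.Valid M' c' → Nat.find h1 ≤ M'.card := fun M' c' h =>
    Nat.find_min' h1 ⟨M', c', h, rfl⟩
  -- maximal kap
  let B := Fintype.card V * Fintype.card V
  have hB : ∀ M, d.kap M ≤ B := by
    intro M
    unfold kap
    calc _ ≤ (Finset.univ : Finset (V × V)).card := Finset.card_filter_le _ _
      _ = B := by simp [B]
  have h2 : ∃ n, ∃ M c, d.Valid M c ∧ M.card = Nat.find h1 ∧ B - d.kap M = n :=
    ⟨_, M1, c1, h1v, h1c, rfl⟩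
  obtain ⟨M2, c2, h2v, h2c, h2k⟩ := Nat.find_spec h2
  refine ⟨M2, c2, ⟨h2v, ?_, ?_⟩⟩
  · intro M' c' h; rw [h2c]; exact hmin M' c' h
  · intro M' c' h hc
    have := Nat.find_min' h2 ⟨M', c', h, hc.trans h2c, rfl⟩
    have h3 := hB M'
    have h4 := hB M2
    omega

/-- not the only killed vertex of a triangle part -/
def NL (M : Finset V) (x : V) : Prop :=
  d.tri (d.pt x) → ∃ s ∈ M, s ≠ x ∧ d.pt s = d.pt x

/-- admissible colours for a revived vertex -/
def PossC (M : Finset V) (c : V → Bool) (x : V) (b : Bool) : Prop :=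
  (¬ d.tri (d.pt x) → ¬ d.Top x → c x = b) ∧
  (d.tri (d.pt x) → ∀ r, d.pt r = d.pt x → r ∉ M → c r ≠ b)

variable {d} {M : Finset V} {c : V → Bool}

lemma Best.rem (h : d.Best M c) {u : V} (hu : u ∈ M) (h1 : d.NL M u) (h2 : d.NL M (d.op u))
    {b b' : Bool} (hb : d.PossC M c u b) (hb' : d.PossC M c (d.op u) b') : b = b' := by
  by_contra hne
  have hou := h.v0' u hu
  have hne' : d.op u ≠ u := h.v0 u hu
  have hpt : d.pt (d.op u) ≠ d.pt u := d.pt_op u hne'
  set c' : V → Bool := Function.update (Function.update c u b) (d.op u) b' with hc'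
  have cu : c' u = b := by
    rw [hc', Function.update_of_ne hne'.symm, Function.update_self]
  have cou : c' (d.op u) = b' := by rw [hc', Function.update_self]
  have cx : ∀ x, x ≠ u → x ≠ d.op u → c' x = c x := by
    intro x h1 h2; rw [hc', Function.update_of_ne h2, Function.update_of_ne h1]
  have cact : ∀ x, ¬ d.tri (d.pt x) → ¬ d.Top x → c' x = c x := by
    intro x hx1 hx2
    by_cases e1 : x = u
    · subst e1; rw [cu, hb.1 hx1 hx2]
    by_cases e2 : x = d.op u
    · subst e2; rw [cou, hb'.1 hx1 hx2]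
    exact cx x e1 e2
  have hval : d.Valid ((M.erase u).erase (d.op u)) c' := by
    refine ⟨?_, ?_, ?_, ?_, ?_, ?_⟩
    · intro x hx
      exact h.v0 x (Finset.mem_of_mem_erase (Finset.mem_of_mem_erase hx))
    · intro x hx
      simp only [Finset.mem_erase] at hx ⊢
      refine ⟨fun e => hx.2.1 (d.op_inj e), ?_, h.v0' x hx.2.2⟩
      intro e
      apply hx.1
      rw [← e, d.op_op]
    · intro v hv
      by_cases e1 : d.pt v = d.pt u
      · rw [e1] at hv
        obtain ⟨s, hs, hsu, hsp⟩ := h1 hv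
        refine ⟨s, ?_, hsp.trans e1.symm⟩
        simp only [Finset.mem_erase]
        refine ⟨?_, hsu, hs⟩
        intro e; rw [e] at hsp; exact hpt hsp
      by_cases e2 : d.pt v = d.pt (d.op u)
      · rw [e2] at hv
        obtain ⟨s, hs, hsu, hsp⟩ := h2 hv
        refine ⟨s, ?_, hsp.trans e2.symm⟩
        simp only [Finset.mem_erase]
        refine ⟨hsu, ?_, hs⟩
        intro e; rw [e] at hsp; exact hpt hsp.symm
      obtain ⟨s, hs, hsp⟩ := h.v1 v hv
      refine ⟨s, ?_, hsp⟩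
      simp only [Finset.mem_erase]
      refine ⟨?_, ?_, hs⟩
      · intro e; rw [e] at hsp; exact e2 hsp.symm
      · intro e; rw [e] at hsp; exact e1 hsp.symm
    · intro x hx hxM
      by_cases e1 : x = u
      · subst e1; rw [cu, cou]; exact hne
      by_cases e2 : x = d.op u
      · subst e2; rw [d.op_op, cu, cou]; exact Ne.symm hne
      have hxM' : x ∉ M := by
        intro hx'; apply hxM; simp only [Finset.mem_erase]; exact ⟨e2, e1, hx'⟩
      rw [cx x e1 e2, cx (d.op x) (fun e => e2 (by rw [← e, d.op_op])) (fun e => e1 (d.op_inj e))]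
      exact h.v2 x hx hxM'
    · intro x y hxy
      rw [cact x hxy.2.2.1 hxy.2.2.2.2.2.2.2.1, cact y (hxy.2.1 ▸ hxy.2.2.1) hxy.2.2.2.2.2.2.2.2]
      exact h.v3 x y hxy
    · have key : ∀ x y, d.tri (d.pt x) → d.pt x = d.pt y → x ≠ y →
          x ∉ (M.erase u).erase (d.op u) → y ∉ (M.erase u).erase (d.op u) →
          (x = u ∨ x = d.op u) → c' x ≠ c' y := by
        intro x y ht hp hne2 hx hy hx'
        rcases hx' with e | e
        · subst e
          have hyx : y ≠ d.op x := fun e => hpt (by rw [← e, hp])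
          rw [cu, cx y (Ne.symm hne2) hyx]
          refine Ne.symm (hb.2 ht y hp.symm ?_)
          intro hy'; apply hy; simp only [Finset.mem_erase]; exact ⟨hyx, Ne.symm hne2, hy'⟩
        · subst e
          have hyx : y ≠ u := fun e => hpt (by rw [hp, e])
          rw [cou, cx y hyx (Ne.symm hne2)]
          refine Ne.symm (hb'.2 ht y hp.symm ?_)
          intro hy'; apply hy; simp only [Finset.mem_erase]; exact ⟨Ne.symm hne2, hyx, hy'⟩
      intro x y ht hp hne2 hx hy
      by_cases e1 : x = u ∨ x = d.op u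
      · exact key x y ht hp hne2 hx hy e1
      by_cases e2 : y = u ∨ y = d.op u
      · exact Ne.symm (key y x (hp ▸ ht) hp.symm (Ne.symm hne2) hy hx e2)
      push Not at e1 e2
      rw [cx x e1.1 e1.2, cx y e2.1 e2.2]
      apply h.v4 x y ht hp hne2
      · intro hx'; apply hx; simp only [Finset.mem_erase]; exact ⟨e1.2, e1.1, hx'⟩
      · intro hy'; apply hy; simp only [Finset.mem_erase]; exact ⟨e2.2, e2.1, hy'⟩
  have hlt : ((M.erase u).erase (d.op u)).card < M.card := by
    calc ((M.erase u).erase (d.op u)).card ≤ (M.erase u).card := Finset.card_erase_le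
      _ < M.card := Finset.card_erase_lt_of_mem hu
  exact absurd (h.min _ _ hval) (not_le.mpr hlt)

lemma tri_no4 {x y s r : V} (ht : d.tri (d.pt x)) (hy : d.pt y = d.pt x) (hs : d.pt s = d.pt x)
    (hr : d.pt r = d.pt x) (h1 : x ≠ y) (h2 : x ≠ s) (h3 : x ≠ r) (h4 : y ≠ s) (h5 : y ≠ r)
    (h6 : s ≠ r) : False := by
  obtain ⟨a, b, g1, g2, g3, g4, g5, g6⟩ := d.tri_three x ht
  rcases g6 y hy with e | e | e <;> rcases g6 s hs with e' | e' | e' <;>
    rcases g6 r hr with e'' | e'' | e'' <;> simp_all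

/-- in a triangle part with a second killed vertex, alive vertices are unique -/
lemma alive_unique {x : V} (hx : x ∈ M) (ht : d.tri (d.pt x)) (hnl : d.NL M x)
    {r r' : V} (hr : d.pt r = d.pt x) (hrM : r ∉ M) (hr' : d.pt r' = d.pt x) (hrM' : r' ∉ M) :
    r = r' := by
  obtain ⟨s, hs, hsx, hsp⟩ := hnl ht
  obtain ⟨a, b, h1, h2, h3, h4, h5, h6⟩ := d.tri_three x ht
  have hrx : r ≠ x := fun e => hrM (e ▸ hx)
  have hrx' : r' ≠ x := fun e => hrM' (e ▸ hx)
  have hrs : r ≠ s := fun e => hrM (e ▸ hs)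
  have hrs' : r' ≠ s := fun e => hrM' (e ▸ hs)
  rcases h6 r hr with e | e | e <;> rcases h6 r' hr' with e' | e' | e' <;>
    rcases h6 s hsp with e'' | e'' | e'' <;> simp_all

lemma possC_nonempty {x : V} (hx : x ∈ M) (hnl : d.NL M x) : ∃ b, d.PossC M c x b := by
  by_cases ht : d.tri (d.pt x)
  · by_cases hr : ∃ r, d.pt r = d.pt x ∧ r ∉ M
    · obtain ⟨r, hr1, hr2⟩ := hr
      refine ⟨!c r, fun h => absurd ht h, fun _ r' hr1' hr2' => ?_⟩
      rw [alive_unique hx ht hnl hr1' hr2' hr1 hr2]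
      simp
    · push Not at hr
      exact ⟨true, fun h => absurd ht h, fun _ r' hr1' hr2' => absurd (hr r' hr1') hr2'⟩
  · exact ⟨c x, fun _ _ => rfl, fun h => absurd h ht⟩

lemma Best.not_both (h : d.Best M c) {u : V} (hu : u ∈ M) (h1 : d.NL M u)
    (h2 : d.NL M (d.op u)) : ¬ ∀ b, d.PossC M c u b := by
  intro hall
  obtain ⟨b, hb⟩ := possC_nonempty (c := c) (h.v0' u hu) h2
  have e1 := h.rem hu h1 h2 (hall (!b)) hb
  simp at e1

lemma Best.nc_not_top (h : d.Best M c) {u : V} (hu : u ∈ M) (h1 : d.NL M u)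
    (h2 : d.NL M (d.op u)) : ¬ d.Top u := by
  intro ht
  exact h.not_both hu h1 h2 (fun b => ⟨fun _ h' => absurd ht h', fun h' => absurd h' (d.Top_nt u ht)⟩)

lemma Best.nc_alive (h : d.Best M c) {u : V} (hu : u ∈ M) (h1 : d.NL M u)
    (h2 : d.NL M (d.op u)) (ht : d.tri (d.pt u)) : ∃ r, d.pt r = d.pt u ∧ r ∉ M := by
  by_contra hcon
  push Not at hcon
  exact h.not_both hu h1 h2 (fun b => ⟨fun h' => absurd ht h',
    fun _ r hr hrM => absurd (hcon r hr) hrM⟩)

/-- colours across a killed edge between non-triangle parts agree -/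
lemma Best.nc_eq (h : d.Best M c) {u : V} (hu : u ∈ M) (h1 : ¬ d.tri (d.pt u))
    (h2 : ¬ d.tri (d.pt (d.op u))) : c u = c (d.op u) :=
  h.rem hu (fun h' => absurd h' h1) (fun h' => absurd h' h2)
    ⟨fun _ _ => rfl, fun h' => absurd h' h1⟩ ⟨fun _ _ => rfl, fun h' => absurd h' h2⟩

lemma Best.nc_tri (h : d.Best M c) {u : V} (hu : u ∈ M) (h1 : ¬ d.tri (d.pt u))
    (h2 : d.tri (d.pt (d.op u))) (h3 : d.NL M (d.op u)) {r : V} (hr : d.pt r = d.pt (d.op u))
    (hrM : r ∉ M) : c r ≠ c u := by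
  intro hcr
  have hP : d.PossC M c (d.op u) (!c u) := by
    refine ⟨fun h' => absurd h2 h', fun _ r' hr' hrM' => ?_⟩
    rw [alive_unique (h.v0' u hu) h2 h3 hr' hrM' hr hrM, hcr]
    simp
  have := h.rem hu (fun h' => absurd h' h1) h3 ⟨fun _ _ => rfl, fun h' => absurd h' h1⟩ hP
  simp at this

lemma Best.nc_tri_tri (h : d.Best M c) {u : V} (hu : u ∈ M) (h1 : d.tri (d.pt u))
    (h1' : d.NL M u) (h2 : d.tri (d.pt (d.op u))) (h2' : d.NL M (d.op u)) {r r' : V}
    (hr : d.pt r = d.pt u) (hrM : r ∉ M) (hr' : d.pt r' = d.pt (d.op u)) (hrM' : r' ∉ M) :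
    c r = c r' := by
  have hP : d.PossC M c u (!c r) := by
    refine ⟨fun h' => absurd h1 h', fun _ s hs hsM => ?_⟩
    rw [alive_unique hu h1 h1' hs hsM hr hrM]; simp
  have hP' : d.PossC M c (d.op u) (!c r') := by
    refine ⟨fun h' => absurd h2 h', fun _ s hs hsM => ?_⟩
    rw [alive_unique (h.v0' u hu) h2 h2' hs hsM hr' hrM']; simp
  have := h.rem hu h1' h2' hP hP'
  simpa using this

end PD

namespace PD

variable {d : PD V ι G} {M : Finset V} {c : V → Bool}

/-- outer, non-top, unkilled vertices of a part -/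
noncomputable def free (d : PD V ι G) (M : Finset V) (i : ι) : Finset V :=
  Finset.univ.filter (fun v => d.pt v = i ∧ d.op v ≠ v ∧ ¬ d.Top v ∧ v ∉ M)

lemma Best.flip (h : d.Best M c) {i : ι} (hi : ¬ d.tri i) (A : Finset V) (hA : A ⊆ M)
    (hAi : ∀ a ∈ A, d.pt a = i) (hAt : ∀ a ∈ A, ¬ d.Top a)
    (hnl : ∀ a ∈ A, d.NL M (d.op a))
    (hcov : ∀ a ∈ A, d.tri (d.pt (d.op a)) → ∃ s ∈ M, d.pt s = d.pt (d.op a) ∧ s ∉ A.image d.op) :
    A.card ≤ (free d M i).card := by
  set F := free d M i with hF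
  have hFm : ∀ v, v ∈ F ↔ d.pt v = i ∧ d.op v ≠ v ∧ ¬ d.Top v ∧ v ∉ M := by
    intro v; simp [hF, free]
  have hopinj : Function.Injective d.op := fun _ _ e => d.op_inj e
  have hmemA : ∀ x, x ∈ A.image d.op ↔ d.op x ∈ A := by
    intro x; rw [Finset.mem_image]; constructor
    · rintro ⟨a, ha, rfl⟩; rwa [d.op_op]
    · intro hx; exact ⟨d.op x, hx, d.op_op x⟩
  have hmemF : ∀ x, x ∈ F.image d.op ↔ d.op x ∈ F := by
    intro x; rw [Finset.mem_image]; constructor
    · rintro ⟨a, ha, rfl⟩; rwa [d.op_op]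
    · intro hx; exact ⟨d.op x, hx, d.op_op x⟩
  set M' := (M \ (A ∪ A.image d.op)) ∪ (F ∪ F.image d.op) with hM'
  set c' : V → Bool := fun x => if d.pt x = i ∧ ¬ d.Top x then !c x else
    if x ∈ A.image d.op then c (d.op x) else c x with hc'
  have hmM' : ∀ x, x ∈ M' ↔ (x ∈ M ∧ x ∉ A ∧ d.op x ∉ A) ∨ x ∈ F ∨ d.op x ∈ F := by
    intro x
    simp only [hM', Finset.mem_union, Finset.mem_sdiff, hmemA, hmemF, not_or]
  have ha_op : ∀ a ∈ A, d.pt (d.op a) ≠ i := by
    intro a ha e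
    exact d.pt_op a (h.v0 a (hA ha)) (e.trans (hAi a ha).symm)
  have hF_op : ∀ a ∈ F, d.pt (d.op a) ≠ i := by
    intro a ha e
    have := (hFm a).mp ha
    exact d.pt_op a this.2.1 (e.trans this.1.symm)
  have hnt : ∀ a ∈ A, ¬ d.tri (d.pt a) := fun a ha => by rw [hAi a ha]; exact hi
  -- colours of nontriangle parts other than i unchanged
  have hc'_ne : ∀ x, d.pt x ≠ i → ¬ d.tri (d.pt x) → c' x = c x := by
    intro x hx hxt
    simp only [hc']
    rw [if_neg (fun e => hx e.1)]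
    split_ifs with h1
    · rw [hmemA] at h1
      have := h.nc_eq (hA h1) (hnt _ h1) (by rwa [d.op_op])
      rw [d.op_op] at this
      exact this
    · rfl
  have hc'_i : ∀ x, d.pt x = i → ¬ d.Top x → c' x = !c x := by
    intro x hx hxt; simp only [hc']; rw [if_pos ⟨hx, hxt⟩]
  have hc'_A : ∀ x, d.op x ∈ A → c' x = c (d.op x) := by
    intro x hx
    have : d.pt x ≠ i := by have := ha_op _ hx; rwa [d.op_op] at this
    simp only [hc']; rw [if_neg (fun e => this e.1), if_pos ((hmemA x).mpr hx)]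
  have hc'_o : ∀ x, d.op x ∉ A → ¬ (d.pt x = i ∧ ¬ d.Top x) → c' x = c x := by
    intro x hx hx2
    simp only [hc']; rw [if_neg hx2, if_neg (fun e => hx ((hmemA x).mp e))]
  have hval : d.Valid M' c' := by
    refine ⟨?_, ?_, ?_, ?_, ?_, ?_⟩
    · intro x hx
      rw [hmM'] at hx
      rcases hx with ⟨hx, _⟩ | hx | hx
      · exact h.v0 x hx
      · exact ((hFm x).mp hx).2.1
      · have := ((hFm _).mp hx).2.1
        rw [d.op_op] at this
        exact this.symm
    · intro x hx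
      rw [hmM'] at hx ⊢
      rw [d.op_op]
      rcases hx with ⟨hx, h1, h2⟩ | hx | hx
      · left; exact ⟨h.v0' x hx, h2, h1⟩
      · right; right; exact hx
      · right; left; exact hx
    · intro v hv
      obtain ⟨u, hu, hup⟩ := h.v1 v hv
      by_cases h1 : d.op u ∈ A
      · have hq : d.tri (d.pt (d.op (d.op u))) := by rw [d.op_op, hup]; exact hv
        obtain ⟨s, hs, hsp, hsA⟩ := hcov (d.op u) h1 hq
        rw [d.op_op] at hsp
        refine ⟨s, ?_, hsp.trans hup⟩
        rw [hmM']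
        left
        refine ⟨hs, ?_, fun e => hsA ((hmemA s).mpr e)⟩
        intro e
        exact hnt s e (by rw [hsp, hup]; exact hv)
      · refine ⟨u, ?_, hup⟩
        rw [hmM']
        left
        refine ⟨hu, ?_, h1⟩
        intro e
        exact hnt u e (by rw [hup]; exact hv)
    · intro x hx hxM
      rw [hmM'] at hxM
      push Not at hxM
      obtain ⟨h1, h2, h3⟩ := hxM
      by_cases e1 : x ∈ A
      · rw [hc'_i x (hAi x e1) (hAt x e1), hc'_A (d.op x) (by rwa [d.op_op]), d.op_op]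
        simp
      by_cases e2 : d.op x ∈ A
      · rw [hc'_A x e2, hc'_i (d.op x) (hAi _ e2) (hAt _ e2)]
        simp
      have hxM : x ∉ M := fun e => e2 (h1 e e1)
      have hoM : d.op x ∉ M := fun e => hxM (by have := h.v0' _ e; rwa [d.op_op] at this)
      have k1 : ¬ (d.pt x = i ∧ ¬ d.Top x) := fun e => h2 ((hFm x).mpr ⟨e.1, hx, e.2, hxM⟩)
      have k2 : ¬ (d.pt (d.op x) = i ∧ ¬ d.Top (d.op x)) := fun e =>
        h3 ((hFm _).mpr ⟨e.1, d.op_ne_of hx, e.2, hoM⟩)
      rw [hc'_o x e2 k1, hc'_o (d.op x) (by rwa [d.op_op]) k2]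
      exact h.v2 x hx hxM
    · intro x y hxy
      have hx : ¬ d.tri (d.pt x) := hxy.2.2.1
      have hy : ¬ d.tri (d.pt y) := hxy.2.1 ▸ hx
      by_cases e1 : d.pt x = i
      · rw [hc'_i x e1 hxy.2.2.2.2.2.2.2.1, hc'_i y (hxy.2.1 ▸ e1) hxy.2.2.2.2.2.2.2.2]
        have := h.v3 x y hxy
        intro e; apply this
        simpa using e
      · rw [hc'_ne x e1 hx, hc'_ne y (hxy.2.1 ▸ e1) hy]
        exact h.v3 x y hxy
    · have halive : ∀ x y, d.tri (d.pt x) → d.pt x = d.pt y → d.op x ∈ A → y ∉ M →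
          c' x ≠ c y := by
        intro x y ht hp hxA hyM
        rw [hc'_A x hxA]
        have hx : x ∈ M := by have := h.v0' _ (hA hxA); rwa [d.op_op] at this
        have := h.nc_tri (hA hxA) (hnt _ hxA) (by rwa [d.op_op])
          (hnl _ hxA) (r := y) (by rw [d.op_op]; exact hp.symm) hyM
        exact this.symm
      intro x y ht hp hne hx hy
      have hxi : d.pt x ≠ i := fun e => hi (e ▸ ht)
      have hyi : d.pt y ≠ i := fun e => hxi (hp.trans e)
      have kx : ¬ (d.pt x = i ∧ ¬ d.Top x) := fun e => hxi e.1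
      have ky : ¬ (d.pt y = i ∧ ¬ d.Top y) := fun e => hyi e.1
      rw [hmM'] at hx hy
      push Not at hx hy
      have hxA : x ∉ A := fun e => hnt x e ht
      have hyA : y ∉ A := fun e => hnt y e (hp ▸ ht)
      by_cases e1 : d.op x ∈ A
      · by_cases e2 : d.op y ∈ A
        · -- all three in M
          exfalso
          have hxM : x ∈ M := by have := h.v0' _ (hA e1); rwa [d.op_op] at this
          have hyM : y ∈ M := by have := h.v0' _ (hA e2); rwa [d.op_op] at this
          obtain ⟨s, hs, hsp, hsA⟩ := hcov (d.op x) e1 (by rwa [d.op_op])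
          rw [d.op_op] at hsp
          have hnlx : d.NL M x := fun _ => ⟨y, hyM, hne.symm, hp.symm⟩
          obtain ⟨r, hr, hrM⟩ := h.nc_alive hxM hnlx (fun h' => absurd h' (hnt _ e1)) ht
          have hsx : x ≠ s := fun e => hsA ((hmemA s).mpr (e ▸ e1))
          have hsy : y ≠ s := fun e => hsA ((hmemA s).mpr (e ▸ e2))
          have hrx : x ≠ r := fun e => hrM (e ▸ hxM)
          have hry : y ≠ r := fun e => hrM (e ▸ hyM)
          have hrs : s ≠ r := fun e => hrM (e ▸ hs)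
          exact tri_no4 ht hp.symm hsp hr hne hsx hrx hsy hry hrs
        · have hyM : y ∉ M := fun e => e2 (hy.1 e hyA)
          rw [hc'_o y e2 ky]
          exact halive x y ht hp e1 hyM
      · have hxM : x ∉ M := fun e => e1 (hx.1 e hxA)
        by_cases e2 : d.op y ∈ A
        · rw [hc'_o x e1 kx]
          exact Ne.symm (halive y x (hp ▸ ht) hp.symm e2 hxM)
        · have hyM : y ∉ M := fun e => e2 (hy.1 e hyA)
          rw [hc'_o x e1 kx, hc'_o y e2 ky]
          exact h.v4 x y ht hp hne hxM hyM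
  have hmin := h.min _ _ hval
  have hAop : A.image d.op ⊆ M := by
    intro x hx
    rw [hmemA] at hx
    have := h.v0' _ (hA hx); rwa [d.op_op] at this
  have hdis : Disjoint A (A.image d.op) := by
    rw [Finset.disjoint_left]
    intro x hx hx'
    rw [hmemA] at hx'
    exact ha_op _ hx' (by rw [d.op_op]; exact hAi x hx)
  have hcardU : (A ∪ A.image d.op).card = 2 * A.card := by
    rw [Finset.card_union_of_disjoint hdis, Finset.card_image_of_injective _ hopinj]; ring
  have h1 : (M \ (A ∪ A.image d.op)).card = M.card - 2 * A.card := by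
    rw [Finset.card_sdiff_of_subset (Finset.union_subset hA hAop), hcardU]
  have h2 : 2 * A.card ≤ M.card := by
    rw [← hcardU]; exact Finset.card_le_card (Finset.union_subset hA hAop)
  have h3 : (F ∪ F.image d.op).card ≤ 2 * F.card := by
    calc _ ≤ F.card + (F.image d.op).card := Finset.card_union_le _ _
      _ = 2 * F.card := by rw [Finset.card_image_of_injective _ hopinj]; ring
  have h4 : M'.card ≤ (M.card - 2 * A.card) + 2 * F.card := by
    calc M'.card ≤ (M \ (A ∪ A.image d.op)).card + (F ∪ F.image d.op).card :=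
          Finset.card_union_le _ _
      _ ≤ _ := by rw [h1]; omega
  omega

/-- killed, non-top vertices of a part -/
noncomputable def kill (d : PD V ι G) (M : Finset V) (i : ι) : Finset V :=
  M.filter (fun v => d.pt v = i ∧ ¬ d.Top v)

lemma Best.kill_free_card (h : d.Best M c) (i : ι) :
    (kill d M i).card + (free d M i).card ≤
      (Finset.univ.filter (fun v => d.pt v = i ∧ d.op v ≠ v ∧ ¬ d.Top v)).card := by
  rw [← Finset.card_union_of_disjoint]
  · apply Finset.card_le_card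
    intro v hv
    simp only [kill, free, Finset.mem_union, Finset.mem_filter, Finset.mem_univ, true_and] at hv ⊢
    rcases hv with ⟨h1, h2, h3⟩ | ⟨h1, h2, h3, h4⟩
    · exact ⟨h2, h.v0 v h1, h3⟩
    · exact ⟨h1, h2, h3⟩
  · rw [Finset.disjoint_left]
    intro v hv hv'
    simp only [kill, free, Finset.mem_filter, Finset.mem_univ, true_and] at hv hv'
    exact hv'.2.2.2 hv.1

/-- in a small part with a noncritical killed vertex there is no other killed nontop vertex -/
lemma Best.small (h : d.Best M c) {v : V} (hv : v ∈ M) (ht : ¬ d.tri (d.pt v))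
    (hb : ¬ d.bip (d.pt v)) (h2 : d.NL M (d.op v)) {u : V} (hu : u ∈ M)
    (hup : d.pt u = d.pt v) (hut : ¬ d.Top u) : u = v := by
  have hvt : ¬ d.Top v := h.nc_not_top hv (fun h' => absurd h' ht) h2
  have h1 := h.flip (i := d.pt v) ht {v} (by simpa using hv) (by simp) (by simpa using hvt)
    (by simpa using h2) (by
      intro a ha hta
      rw [Finset.mem_singleton] at ha
      subst ha
      obtain ⟨s, hs, hsn, hsp⟩ := h2 hta
      exact ⟨s, hs, hsp, by simpa using hsn⟩)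
  have h3 := h.kill_free_card (d.pt v)
  have h4 := d.card2 _ ht hb
  have h5 : (kill d M (d.pt v)).card ≤ 1 := by
    simp only [Finset.card_singleton] at h1
    omega
  rw [Finset.card_le_one] at h5
  apply h5
  · simp [kill, hu, hup, hut]
  · simp [kill, hv, hvt]

/-- a part of bipartite type with two noncritical killed vertices, one of whose partners is not in
a triangle part, has no further killed vertex -/
lemma Best.two (h : d.Best M c) {v w : V} (hv : v ∈ M) (hw : w ∈ M) (hvw : v ≠ w)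
    (hp : d.pt w = d.pt v) (ht : ¬ d.tri (d.pt v)) (hvo : ¬ d.tri (d.pt (d.op v)))
    (hwo : d.NL M (d.op w)) {u : V} (hu : u ∈ M) (hup : d.pt u = d.pt v)
    (hut : ¬ d.Top u) : u = v ∨ u = w := by
  have hvt : ¬ d.Top v := h.nc_not_top hv (fun h' => absurd h' ht) (fun h' => absurd h' hvo)
  have hwt : ¬ d.Top w := h.nc_not_top hw (fun h' => absurd h' (hp ▸ ht)) hwo
  have h1 := h.flip (i := d.pt v) ht {v, w} (by
      intro x hx; simp only [Finset.mem_insert, Finset.mem_singleton] at hx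
      rcases hx with rfl | rfl <;> assumption)
    (by intro x hx; simp only [Finset.mem_insert, Finset.mem_singleton] at hx
        rcases hx with rfl | rfl <;> first | rfl | assumption)
    (by intro x hx; simp only [Finset.mem_insert, Finset.mem_singleton] at hx
        rcases hx with rfl | rfl <;> assumption)
    (by intro x hx; simp only [Finset.mem_insert, Finset.mem_singleton] at hx
        rcases hx with rfl | rfl
        · exact fun h' => absurd h' hvo
        · exact hwo)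
    (by
      intro a ha hta
      simp only [Finset.mem_insert, Finset.mem_singleton] at ha
      rcases ha with rfl | rfl
      · exact absurd hta hvo
      · obtain ⟨s, hs, hsn, hsp⟩ := hwo hta
        refine ⟨s, hs, hsp, ?_⟩
        simp only [Finset.image_insert, Finset.image_singleton, Finset.mem_insert,
          Finset.mem_singleton, not_or]
        refine ⟨?_, hsn⟩
        intro e
        apply hvo
        rw [← e, hsp]; exact hta)
  rw [Finset.card_pair hvw] at h1
  have h3 := h.kill_free_card (d.pt v)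
  have h4 := d.card4 _ ht
  have h5 : (kill d M (d.pt v)).card ≤ 2 := by omega
  by_contra hcon
  push Not at hcon
  have h6 : ({u, v, w} : Finset V) ⊆ kill d M (d.pt v) := by
    intro x hx
    simp only [Finset.mem_insert, Finset.mem_singleton] at hx
    rcases hx with rfl | rfl | rfl
    · simp [kill, hu, hup, hut]
    · simp [kill, hv, hvt]
    · simp [kill, hw, hp, hwt]
  have h7 : ({u, v, w} : Finset V).card = 3 := by
    rw [Finset.card_insert_of_notMem (by simp [hcon.1, hcon.2]), Finset.card_pair hvw]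
  have := Finset.card_le_card h6
  omega

/-- noncritical killed vertices -/
noncomputable def nc (d : PD V ι G) (M : Finset V) : Finset V :=
  M.filter (fun v => d.NL M v ∧ d.NL M (d.op v))

lemma mem_nc {v : V} : v ∈ nc d M ↔ v ∈ M ∧ d.NL M v ∧ d.NL M (d.op v) := by simp [nc]

lemma Best.nc_op (h : d.Best M c) {v : V} (hv : v ∈ nc d M) : d.op v ∈ nc d M := by
  rw [mem_nc] at hv ⊢
  rw [d.op_op]
  exact ⟨h.v0' v hv.1, hv.2.2, hv.2.1⟩

/-- at most two noncritical killed vertices in each part -/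
lemma Best.nc_card (h : d.Best M c) (i : ι) :
    ((nc d M).filter (fun v => d.pt v = i)).card ≤ 2 := by
  by_contra hcon
  push Not at hcon
  obtain ⟨T, hT, hTc⟩ := Finset.exists_subset_card_eq (Nat.succ_le_of_lt hcon)
  obtain ⟨a1, a2, a3, h12, h13, h23, rfl⟩ := Finset.card_eq_three.mp hTc
  have k1 : a1 ∈ nc d M ∧ d.pt a1 = i := by simpa using hT (by simp : a1 ∈ _)
  have k2 : a2 ∈ nc d M ∧ d.pt a2 = i := by simpa using hT (by simp : a2 ∈ _)
  have k3 : a3 ∈ nc d M ∧ d.pt a3 = i := by simpa using hT (by simp : a3 ∈ _)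
  rw [mem_nc] at k1 k2 k3
  obtain ⟨⟨m1, n1, o1⟩, p1⟩ := k1
  obtain ⟨⟨m2, n2, o2⟩, p2⟩ := k2
  obtain ⟨⟨m3, n3, o3⟩, p3⟩ := k3
  by_cases ht : d.tri i
  · -- triangle part: alive vertex exists
    obtain ⟨r, hr, hrM⟩ := h.nc_alive m1 n1 o1 (by rw [p1]; exact ht)
    have e1 : a1 ≠ r := fun e => hrM (e ▸ m1)
    have e2 : a2 ≠ r := fun e => hrM (e ▸ m2)
    have e3 : a3 ≠ r := fun e => hrM (e ▸ m3)
    exact tri_no4 (d := d) (by rw [p1]; exact ht) (p2.trans p1.symm) (p3.trans p1.symm) hr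
      h12 h13 e1 h23 e2 e3
  · have t1 := h.nc_not_top m1 n1 o1
    have t2 := h.nc_not_top m2 n2 o2
    have t3 := h.nc_not_top m3 n3 o3
    -- a good pair
    have pair : ∀ x y : V, x ∈ M → y ∈ M → x ≠ y → d.pt x = i → d.pt y = i → ¬ d.Top x →
        ¬ d.Top y → d.NL M (d.op x) → d.NL M (d.op y) →
        (∀ z : V, (z = x ∨ z = y) → d.tri (d.pt (d.op z)) →
          ∃ s ∈ M, d.pt s = d.pt (d.op z) ∧ s ≠ d.op x ∧ s ≠ d.op y) → False := by
      intro x y hx hy hxy hpx hpy htx hty hnx hny hcov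
      have h1 := h.flip (i := i) ht {x, y} (by
          intro z hz; simp only [Finset.mem_insert, Finset.mem_singleton] at hz
          rcases hz with rfl | rfl <;> assumption)
        (by intro z hz; simp only [Finset.mem_insert, Finset.mem_singleton] at hz
            rcases hz with rfl | rfl <;> assumption)
        (by intro z hz; simp only [Finset.mem_insert, Finset.mem_singleton] at hz
            rcases hz with rfl | rfl <;> assumption)
        (by intro z hz; simp only [Finset.mem_insert, Finset.mem_singleton] at hz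
            rcases hz with rfl | rfl <;> assumption)
        (by
          intro z hz htz
          simp only [Finset.mem_insert, Finset.mem_singleton] at hz
          obtain ⟨s, hs, hsp, hs1, hs2⟩ := hcov z hz htz
          exact ⟨s, hs, hsp, by simp [hs1, hs2]⟩)
      rw [Finset.card_pair hxy] at h1
      have h3 := h.kill_free_card i
      have h4 := d.card4 i ht
      have h6 : ({a1, a2, a3} : Finset V) ⊆ kill d M i := by
        intro x hx
        simp only [Finset.mem_insert, Finset.mem_singleton] at hx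
        rcases hx with rfl | rfl | rfl
        · simp [kill, m1, p1, t1]
        · simp [kill, m2, p2, t2]
        · simp [kill, m3, p3, t3]
      have h7 : ({a1, a2, a3} : Finset V).card = 3 := by
        rw [Finset.card_insert_of_notMem (by simp [h12, h13]), Finset.card_pair h23]
      have := Finset.card_le_card h6
      omega
    by_cases hA : ∀ z : V, (z = a1 ∨ z = a2) → d.tri (d.pt (d.op z)) →
          ∃ s ∈ M, d.pt s = d.pt (d.op z) ∧ s ≠ d.op a1 ∧ s ≠ d.op a2
    · exact pair a1 a2 m1 m2 h12 p1 p2 t1 t2 o1 o2 hA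
    · push Not at hA
      obtain ⟨z, hz, htz, hall⟩ := hA
      -- the killed vertices of the part of op z are op a1 and op a2
      have hsame : d.pt (d.op a1) = d.pt (d.op a2) ∧ d.tri (d.pt (d.op a1)) ∧
          ∀ s ∈ M, d.pt s = d.pt (d.op a1) → s = d.op a1 ∨ s = d.op a2 := by
        rcases hz with rfl | rfl
        · obtain ⟨s, hs, hsn, hsp⟩ := o1 htz
          have e := hall s hs hsp hsn
          subst e
          refine ⟨hsp.symm, htz, fun s' hs' hsp' => ?_⟩
          by_contra hc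
          push Not at hc
          exact hc.2 (hall s' hs' hsp' hc.1)
        · obtain ⟨s, hs, hsn, hsp⟩ := o2 htz
          have e : s = d.op a1 := by
            by_contra hc
            exact hsn (hall s hs hsp hc)
          subst e
          refine ⟨hsp, hsp ▸ htz, fun s' hs' hsp' => ?_⟩
          by_contra hc
          push Not at hc
          exact hc.2 (hall s' hs' (hsp'.trans hsp) hc.1)
      obtain ⟨q1, q2, q3⟩ := hsame
      apply pair a1 a3 m1 m3 h13 p1 p3 t1 t3 o1 o3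
      intro z' hz' htz'
      have hoa2 : d.op a2 ∈ M := h.v0' _ m2
      have d21 : d.op a2 ≠ d.op a1 := fun e => h12 (d.op_inj e).symm
      have d23 : d.op a2 ≠ d.op a3 := fun e => h23 (d.op_inj e)
      rcases hz' with rfl | rfl
      · exact ⟨d.op a2, hoa2, q1.symm, d21, d23⟩
      · -- part of op a3
        obtain ⟨s, hs, hsn, hsp⟩ := o3 htz'
        by_cases hs1 : s = d.op a1
        · subst hs1
          exfalso
          have := q3 (d.op z') (h.v0' _ m3) hsp.symm
          rcases this with e | e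
          · exact h13 (d.op_inj e).symm
          · exact h23 (d.op_inj e).symm
        · exact ⟨s, hs, hsp, hs1, hsn⟩

end PD

namespace PD

variable {d : PD V ι G} {M : Finset V} {c : V → Bool}

structure Orient (d : PD V ι G) (M R : Finset V) : Prop where
  sub : R ⊆ M
  a : ∀ u ∈ M, (u ∈ R ↔ d.op u ∉ R)
  b : ∀ u ∈ R, ∀ v ∈ R, d.pt u = d.pt v → u = v
  c : ∀ u ∈ R, u ∈ nc d M ∨ ¬ d.NL M u

lemma Best.exists_orient (h : d.Best M c) : ∃ R, Orient d M R := by
  set key : V → ℕ := fun v => (Fintype.equivFin V v : ℕ) with hkey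
  have hkeyinj : ∀ {u v : V}, key u = key v → u = v := by
    intro u v huv
    exact (Fintype.equivFin V).injective (Fin.ext huv)
  set S : Finset V := (nc d M).filter (fun u => key u < key (d.op u)) with hS
  have hSm : ∀ u, u ∈ S ↔ u ∈ nc d M ∧ key u < key (d.op u) := by intro u; simp [hS]
  have hSne : ∀ u, u ∈ nc d M → (u ∈ S ↔ d.op u ∉ S) := by
    intro u hu
    have hne : d.op u ≠ u := h.v0 u (mem_nc.mp hu).1
    rw [hSm, hSm, d.op_op]
    constructor
    · rintro ⟨_, h1⟩ ⟨_, h2⟩; omega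
    · intro h1
      refine ⟨hu, ?_⟩
      by_contra h2
      apply h1
      refine ⟨h.nc_op hu, lt_of_le_of_ne (not_lt.mp h2) ?_⟩
      intro e; exact hne (hkeyinj e)
  have hpne : ∀ u, u ∈ nc d M → d.pt (d.op u) ≠ d.pt u := fun u hu =>
    d.pt_op u (h.v0 u (mem_nc.mp hu).1)
  let t : S → Finset ι := fun u => {d.pt u.1, d.pt (d.op u.1)}
  have hall : ∀ A : Finset S, A.card ≤ (A.biUnion t).card := by
    intro A
    have key2 := Finset.card_mul_le_card_mul (s := A) (t := A.biUnion t) (m := 2) (n := 2)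
      (fun (u : S) (i : ι) => i ∈ t u) ?_ ?_
    · omega
    · intro u hu
      have h1 : t u ⊆ (A.biUnion t).bipartiteAbove (fun (u : S) (i : ι) => i ∈ t u) u := by
        intro i hi
        rw [Finset.mem_bipartiteAbove]
        exact ⟨Finset.mem_biUnion.mpr ⟨u, hu, hi⟩, hi⟩
      have h2 : (t u).card = 2 := by
        apply Finset.card_pair
        exact (hpne u.1 ((hSm _).mp u.2).1).symm
      rw [← h2]
      exact Finset.card_le_card h1
    · intro i _
      calc (A.bipartiteBelow (fun (u : S) (i : ι) => i ∈ t u) i).card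
          ≤ ((nc d M).filter (fun v => d.pt v = i)).card := by
            apply Finset.card_le_card_of_injOn
              (fun u : S => if d.pt u.1 = i then u.1 else d.op u.1)
            · intro u hu
              simp only [Finset.coe_bipartiteBelow, Set.mem_ofPred_eq] at hu
              have hu2 := hu.2
              simp only [t, Finset.mem_insert, Finset.mem_singleton] at hu2
              have hun := ((hSm _).mp u.2).1
              simp only [Finset.coe_filter, Set.mem_ofPred_eq]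
              split_ifs with hp
              · exact ⟨hun, hp⟩
              · exact ⟨h.nc_op hun, (hu2.resolve_left (fun e => hp e.symm)).symm⟩
            · intro u hu v hv huv
              simp only at huv
              have hus := (hSm _).mp u.2
              have hvs := (hSm _).mp v.2
              apply Subtype.ext
              split_ifs at huv with h1 h2 h2
              · exact huv
              · exfalso
                have : d.op u.1 = v.1 := by rw [huv, d.op_op]
                rw [this] at hus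
                rw [← huv] at hvs
                omega
              · exfalso
                have : d.op v.1 = u.1 := by rw [← huv, d.op_op]
                rw [this] at hvs
                rw [huv] at hus
                omega
              · exact d.op_inj huv
        _ ≤ 2 := h.nc_card i
  obtain ⟨f, hfinj, hf⟩ := (Finset.all_card_le_biUnion_card_iff_exists_injective t).mp hall
  set g : V → ι := fun u => if hu : u ∈ S then f ⟨u, hu⟩ else d.pt u with hg
  have hgS : ∀ u (hu : u ∈ S), g u = f ⟨u, hu⟩ := by intro u hu; simp [hg, hu]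
  have hginj : ∀ u v, u ∈ S → v ∈ S → g u = g v → u = v := by
    intro u v hu hv huv
    rw [hgS u hu, hgS v hv] at huv
    exact congrArg Subtype.val (hfinj huv)
  have hgmem : ∀ u, u ∈ S → g u = d.pt u ∨ g u = d.pt (d.op u) := by
    intro u hu
    have := hf ⟨u, hu⟩
    rw [← hgS u hu] at this
    simpa [t] using this
  set Rn : Finset V := (nc d M).filter (fun x => (x ∈ S ∧ g x = d.pt x) ∨
    (d.op x ∈ S ∧ g (d.op x) = d.pt x)) with hRn
  have hRnm : ∀ x, x ∈ Rn ↔ x ∈ nc d M ∧ ((x ∈ S ∧ g x = d.pt x) ∨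
    (d.op x ∈ S ∧ g (d.op x) = d.pt x)) := by intro x; simp [hRn]
  set Rc : Finset V := M.filter (fun u => ¬ d.NL M u ∧ (d.NL M (d.op u) ∨ key u < key (d.op u)))
    with hRc
  have hRcm : ∀ x, x ∈ Rc ↔ x ∈ M ∧ ¬ d.NL M x ∧ (d.NL M (d.op x) ∨ key x < key (d.op x)) := by
    intro x; simp [hRc]
  have hRcnc : ∀ x, x ∈ Rc → x ∉ nc d M := by
    intro x hx hx'
    exact ((hRcm x).mp hx).2.1 (mem_nc.mp hx').2.1
  refine ⟨Rn ∪ Rc, ⟨?_, ?_, ?_, ?_⟩⟩
  · intro x hx
    rw [Finset.mem_union, hRnm, hRcm] at hx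
    rcases hx with hx | hx
    · exact (mem_nc.mp hx.1).1
    · exact hx.1
  · intro u hu
    by_cases hun : u ∈ nc d M
    · have houn := h.nc_op hun
      have h1 : u ∉ Rc := fun e => hRcnc u e hun
      have h2 : d.op u ∉ Rc := fun e => hRcnc _ e houn
      have h3 := hpne u hun
      simp only [Finset.mem_union, h1, h2, or_false]
      rw [hRnm, hRnm, d.op_op]
      have h4 := hSne u hun
      constructor
      · rintro ⟨_, h5⟩ ⟨_, h6⟩
        rcases h5 with ⟨h5, h5'⟩ | ⟨h5, h5'⟩ <;> rcases h6 with ⟨h6, h6'⟩ | ⟨h6, h6'⟩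
        · exact (h4.mp h5) h6
        · exact h3 (h6'.symm.trans h5')
        · exact h3 (h6'.symm.trans h5')
        · exact (h4.mp h6) h5
      · intro h5
        refine ⟨hun, ?_⟩
        by_cases h6 : u ∈ S
        · left
          refine ⟨h6, ?_⟩
          rcases hgmem u h6 with h7 | h7
          · exact h7
          · exact absurd ⟨houn, Or.inr ⟨h6, h7⟩⟩ h5
        · right
          have h7 : d.op u ∈ S := by by_contra h8; exact h6 (h4.mpr h8)
          refine ⟨h7, ?_⟩
          rcases hgmem _ h7 with h8 | h8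
          · exact absurd ⟨houn, Or.inl ⟨h7, h8⟩⟩ h5
          · rwa [d.op_op] at h8
    · have houn : d.op u ∉ nc d M := fun e => hun (by have := h.nc_op e; rwa [d.op_op] at this)
      have h1 : u ∉ Rn := fun e => hun ((hRnm u).mp e).1
      have h2 : d.op u ∉ Rn := fun e => houn ((hRnm _).mp e).1
      simp only [Finset.mem_union, h1, h2, false_or]
      rw [hRcm, hRcm, d.op_op]
      have hne : key (d.op u) ≠ key u := fun e => h.v0 u hu (hkeyinj e)
      have hou := h.v0' u hu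
      have h3 : ¬ d.NL M u ∨ ¬ d.NL M (d.op u) := by
        by_contra hc
        push Not at hc
        exact hun (mem_nc.mpr ⟨hu, hc.1, hc.2⟩)
      by_cases n1 : d.NL M u <;> by_cases n2 : d.NL M (d.op u)
      · exact absurd h3 (by simp [n1, n2])
      · simp [n1, n2, hou]
      · simp [n1, n2, hu]
      · simp only [hu, n1, n2, hou, not_false_eq_true, false_or, true_and, not_lt]
        omega
  · intro u hu v hv huv
    rw [Finset.mem_union] at hu hv
    have leaf : ∀ x y, x ∈ Rc → y ∈ M → d.pt x = d.pt y → x = y := by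
      intro x y hx hy hxy
      have := ((hRcm x).mp hx).2.1
      by_contra hne
      apply this
      intro _
      exact ⟨y, hy, fun e => hne e.symm, hxy.symm⟩
    have hM : ∀ x, x ∈ Rn ∨ x ∈ Rc → x ∈ M := by
      rintro x (hx | hx)
      · exact (mem_nc.mp ((hRnm x).mp hx).1).1
      · exact ((hRcm x).mp hx).1
    rcases hu with hu' | hu'
    · rcases hv with hv' | hv'
      · obtain ⟨un, hu''⟩ := (hRnm u).mp hu'
        obtain ⟨vn, hv''⟩ := (hRnm v).mp hv'
        rcases hu'' with ⟨h5, h5'⟩ | ⟨h5, h5'⟩ <;> rcases hv'' with ⟨h6, h6'⟩ | ⟨h6, h6'⟩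
        · exact hginj u v h5 h6 (by rw [h5', h6', huv])
        · exfalso
          have := hginj u (d.op v) h5 h6 (by rw [h5', h6', huv])
          exact hpne v vn (by rw [← this, huv])
        · exfalso
          have := hginj (d.op u) v h5 h6 (by rw [h5', h6', huv])
          exact hpne u un (by rw [this, huv])
        · exact d.op_inj (hginj _ _ h5 h6 (by rw [h5', h6', huv]))
      · exact (leaf v u hv' (hM u (Or.inl hu')) huv.symm).symm
    · exact leaf u v hu' (hM v hv) huv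
  · intro u hu
    rw [Finset.mem_union] at hu
    rcases hu with hu | hu
    · left; exact ((hRnm u).mp hu).1
    · right; exact ((hRcm u).mp hu).2.1

/-- an orientation with the most oriented triangle parts -/
structure GoodOr (d : PD V ι G) (M R : Finset V) : Prop extends Orient d M R where
  d : ∀ u ∈ M, d.tri (d.pt u) → (∀ x ∈ R, d.pt x ≠ d.pt u) → d.tri (d.pt (d.op u))

lemma Best.exists_good (h : d.Best M c) : ∃ R, GoodOr d M R := by
  set val : Finset V → ℕ := fun R =>
    (Finset.univ.filter (fun v => d.tri (d.pt v) ∧ ∃ x ∈ R, d.pt x = d.pt v)).card with hval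
  obtain ⟨R0, hR0⟩ := h.exists_orient
  have hne : (Finset.univ.filter (fun R : Finset V => Orient d M R)).Nonempty := ⟨R0, by simp [hR0]⟩
  obtain ⟨R, hR, hmax⟩ := Finset.exists_max_image _ val hne
  simp only [Finset.mem_filter, Finset.mem_univ, true_and] at hR hmax
  refine ⟨R, ⟨hR, ?_⟩⟩
  intro u hu ht hno
  by_contra hto
  have hupt : d.pt (d.op u) ≠ d.pt u := d.pt_op u (h.v0 u hu)
  have huR : u ∉ R := fun e => hno u e rfl
  have hoR : d.op u ∈ R := by
    by_contra hc; exact huR ((hR.a u hu).mpr hc)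
  set R' := insert u (R.erase (d.op u)) with hR'
  have hmem : ∀ x, x ∈ R' ↔ x = u ∨ (x ≠ d.op u ∧ x ∈ R) := by
    intro x; simp [hR']
  have hou : d.op u ≠ u := h.v0 u hu
  have hor : Orient d M R' := by
    refine ⟨?_, ?_, ?_, ?_⟩
    · intro x hx
      rcases (hmem x).mp hx with e | e
      · rw [e]; exact hu
      · exact hR.sub e.2
    · intro x hx
      rw [hmem, hmem]
      by_cases e1 : x = u
      · subst e1; simp [hou]
      by_cases e2 : x = d.op u
      · subst e2; simp [d.op_op, hou]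
      have e3 : d.op x ≠ u := fun e => e2 (by rw [← e, d.op_op])
      have e4 : d.op x ≠ d.op u := fun e => e1 (d.op_inj e)
      simp only [e1, e2, e3, e4, false_or, ne_eq, not_false_eq_true, true_and]
      exact hR.a x hx
    · intro x hx y hy hxy
      rcases (hmem x).mp hx with e | e <;> rcases (hmem y).mp hy with e' | e'
      · rw [e, e']
      · exact absurd (hxy.symm.trans (by rw [e])) (hno y e'.2)
      · exact absurd (hxy.trans (by rw [e'])) (hno x e.2)
      · exact hR.b x e.2 y e'.2 hxy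
    · intro x hx
      rcases (hmem x).mp hx with e | e
      · subst e
        rcases hR.c _ hoR with h1 | h1
        · left
          have := h.nc_op h1; rwa [d.op_op] at this
        · exact absurd (fun h' => absurd h' hto) h1
      · exact hR.c x e.2
  have h1 := hmax R' hor
  have h2 : val R < val R' := by
    apply Finset.card_lt_card
    rw [Finset.ssubset_iff_of_subset]
    · refine ⟨u, ?_, ?_⟩
      · simp only [Finset.mem_filter, Finset.mem_univ, true_and]
        exact ⟨ht, u, (hmem u).mpr (Or.inl rfl), rfl⟩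
      · simp only [Finset.mem_filter, Finset.mem_univ, true_and, not_and, not_exists]
        intro _ x hx
        exact hno x hx
    · intro v hv
      simp only [Finset.mem_filter, Finset.mem_univ, true_and] at hv ⊢
      obtain ⟨hv1, x, hx, hxv⟩ := hv
      refine ⟨hv1, x, (hmem x).mpr (Or.inr ⟨?_, hx⟩), hxv⟩
      intro e
      rw [e] at hxv
      exact hto (hxv ▸ hv1)
  omega

end PD

namespace PD

variable {d : PD V ι G} {M : Finset V} {c : V → Bool} {R : Finset V}

open Relation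

def step (d : PD V ι G) (R : Finset V) (i j : ι) : Prop := ∃ x ∈ R, d.pt x = i ∧ d.pt (d.op x) = j

lemma Orient.step_fun (hR : Orient d M R) {i j k : ι} (h1 : step d R i j) (h2 : step d R i k) :
    j = k := by
  obtain ⟨x, hx, hxi, hxj⟩ := h1
  obtain ⟨y, hy, hyi, hyk⟩ := h2
  have := hR.b x hx y hy (hxi.trans hyi.symm)
  rw [← hxj, ← hyk, this]

def Cyc (d : PD V ι G) (R : Finset V) (i : ι) : Prop := TransGen (step d R) i i

lemma Orient.cyc_step (hR : Orient d M R) {i j : ι} (hc : Cyc d R i) (hs : step d R i j) :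
    Cyc d R j ∧ ReflTransGen (step d R) j i := by
  obtain ⟨k, hk, hki⟩ := TransGen.head'_iff.mp hc
  have := hR.step_fun hs hk
  subst this
  exact ⟨TransGen.tail' hki hs, hki⟩

lemma Orient.cyc_reach (hR : Orient d M R) {i j : ι} (hc : Cyc d R i)
    (hs : ReflTransGen (step d R) i j) : Cyc d R j ∧ ReflTransGen (step d R) j i := by
  induction hs with
  | refl => exact ⟨hc, ReflTransGen.refl⟩
  | tail _ h2 ih =>
    obtain ⟨h3, h4⟩ := hR.cyc_step ih.1 h2
    exact ⟨h3, h4.trans ih.2⟩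

lemma Orient.not_mem_op (hR : Orient d M R) {x : V} (hx : x ∈ R) : d.op x ∉ R :=
  (hR.a x (hR.sub hx)).mp hx

lemma Best.cyc_data (h : d.Best M c) (hR : Orient d M R) {i : ι} (hc : Cyc d R i) :
    ∃ x ∈ R, ∃ y ∈ M, y ∉ R ∧ d.pt x = i ∧ d.pt y = i ∧ d.op y ∈ R ∧
      ReflTransGen (step d R) i (d.pt (d.op y)) := by
  obtain ⟨j, ⟨x, hx, hxi, hxj⟩, _⟩ := TransGen.head'_iff.mp hc
  obtain ⟨k, hk, ⟨y, hy, hyk, hyi⟩⟩ := TransGen.tail'_iff.mp hc
  refine ⟨x, hx, d.op y, h.v0' y (hR.sub hy), hR.not_mem_op hy, hxi, hyi, ?_, ?_⟩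
  · rw [d.op_op]; exact hy
  · rw [d.op_op, hyk]; exact hk

lemma Best.cyc_nc (h : d.Best M c) (hR : Orient d M R) {x : V} (hx : x ∈ R)
    (hc : Cyc d R (d.pt x)) : x ∈ nc d M := by
  rw [mem_nc]
  refine ⟨hR.sub hx, ?_, ?_⟩
  · intro _
    obtain ⟨x', hx', y, hy, hyR, hx'i, hyi, _, _⟩ := h.cyc_data hR hc
    exact ⟨y, hy, fun e => hyR (e ▸ hx), hyi⟩
  · intro _
    have hcj := (hR.cyc_step hc ⟨x, hx, rfl, rfl⟩).1
    obtain ⟨x', hx', y, hy, hyR, hx'i, hyi, _, _⟩ := h.cyc_data hR hcj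
    exact ⟨x', hR.sub hx', fun e => hR.not_mem_op hx (e ▸ hx'), hx'i⟩

/-- data at a part on a cycle of the orientation -/
lemma Best.cyc_data' (h : d.Best M c) (hR : Orient d M R) {i : ι} (hc : Cyc d R i) :
    ∃ x ∈ R, ∃ y ∈ M, x ≠ y ∧ y ∉ R ∧ d.pt x = i ∧ d.pt y = i ∧ d.op y ∈ R ∧
      ReflTransGen (step d R) i (d.pt (d.op y)) ∧ x ∈ nc d M ∧ y ∈ nc d M ∧
      Cyc d R (d.pt (d.op y)) := by
  obtain ⟨x, hx, y, hy, hyR, hxi, hyi, hoy, hr⟩ := h.cyc_data hR hc
  have hcy := (hR.cyc_reach hc hr).1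
  have h1 := h.cyc_nc hR hoy hcy
  have h2 := h.nc_op h1
  rw [d.op_op] at h2
  exact ⟨x, hx, y, hy, fun e => hyR (e ▸ hx), hyR, hxi, hyi, hoy, hr,
    h.cyc_nc hR hx (hxi ▸ hc), h2, hcy⟩

lemma Best.cyc_type (h : d.Best M c) (hR : Orient d M R) {i : ι} (hc : Cyc d R i) :
    d.tri i ∨ d.bip i := by
  by_contra hcon
  push Not at hcon
  obtain ⟨x, hx, y, hy, hxy, hyR, hxi, hyi, hoy, hr, hxn, hyn, _⟩ := h.cyc_data' hR hc
  obtain ⟨hxM, hx1, hx2⟩ := mem_nc.mp hxn
  obtain ⟨hyM, hy1, hy2⟩ := mem_nc.mp hyn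
  exact hxy (h.small hxM (by rw [hxi]; exact hcon.1) (by rw [hxi]; exact hcon.2) hx2 hyM
    (hyi.trans hxi.symm) (h.nc_not_top hyM hy1 hy2)).symm

/-- in a triangle part the killed vertices are `x, y` when one of them is noncritical -/
lemma Best.tri_two (h : d.Best M c) {x y : V} (hx : x ∈ nc d M) (hy : y ∈ M) (hxy : x ≠ y)
    (ht : d.tri (d.pt x)) (hp : d.pt y = d.pt x) {u : V} (hu : u ∈ M) (hup : d.pt u = d.pt x) :
    u = x ∨ u = y := by
  obtain ⟨hxM, hx1, hx2⟩ := mem_nc.mp hx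
  obtain ⟨r, hr, hrM⟩ := h.nc_alive hxM hx1 hx2 ht
  by_contra hcon
  push Not at hcon
  exact tri_no4 ht hp hup hr hxy hcon.1.symm (fun e => hrM (e ▸ hxM)) hcon.2.symm
    (fun e => hrM (e ▸ hy)) (fun e => hrM (e ▸ hu))

lemma E_symm (h : d.Valid M c) {u v : V} (huv : d.E M u v) : d.E M v u := by
  rcases huv with e | ⟨hu, e⟩
  · left; exact e.symm
  · right; subst e; exact ⟨h.v0' u hu, d.op_op u⟩

lemma rel_symm (h : d.Valid M c) {u v : V} (huv : d.Rel M u v) : d.Rel M v u := by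
  induction huv with
  | refl => exact ReflTransGen.refl
  | tail _ h2 ih => exact ReflTransGen.head (E_symm h h2) ih

lemma Best.cyc_bip (h : d.Best M c) (hR : Orient d M R) {i0 : ι} (hc : Cyc d R i0) :
    ∃ j, ReflTransGen (step d R) i0 j ∧ d.bip j := by
  by_contra hcon
  push Not at hcon
  have htri : ∀ j, ReflTransGen (step d R) i0 j → d.tri j := fun j hj =>
    (h.cyc_type hR (hR.cyc_reach hc hj).1).resolve_right (hcon j hj)
  obtain ⟨x, hx, y, hy, hxy, hyR, hxi, hyi, hoy, hr, hxn, hyn, _⟩ := h.cyc_data' hR hc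
  obtain ⟨hxM, hx1, hx2⟩ := mem_nc.mp hxn
  have htx : d.tri (d.pt x) := by rw [hxi]; exact htri i0 ReflTransGen.refl
  have hstep : step d R i0 (d.pt (d.op x)) := ⟨x, hx, hxi, rfl⟩
  have hto : d.tri (d.pt (d.op x)) := htri _ (ReflTransGen.single hstep)
  obtain ⟨hcj, hji⟩ := hR.cyc_step hc hstep
  obtain ⟨r, hrp, hrM⟩ := h.nc_alive hxM hx1 hx2 htx
  obtain ⟨r2, hr2p, hr2M⟩ := h.nc_alive (h.v0' x hxM) hx2 (by rw [d.op_op]; exact hx1) hto
  have hcol : c r = c r2 := h.nc_tri_tri hxM htx hx1 hto hx2 hrp hrM hr2p hr2M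
  obtain ⟨x2, hx2R, _, _, _, _, hx2p, _⟩ := h.cyc_data' hR hcj
  have hpne : d.pt (d.op x) ≠ d.pt x := d.pt_op x (h.v0 x hxM)
  have hox : d.op x ≠ x := h.v0 x hxM
  have htr : d.tri (d.pt r) := by rw [hrp]; exact htx
  have hor : d.op r ≠ r := d.tri_op r htr
  have horM : d.op r ∉ M := fun e => hrM (by have := h.v0' _ e; rwa [d.op_op] at this)
  have hoxR : d.op x ∉ R := hR.not_mem_op hx
  have hoxM : d.op x ∈ M := h.v0' x hxM
  have hrx : r ≠ x := fun e => hrM (e ▸ hxM)
  have hrox : r ≠ d.op x := fun e => hrM (e ▸ hoxM)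
  have horx : d.op r ≠ x := fun e => horM (e ▸ hxM)
  have horox : d.op r ≠ d.op x := fun e => horM (e ▸ hoxM)
  have hyox : y ≠ d.op x := fun e => hpne (by rw [← e, hyi, hxi])
  set M' := insert r (insert (d.op r) ((M.erase x).erase (d.op x))) with hM'
  have hm : ∀ z, z ∈ M' ↔ z = r ∨ z = d.op r ∨ (z ≠ d.op x ∧ z ≠ x ∧ z ∈ M) := by
    intro z; simp [hM']
  set c' : V → Bool := Function.update (Function.update c x (c r)) (d.op x) (!c r) with hc'
  have cxx : c' x = c r := by
    rw [hc', Function.update_of_ne hox.symm, Function.update_self]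
  have cox : c' (d.op x) = !c r := by rw [hc', Function.update_self]
  have cz : ∀ z, z ≠ x → z ≠ d.op x → c' z = c z := by
    intro z h1 h2; rw [hc', Function.update_of_ne h2, Function.update_of_ne h1]
  have hval : d.Valid M' c' := by
    refine ⟨?_, ?_, ?_, ?_, ?_, ?_⟩
    · intro z hz
      rcases (hm z).mp hz with e | e | e
      · rw [e]; exact hor
      · rw [e]; exact d.op_ne_of hor
      · exact h.v0 z e.2.2
    · intro z hz
      rw [hm]
      rcases (hm z).mp hz with e | e | e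
      · right; left; rw [e]
      · left; rw [e, d.op_op]
      · right; right
        refine ⟨fun e' => e.2.1 (d.op_inj e'), fun e' => e.1 (by rw [← e', d.op_op]),
          h.v0' z e.2.2⟩
    · intro v hv
      obtain ⟨s, hs, hsp⟩ := h.v1 v hv
      by_cases e1 : s = x
      · refine ⟨r, (hm r).mpr (Or.inl rfl), ?_⟩
        rw [hrp, ← e1, hsp]
      by_cases e2 : s = d.op x
      · refine ⟨x2, (hm x2).mpr (Or.inr (Or.inr ⟨fun e => hoxR (e ▸ hx2R), ?_, hR.sub hx2R⟩)), ?_⟩
        · intro e; exact hpne (by rw [← hx2p, e])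
        · rw [hx2p, ← e2, hsp]
      · exact ⟨s, (hm s).mpr (Or.inr (Or.inr ⟨e2, e1, hs⟩)), hsp⟩
    · intro z hz hzM
      by_cases e1 : z = x
      · subst e1; rw [cxx, cox]; simp
      by_cases e2 : z = d.op x
      · subst e2; rw [d.op_op, cxx, cox]; simp
      have hzM' : z ∉ M := fun e => hzM ((hm z).mpr (Or.inr (Or.inr ⟨e2, e1, e⟩)))
      rw [cz z e1 e2, cz (d.op z) (fun e => e2 (by rw [← e, d.op_op])) (fun e => e1 (d.op_inj e))]
      exact h.v2 z hz hzM'
    · intro z w hzw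
      have k : ∀ z, ¬ d.tri (d.pt z) → c' z = c z := by
        intro z hz
        exact cz z (fun e => hz (e ▸ htx)) (fun e => hz (e ▸ hto))
      rw [k z hzw.2.2.1, k w (hzw.2.1 ▸ hzw.2.2.1)]
      exact h.v3 z w hzw
    · have key : ∀ z w, d.tri (d.pt z) → d.pt z = d.pt w → z ≠ w → z ∉ M' → w ∉ M' →
          (z = x ∨ z = d.op x) → c' z ≠ c' w := by
        intro z w ht hp hne hz hw hzz
        rcases hzz with e | e
        · exfalso
          subst e
          have hwr : w ≠ r := fun e => hw ((hm w).mpr (Or.inl e))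
          have hwy : w ≠ y := fun e => hw (by
            rw [e]; exact (hm y).mpr (Or.inr (Or.inr ⟨hyox, hxy.symm, hy⟩)))
          exact tri_no4 ht (hyi.trans hxi.symm) hrp hp.symm hxy hrx.symm hne
            (fun e => hrM (e ▸ hy)) hwy.symm hwr.symm
        · subst e
          have hwx : w ≠ x := fun e => hpne (by rw [hp, e])
          have hwM : w ∉ M := fun e => hw ((hm w).mpr (Or.inr (Or.inr ⟨hne.symm, hwx, e⟩)))
          have hw2 : w = r2 := alive_unique hoxM hto hx2 hp.symm hwM hr2p hr2M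
          rw [cox, cz w hwx hne.symm, hw2, hcol]
          simp
      intro z w ht hp hne hz hw
      by_cases e1 : z = x ∨ z = d.op x
      · exact key z w ht hp hne hz hw e1
      by_cases e2 : w = x ∨ w = d.op x
      · exact Ne.symm (key w z (hp ▸ ht) hp.symm hne.symm hw hz e2)
      push Not at e1 e2
      rw [cz z e1.1 e1.2, cz w e2.1 e2.2]
      exact h.v4 z w ht hp hne
        (fun e => hz ((hm z).mpr (Or.inr (Or.inr ⟨e1.2, e1.1, e⟩))))
        (fun e => hw ((hm w).mpr (Or.inr (Or.inr ⟨e2.2, e2.1, e⟩))))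
  have hcard : M'.card = M.card := by
    have h1 : (M.erase x).card = M.card - 1 := Finset.card_erase_of_mem hxM
    have h2 : ((M.erase x).erase (d.op x)).card = M.card - 1 - 1 := by
      rw [Finset.card_erase_of_mem (Finset.mem_erase.mpr ⟨hox, hoxM⟩), h1]
    have h3 : d.op r ∉ (M.erase x).erase (d.op x) := by
      simp [horM]
    have h4 : r ∉ insert (d.op r) ((M.erase x).erase (d.op x)) := by
      simp [hrM, hor.symm]
    rw [hM', Finset.card_insert_of_notMem h4, Finset.card_insert_of_notMem h3, h2]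
    have h5 : 2 ≤ M.card := by
      rw [← Finset.card_pair hox.symm]
      apply Finset.card_le_card
      intro z hz
      simp only [Finset.mem_insert, Finset.mem_singleton] at hz
      rcases hz with rfl | rfl <;> assumption
    omega
  have hmax := h.max _ _ hval hcard
  -- connectivity
  have hpath : ∀ j, ReflTransGen (step d R) j i0 → ∀ u, d.pt u = j → d.Rel M' u x := by
    intro j hj
    induction hj using ReflTransGen.head_induction_on with
    | refl =>
      intro u hu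
      exact ReflTransGen.single (Or.inl (hu.trans hxi.symm))
    | head h1 _ ih =>
      intro u hu
      obtain ⟨x', hx', hx'i, hx'j⟩ := h1
      by_cases e : x' = x
      · exact ReflTransGen.single (Or.inl (by rw [hu, ← hx'i, e]))
      · have e2 : x' ≠ d.op x := fun e => hoxR (e ▸ hx')
        have hx'M : x' ∈ M' := (hm x').mpr (Or.inr (Or.inr ⟨e2, e, hR.sub hx'⟩))
        have s1 : d.E M' u x' := Or.inl (hu.trans hx'i.symm)
        have s2 : d.E M' x' (d.op x') := Or.inr ⟨hx'M, rfl⟩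
        exact ReflTransGen.head s1 (ReflTransGen.head s2 (ih _ hx'j))
  have hsym : ∀ {u v : V}, d.Rel M' u v → d.Rel M' v u := fun h' => rel_symm hval h'
  have hox_x : d.Rel M' (d.op x) x := hpath _ hji _ rfl
  have hsub : ∀ u v, d.Rel M u v → d.Rel M' u v := by
    intro u v huv
    induction huv with
    | refl => exact ReflTransGen.refl
    | @tail b b' _ h2 ih =>
      refine ih.trans ?_
      rcases h2 with e | ⟨hu, e⟩
      · exact ReflTransGen.single (Or.inl e)
      · subst e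
        by_cases e1 : b = x
        · subst e1; exact hsym hox_x
        by_cases e2 : b = d.op x
        · subst e2; rw [d.op_op]; exact hox_x
        · exact ReflTransGen.single (Or.inr ⟨(hm b).mpr (Or.inr (Or.inr ⟨e2, e1, hu⟩)), rfl⟩)
  have hnew : d.Rel M' r (d.op r) :=
    ReflTransGen.single (Or.inr ⟨(hm r).mpr (Or.inl rfl), rfl⟩)
  have hcolall : ∀ j, ReflTransGen (step d R) i0 j → ∀ r', d.pt r' = j → r' ∉ M → c r' = c r := by
    intro j hj
    induction hj with
    | refl =>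
      intro r' hr' hrM'
      rw [alive_unique hxM htx hx1 (hr'.trans hxi.symm) hrM' hrp hrM]
    | tail h1 h2 ih =>
      intro r' hr' hrM'
      obtain ⟨x', hx', hx'i, hx'j⟩ := h2
      have hcyc' : Cyc d R (d.pt x') := by rw [hx'i]; exact (hR.cyc_reach hc h1).1
      have hn := h.cyc_nc hR hx' hcyc'
      obtain ⟨m1, m2, m3⟩ := mem_nc.mp hn
      have t1 : d.tri (d.pt x') := by rw [hx'i]; exact htri _ h1
      have t2 : d.tri (d.pt (d.op x')) := by
        rw [hx'j]; exact htri _ (h1.tail ⟨x', hx', hx'i, hx'j⟩)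
      obtain ⟨r1, hr1, hr1M⟩ := h.nc_alive m1 m2 m3 t1
      have e1 := ih r1 (hr1.trans hx'i) hr1M
      rw [← e1]
      exact (h.nc_tri_tri m1 t1 m2 t2 m3 hr1 hr1M (hr'.trans hx'j.symm) hrM').symm
  have hold : ¬ d.Rel M r (d.op r) := by
    intro hrel
    have hcl : ∀ u v, d.Rel M u v → ReflTransGen (step d R) i0 (d.pt u) →
        ReflTransGen (step d R) i0 (d.pt v) := by
      intro u v huv hu
      induction huv with
      | refl => exact hu
      | @tail b b' _ h2 ih =>
        rcases h2 with e | ⟨hbM, e⟩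
        · rw [← e]; exact ih
        · subst e
          obtain ⟨xj, hxj, yj, hyj, hxyj, hyjR, hxji, hyji, hoyj, hrj, hxjn, hyjn, _⟩ :=
            h.cyc_data' hR (hR.cyc_reach hc ih).1
          have htj : d.tri (d.pt xj) := by rw [hxji]; exact htri _ ih
          rcases h.tri_two hxjn hyj hxyj htj (hyji.trans hxji.symm) hbM hxji.symm with e | e
          · rw [e]
            exact ih.tail ⟨xj, hxj, hxji, rfl⟩
          · rw [e]
            exact ih.trans hrj
    have h1 := hcl r (d.op r) hrel (by rw [hrp, hxi])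
    have h2 := hcolall _ h1 _ rfl horM
    exact h.v2 r hor hrM h2.symm
  have hlt : d.kap M < d.kap M' := by
    apply Finset.card_lt_card
    rw [Finset.ssubset_iff_of_subset]
    · exact ⟨(r, d.op r), by simp [hnew], by simp [hold]⟩
    · intro p hp
      simp only [Finset.mem_filter, Finset.mem_univ, true_and] at hp ⊢
      exact hsub _ _ hp
  omega

/-- a choice of one bipartite part on every cycle of the orientation -/
noncomputable def pick (S : Set ι) (hne : Nonempty ι) : ι :=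
  if h : S.Nonempty then h.some else hne.some

lemma Best.exists_special (h : d.Best M c) (hR : Orient d M R) :
    ∃ sp : ι → Prop, (∀ i, sp i → Cyc d R i ∧ d.bip i) ∧
      (∀ i, Cyc d R i → ∃ j, ReflTransGen (step d R) i j ∧ sp j) ∧
      (∀ i j, sp i → sp j → ReflTransGen (step d R) i j → i = j) := by
  by_cases hne : Nonempty ι
  swap
  · exact ⟨fun _ => False, fun i => (hne ⟨i⟩).elim, fun i => (hne ⟨i⟩).elim,
      fun i => (hne ⟨i⟩).elim⟩
  set S : ι → Set ι := fun i => {j | ReflTransGen (step d R) i j ∧ d.bip j} with hS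
  have hSeq : ∀ i j, Cyc d R i → ReflTransGen (step d R) i j → S i = S j := by
    intro i j hc hij
    have h1 := hR.cyc_reach hc hij
    ext k
    constructor
    · rintro ⟨h2, h3⟩; exact ⟨h1.2.trans h2, h3⟩
    · rintro ⟨h2, h3⟩; exact ⟨hij.trans h2, h3⟩
  have hpick : ∀ i, Cyc d R i → pick (S i) hne ∈ S i := by
    intro i hc
    obtain ⟨j, hj⟩ := h.cyc_bip hR hc
    have hn : (S i).Nonempty := ⟨j, hj⟩
    unfold pick
    rw [dif_pos hn]
    exact hn.some_mem
  refine ⟨fun i => Cyc d R i ∧ d.bip i ∧ pick (S i) hne = i, ?_, ?_, ?_⟩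
  · intro i hi; exact ⟨hi.1, hi.2.1⟩
  · intro i hc
    have h1 := hpick i hc
    have h2 := hSeq i _ hc h1.1
    exact ⟨_, h1.1, (hR.cyc_reach hc h1.1).1, h1.2, by rw [← h2]⟩
  · intro i j hi hj hij
    rw [← hi.2.2, ← hj.2.2, hSeq i j hi.1 hij]

lemma exists_alt [Finite ι] (s : ι → ι → Prop) (hfun : ∀ i j k, s i j → s i k → j = k)
    (hirr : ∀ i, ¬ TransGen s i i) : ∃ ρ : ι → Bool, ∀ i j, s i j → ρ i ≠ ρ j := by
  have hwf : WellFounded (fun a b => TransGen s b a) := by
    have : IsTrans ι (fun a b => TransGen s b a) := ⟨fun a b c h1 h2 => h2.trans h1⟩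
    have : Std.Irrefl (fun a b : ι => TransGen s b a) := ⟨fun a h => hirr a h⟩
    exact Finite.wellFounded_of_trans_of_irrefl _
  let F : (i : ι) → ((j : ι) → TransGen s i j → Bool) → Bool := fun i rec =>
    if h : ∃ j, s i j then !(rec h.choose (TransGen.single h.choose_spec)) else false
  refine ⟨hwf.fix F, ?_⟩
  intro i j hij
  have h : ∃ j, s i j := ⟨j, hij⟩
  rw [hwf.fix_eq]
  have e : h.choose = j := hfun _ _ _ h.choose_spec hij
  simp only [F, dif_pos h]
  rw [e]
  simp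

lemma Best.exists_rho [Finite ι] (h : d.Best M c) (hR : Orient d M R) :
    ∃ (sp : ι → Prop) (ρ : ι → Bool), (∀ i, sp i → Cyc d R i ∧ d.bip i) ∧
      (∀ i j, sp i → sp j → ReflTransGen (step d R) i j → i = j) ∧
      ∀ x ∈ R, ¬ sp (d.pt x) → ¬ d.Top (d.op x) → ρ (d.pt x) ≠ ρ (d.pt (d.op x)) := by
  obtain ⟨sp, h1, h2, h3⟩ := h.exists_special hR
  set s : ι → ι → Prop := fun i j => ∃ x ∈ R, d.pt x = i ∧ d.pt (d.op x) = j ∧ ¬ sp i ∧
    ¬ d.Top (d.op x) with hs
  have hsub : ∀ i j, s i j → step d R i j := by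
    rintro i j ⟨x, hx, e1, e2, _⟩; exact ⟨x, hx, e1, e2⟩
  have hfun : ∀ i j k, s i j → s i k → j = k := fun i j k a b =>
    hR.step_fun (hsub _ _ a) (hsub _ _ b)
  have hirr : ∀ i, ¬ TransGen s i i := by
    intro i hi
    have hcyc : Cyc d R i := TransGen.mono (fun a b => hsub a b) _ _ hi
    obtain ⟨j, hij, hj⟩ := h2 i hcyc
    have key : ∀ j, ReflTransGen (step d R) i j → TransGen s j j := by
      intro j hij
      induction hij with
      | refl => exact hi
      | tail _ h5 ih =>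
        obtain ⟨k, hk1, hk2⟩ := TransGen.head'_iff.mp ih
        have := hR.step_fun (hsub _ _ hk1) h5
        subst this
        exact TransGen.tail' hk2 hk1
    obtain ⟨k, hk1, _⟩ := TransGen.head'_iff.mp (key j hij)
    obtain ⟨x, _, _, _, hx, _⟩ := hk1
    exact hx hj
  obtain ⟨ρ, hρ⟩ := exists_alt s hfun hirr
  exact ⟨sp, ρ, h1, h3, fun x hx hx1 hx2 => hρ _ _ ⟨x, hx, rfl, rfl, hx1, hx2⟩⟩

end PD

namespace PD

variable {d : PD V ι G} {M : Finset V} {c : V → Bool} {R : Finset V}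

open Relation

/-- everything chosen so far -/
structure Ctx (d : PD V ι G) (M : Finset V) (c : V → Bool) (R : Finset V) (sp : ι → Prop)
    (ρ : ι → Bool) (rt : ι → V) : Prop where
  h : d.Best M c
  g : GoodOr d M R
  s1 : ∀ i, sp i → Cyc d R i ∧ d.bip i
  s2 : ∀ i j, sp i → sp j → ReflTransGen (step d R) i j → i = j
  r : ∀ x ∈ R, ¬ sp (d.pt x) → ¬ d.Top (d.op x) → ρ (d.pt x) ≠ ρ (d.pt (d.op x))
  t : ∀ i, d.tri i → (∃ x, d.pt x = i) → rt i ∈ M ∧ d.pt (rt i) = i ∧ ∀ x ∈ R, d.pt x = i → x = rt i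

lemma Best.exists_ctx [Finite ι] [Nonempty V] (h : d.Best M c) :
    ∃ R sp ρ rt, Ctx d M c R sp ρ rt := by
  obtain ⟨R, hR⟩ := h.exists_good
  obtain ⟨sp, ρ, h1, h2, h3⟩ := h.exists_rho hR.toOrient
  have key : ∀ i, ∃ v : V, d.tri i → (∃ x, d.pt x = i) →
      v ∈ M ∧ d.pt v = i ∧ ∀ x ∈ R, d.pt x = i → x = v := by
    intro i
    by_cases hi : d.tri i ∧ ∃ x, d.pt x = i
    · obtain ⟨ht, x, hx⟩ := hi
      by_cases hr : ∃ y ∈ R, d.pt y = i
      · obtain ⟨y, hy, hyi⟩ := hr
        exact ⟨y, fun _ _ => ⟨hR.sub hy, hyi, fun z hz hzi => hR.b z hz y hy (hzi.trans hyi.symm)⟩⟩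
      · push Not at hr
        obtain ⟨u, hu, hui⟩ := h.v1 x (hx ▸ ht)
        exact ⟨u, fun _ _ => ⟨hu, hui.trans hx, fun z hz hzi => absurd hzi (hr z hz)⟩⟩
    · exact ⟨Classical.arbitrary V, fun h1 h2 => absurd ⟨h1, h2⟩ hi⟩
  choose rt hrt using key
  exact ⟨R, sp, ρ, rt, ⟨h, hR, h1, h2, h3, hrt⟩⟩

noncomputable def colz (d : PD V ι G) (R : Finset V) (ρ : ι → Bool) (i : ι) : Bool :=
  if ∃ x ∈ R, d.pt x = i then !ρ i else ρ i

def RA (d : PD V ι G) (R : Finset V) (sp : ι → Prop) (ρ : ι → Bool) (v : V) (b : Bool) : Prop :=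
  v ∈ R ∧ ¬ sp (d.pt v) ∧
    ((d.Top (d.op v) ∧ b = !colz d R ρ (d.pt (d.op v))) ∨ (¬ d.Top (d.op v) ∧ b = ρ (d.pt v)))

def RB (d : PD V ι G) (R : Finset V) (sp : ι → Prop) (ρ : ι → Bool) (v : V) (b : Bool) : Prop :=
  d.op v ∈ R ∧ sp (d.pt (d.op v)) ∧ b = !ρ (d.pt v)

def RC (d : PD V ι G) (R : Finset V) (ρ : ι → Bool) (rt : ι → V) (v : V) (b : Bool) : Prop :=
  v = rt (d.pt v) ∧ d.tri (d.pt v) ∧ (∀ x ∈ R, d.pt x ≠ d.pt v) ∧ b = ρ (d.pt v)

def RZ (d : PD V ι G) (c : V → Bool) (R : Finset V) (ρ : ι → Bool) (v : V) (b : Bool) : Prop :=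
  (d.Z1 v ∨ ∃ t, d.Top t ∧ d.pt t = d.pt v ∧ G.Adj t v ∧ c v = c t) ∧ b = colz d R ρ (d.pt v)

def RY (d : PD V ι G) (R : Finset V) (ρ : ι → Bool) (v : V) (b : Bool) : Prop :=
  d.Z2 v ∧ b = !colz d R ρ (d.pt v)

def Rem (d : PD V ι G) (c : V → Bool) (R : Finset V) (sp : ι → Prop) (ρ : ι → Bool) (rt : ι → V)
    (v : V) (b : Bool) : Prop :=
  RA d R sp ρ v b ∨ RB d R sp ρ v b ∨ RC d R ρ rt v b ∨ RZ d c R ρ v b ∨ RY d R ρ v b

variable {sp : ι → Prop} {ρ : ι → Bool} {rt : ι → V}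

lemma Ctx.cyc_succ (k : Ctx d M c R sp ρ rt) {v : V} (h1 : d.op v ∈ R) (h2 : sp (d.pt (d.op v))) :
    Cyc d R (d.pt v) := by
  have := (k.g.toOrient.cyc_step (k.s1 _ h2).1 ⟨d.op v, h1, rfl, rfl⟩).1
  rwa [d.op_op] at this

/-- the R vertex of a part on a cycle is noncritical -/
lemma Ctx.cyc_R (k : Ctx d M c R sp ρ rt) {i : ι} (hc : Cyc d R i) :
    ∃ x ∈ R, d.pt x = i ∧ x ∈ nc d M := by
  obtain ⟨x, hx, _, _, _, _, hxi, _, _, _, hxn, _⟩ := k.h.cyc_data' k.g.toOrient hc
  exact ⟨x, hx, hxi, hxn⟩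

/-- no other killed vertex in the part of a critical vertex -/
lemma Ctx.crit (k : Ctx d M c R sp ρ rt) {x w : V} (hx : x ∈ R) (ht : d.Top (d.op x)) (hw : w ∈ M)
    (hp : d.pt w = d.pt x) : w = x := by
  by_contra hne
  have h1 : d.NL M x := fun _ => ⟨w, hw, hne, hp⟩
  have h2 : d.NL M (d.op x) := fun h' => absurd h' (d.Top_nt _ ht)
  exact k.h.nc_not_top (k.h.v0' x (k.g.sub hx)) h2 (by rw [d.op_op]; exact h1) ht

lemma Ctx.crit_tri (k : Ctx d M c R sp ρ rt) {x : V} (hx : x ∈ R) (ht : d.Top (d.op x)) :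
    d.tri (d.pt x) := by
  by_contra hne
  have h1 : d.NL M x := fun h' => absurd h' hne
  have h2 : d.NL M (d.op x) := fun h' => absurd h' (d.Top_nt _ ht)
  exact k.h.nc_not_top (k.h.v0' x (k.g.sub hx)) h2 (by rw [d.op_op]; exact h1) ht

lemma Z_facts {v : V} {b : Bool} (hz : RZ d c R ρ v b) : ¬ d.tri (d.pt v) ∧ ¬ d.bip (d.pt v) ∧
    d.op v = v ∧ ¬ d.Z2 v := by
  obtain ⟨h1 | ⟨t, ht, hp, ha, hc⟩, _⟩ := hz
  · exact ⟨d.Z1_nt v h1, d.Z1_nb v h1, d.Z1_op v h1, d.Z12 v h1⟩
  · obtain ⟨a, b, h1, h2, h3, h4, h5, h6, h7, h8⟩ := d.Top_ab t ht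
    refine ⟨hp ▸ d.Top_nt t ht, hp ▸ d.Top_nb t ht, ?_, fun e => d.Top_Z2 t v ht e hp⟩
    rcases h8 v ha hp.symm with rfl | rfl <;> assumption

lemma Ctx.Z_uniq (k : Ctx d M c R sp ρ rt) {u v : V} {b b' : Bool} (hz : RZ d c R ρ u b)
    (hz' : RZ d c R ρ v b') (hp : d.pt u = d.pt v) : u = v := by
  obtain ⟨h1 | ⟨t, ht, hpt, ha, hc⟩, _⟩ := hz <;> obtain ⟨h1' | ⟨t', ht', hpt', ha', hc'⟩, _⟩ := hz'
  · exact d.Z1_uniq u v h1 h1' hp
  · exact absurd (hpt'.trans hp.symm) (d.Top_Z1 t' u ht' h1)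
  · exact absurd (hpt.trans hp) (d.Top_Z1 t v ht h1')
  · have e : t = t' := d.Top_uniq t t' ht ht' (hpt.trans (hp.trans hpt'.symm))
    subst e
    obtain ⟨a, b, h1, h2, h3, h4, h5, h6, h7, h8⟩ := d.Top_ab t ht
    have hact : d.Act a b := by
      have e1 : ∀ x, d.pt x = d.pt t → ¬ d.Z1 x ∧ ¬ d.Z2 x := fun x hx =>
        ⟨fun e => d.Top_Z1 t x ht e hx.symm, fun e => d.Top_Z2 t x ht e hx.symm⟩
      exact ⟨h1, h2.trans h3.symm, h2 ▸ d.Top_nt t ht, (e1 a h2).1, (e1 b h3).1, (e1 a h2).2,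
        (e1 b h3).2, h6, h7⟩
    have hab := k.h.v3 a b hact
    rcases h8 u ha hpt.symm with e | e <;> rcases h8 v ha' hpt'.symm with e' | e' <;> subst e <;>
      subst e'
    · rfl
    · exact absurd (hc.trans hc'.symm) hab
    · exact absurd (hc'.trans hc.symm) hab
    · rfl

lemma Ctx.same_AB (k : Ctx d M c R sp ρ rt) {u v : V} {b b' : Bool} (hu : RA d R sp ρ u b)
    (hv : RB d R sp ρ v b') (hp : d.pt u = d.pt v) : b ≠ b' := by
  have hc := k.cyc_succ hv.1 hv.2.1
  rw [← hp] at hc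
  have hn := k.h.cyc_nc k.g.toOrient hu.1 hc
  obtain ⟨m1, m2, m3⟩ := mem_nc.mp hn
  have hnt : ¬ d.Top (d.op u) := k.h.nc_not_top (k.h.v0' u m1) m3 (by rw [d.op_op]; exact m2)
  rcases hu.2.2 with ⟨e, _⟩ | ⟨_, e⟩
  · exact absurd e hnt
  · rw [e, hv.2.2, hp]; simp

lemma Ctx.same_AZ (k : Ctx d M c R sp ρ rt) {u v : V} {b b' : Bool} (hu : RA d R sp ρ u b)
    (hv : RZ d c R ρ v b') (hp : d.pt u = d.pt v) : b ≠ b' := by
  have hf := Z_facts hv
  have hnt : ¬ d.Top (d.op u) := fun e => hf.1 (hp ▸ k.crit_tri hu.1 e)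
  rcases hu.2.2 with ⟨e, _⟩ | ⟨_, e⟩
  · exact absurd e hnt
  · rw [e, hv.2, colz, if_pos ⟨u, hu.1, hp⟩, hp]; simp

lemma Ctx.same_B_nz (k : Ctx d M c R sp ρ rt) {u v : V} {b : Bool} (hu : RB d R sp ρ u b)
    (hp : d.pt u = d.pt v) (h1 : ¬ d.tri (d.pt v)) (h2 : ¬ d.bip (d.pt v)) : False := by
  have hc := k.cyc_succ hu.1 hu.2.1
  rcases k.h.cyc_type k.g.toOrient hc with e | e
  · exact h1 (hp ▸ e)
  · exact h2 (hp ▸ e)

lemma Ctx.same_BB (k : Ctx d M c R sp ρ rt) {u v : V} {b b' : Bool} (hu : RB d R sp ρ u b)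
    (hv : RB d R sp ρ v b') (hp : d.pt u = d.pt v) : u = v := by
  have s1 : step d R (d.pt (d.op u)) (d.pt u) := ⟨d.op u, hu.1, rfl, by rw [d.op_op]⟩
  have s2 : step d R (d.pt (d.op v)) (d.pt v) := ⟨d.op v, hv.1, rfl, by rw [d.op_op]⟩
  have r2 := (k.g.toOrient.cyc_step (k.s1 _ hv.2.1).1 s2).2
  have e := k.s2 _ _ hu.2.1 hv.2.1 ((ReflTransGen.single s1).trans (hp ▸ r2))
  exact d.op_inj (k.g.b _ hu.1 _ hv.1 e)

lemma Ctx.same_BC (k : Ctx d M c R sp ρ rt) {u v : V} {b b' : Bool} (hu : RB d R sp ρ u b)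
    (hv : RC d R ρ rt v b') (hp : d.pt u = d.pt v) : False := by
  obtain ⟨x, hx, hxp, _⟩ := k.cyc_R (k.cyc_succ hu.1 hu.2.1)
  exact hv.2.2.1 x hx (hxp.trans hp)

lemma Ctx.R_ne (k : Ctx d M c R sp ρ rt) {u : V} (hu : u ∈ R) : d.op u ≠ u := k.h.v0 u (k.g.sub hu)

/-- removed vertices of the same part have different colours -/
lemma Ctx.same (k : Ctx d M c R sp ρ rt) {u v : V} {b b' : Bool} (hu : Rem d c R sp ρ rt u b)
    (hv : Rem d c R sp ρ rt v b') (hp : d.pt u = d.pt v) (hne : u ≠ v) : b ≠ b' := by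
  rcases hu with hu | hu | hu | hu | hu <;> rcases hv with hv | hv | hv | hv | hv
  · exact absurd (k.g.b u hu.1 v hv.1 hp) hne
  · exact k.same_AB hu hv hp
  · exact absurd hp (hv.2.2.1 u hu.1)
  · exact k.same_AZ hu hv hp
  · exact absurd (d.Z2_op v hv.1 u hp) (k.R_ne hu.1)
  · exact (k.same_AB hv hu hp.symm).symm
  · exact absurd (k.same_BB hu hv hp) hne
  · exact (k.same_BC hu hv hp).elim
  · have hf := Z_facts hv
    exact (k.same_B_nz hu hp hf.1 hf.2.1).elim
  · exact (k.same_B_nz hu hp (d.Z2_nt v hv.1) (d.Z2_nb v hv.1)).elim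
  · exact absurd hp.symm (hu.2.2.1 v hv.1)
  · exact (k.same_BC hv hu hp.symm).elim
  · exact absurd (by rw [hu.1, hv.1, hp]) hne
  · exact absurd (hp ▸ hu.2.1) (Z_facts hv).1
  · exact absurd (hp ▸ hu.2.1) (d.Z2_nt v hv.1)
  · exact (k.same_AZ hv hu hp.symm).symm
  · have hf := Z_facts hu
    exact (k.same_B_nz hv hp.symm hf.1 hf.2.1).elim
  · exact absurd (hp ▸ hv.2.1) (Z_facts hu).1
  · exact absurd (k.Z_uniq hu hv hp) hne
  · rw [hu.2, hv.2, hp]; simp
  · exact absurd (d.Z2_op u hu.1 v hp.symm) (k.R_ne hv.1)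
  · exact (k.same_B_nz hv hp.symm (d.Z2_nt u hu.1) (d.Z2_nb u hu.1)).elim
  · exact absurd (hp ▸ hv.2.1) (d.Z2_nt u hu.1)
  · rw [hu.2, hv.2, hp]; simp
  · exact absurd (d.Z2_uniq u v hu.1 hv.1 hp) hne

lemma Ctx.rt_mem (k : Ctx d M c R sp ρ rt) {v : V} {b : Bool} (hv : RC d R ρ rt v b) : v ∈ M := by
  have := (k.t _ hv.2.1 ⟨v, rfl⟩).1
  rw [← hv.1] at this
  exact this

lemma Ctx.adj_AC (k : Ctx d M c R sp ρ rt) {u v : V} {b b' : Bool} (hu : RA d R sp ρ u b)
    (hv : RC d R ρ rt v b') (ho : d.op u = v) : b ≠ b' := by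
  subst ho
  have hnt : ¬ d.Top (d.op u) := fun e => d.Top_nt _ e hv.2.1
  rcases hu.2.2 with ⟨e, _⟩ | ⟨_, e⟩
  · exact absurd e hnt
  · rw [e, hv.2.2.2]; exact k.r u hu.1 hu.2.1 hnt

/-- removed vertices joined by an outer edge have different colours -/
lemma Ctx.adj (k : Ctx d M c R sp ρ rt) {u v : V} {b b' : Bool} (hu : Rem d c R sp ρ rt u b)
    (hv : Rem d c R sp ρ rt v b') (ho : d.op u = v) (hne : u ≠ v) : b ≠ b' := by
  have ho' : d.op v = u := by rw [← ho, d.op_op]
  rcases hu with hu | hu | hu | hu | hu <;> rcases hv with hv | hv | hv | hv | hv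
  · exact absurd (ho ▸ hv.1) (k.g.toOrient.not_mem_op hu.1)
  · exact absurd (ho' ▸ hv.2.1) hu.2.1
  · exact k.adj_AC hu hv ho
  · exact absurd ((Z_facts hv).2.2.1.symm.trans ho') hne.symm
  · exact absurd ((d.Z2_op v hv.1 v rfl).symm.trans ho') hne.symm
  · exact absurd (ho ▸ hu.2.1) hv.2.1
  · exact absurd (ho' ▸ hv.1)
      (by have := k.g.toOrient.not_mem_op hu.1; rwa [d.op_op] at this)
  · exact absurd (by rw [ho]) (hv.2.2.1 _ hu.1)
  · exact absurd ((Z_facts hv).2.2.1.symm.trans ho') hne.symm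
  · exact absurd ((d.Z2_op v hv.1 v rfl).symm.trans ho') hne.symm
  · exact (k.adj_AC hv hu ho').symm
  · exact absurd (by rw [ho']) (hu.2.2.1 _ hv.1)
  · exfalso
    have h1 := k.g.a u (k.rt_mem hu)
    have h2 : u ∉ R := fun e => hu.2.2.1 u e rfl
    have h3 : d.op u ∉ R := fun e => hv.2.2.1 _ e (by rw [ho])
    exact h2 (h1.mpr h3)
  · exact absurd ((Z_facts hv).2.2.1.symm.trans ho') hne.symm
  · exact absurd ((d.Z2_op v hv.1 v rfl).symm.trans ho') hne.symm
  all_goals first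
    | exact absurd ((Z_facts hu).2.2.1.symm.trans ho) hne
    | exact absurd ((d.Z2_op u hu.1 u rfl).symm.trans ho) hne


lemma Ctx.nonR_of (k : Ctx d M c R sp ρ rt) {w : V} (h1 : d.op w ∈ R) : w ∈ M ∧ w ∉ R := by
  have h2 := k.h.v0' _ (k.g.sub h1)
  rw [d.op_op] at h2
  refine ⟨h2, fun e => k.g.toOrient.not_mem_op e h1⟩

/-- the case where `v` is of the first kind and its partner is not a top -/
lemma Ctx.far_A (k : Ctx d M c R sp ρ rt) {u w : V} {b : Bool}
    (hu : Rem d c R sp ρ rt u b) (hw : d.op w ∈ R) (hp : d.pt w = d.pt u) (hne : w ≠ u)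
    (hnt : ¬ d.Top w) : b = ρ (d.pt u) := by
  obtain ⟨hwM, hwR⟩ := k.nonR_of hw
  rcases hu with hu | hu | hu | hu | hu
  · rcases hu.2.2 with ⟨e, _⟩ | ⟨_, e⟩
    · exact absurd (k.crit hu.1 e hwM hp) hne
    · exact e
  · exfalso
    have hc := k.cyc_succ hu.1 hu.2.1
    obtain ⟨x, hx, hxp, hxn⟩ := k.cyc_R hc
    obtain ⟨hxM, hx1, hx2⟩ := mem_nc.mp hxn
    have huM := (k.nonR_of hu.1).1
    have huR := (k.nonR_of hu.1).2
    have hux : u ≠ x := fun e => huR (e ▸ hx)
    by_cases ht : d.tri (d.pt u)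
    · rcases k.h.tri_two hxn huM hux.symm (hxp.symm ▸ ht) hxp.symm hwM (hp.trans hxp.symm) with e | e
      · exact hwR (e ▸ hx)
      · exact hne e
    · have hbs : ¬ d.tri (d.pt (d.op u)) := fun e => d.tri_bip _ e (k.s1 _ hu.2.1).2
      rcases k.h.two huM hxM hux hxp ht hbs hx2 hwM hp hnt with e | e
      · exact hne e
      · exact hwR (e ▸ hx)
  · exact hu.2.2.2
  · have hf := Z_facts hu
    have hno : ¬ ∃ x ∈ R, d.pt x = d.pt u := by
      rintro ⟨x, hx, hxp⟩
      have hxt : ¬ d.tri (d.pt x) := hxp.symm ▸ hf.1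
      have hxn : x ∈ nc d M := (k.g.c x hx).resolve_right (fun e => e (fun h' => absurd h' hxt))
      obtain ⟨hxM, hx1, hx2⟩ := mem_nc.mp hxn
      have := k.h.small hxM hxt (hxp.symm ▸ hf.2.1) hx2 hwM (hp.trans hxp.symm) hnt
      exact hwR (this ▸ hx)
    rw [hu.2, colz, if_neg hno]
  · exact absurd (d.Z2_op u hu.1 w hp) (k.h.v0 w hwM)

/-- removed vertices at distance two in different parts have different colours -/
lemma Ctx.far (k : Ctx d M c R sp ρ rt) {u v w : V} {b b' : Bool} (hu : Rem d c R sp ρ rt u b)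
    (hv : Rem d c R sp ρ rt v b') (hp : d.pt w = d.pt u) (ha : G.Adj w u) (ho : d.op w = v)
    (hpv : d.pt v ≠ d.pt u) : b ≠ b' := by
  have ho' : d.op v = w := by rw [← ho, d.op_op]
  have hne : w ≠ u := ha.ne
  have hwv : w ≠ v := fun e => hpv (by rw [← e, hp])
  rcases hv with hv | hv | hv | hv | hv
  · have hw : d.op w ∈ R := ho ▸ hv.1
    obtain ⟨hwM, hwR⟩ := k.nonR_of hw
    rcases hv.2.2 with ⟨e, e'⟩ | ⟨e, e'⟩
    · rw [ho'] at e e'
      obtain ⟨x, y, h1, h2, h3, h4, h5, h6, h7, h8⟩ := d.Top_ab w e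
      have huo : d.op u = u := by
        rcases h8 u ha hp.symm with rfl | rfl <;> assumption
      have huM : u ∉ M := fun h' => k.h.v0 u h' huo
      rcases hu with hu | hu | hu | hu | hu
      · exact absurd (k.g.sub hu.1) huM
      · exact absurd (k.nonR_of hu.1).1 huM
      · exact absurd (k.rt_mem hu) huM
      · rw [hu.2, e', hp]; simp
      · exact absurd hp (d.Top_Z2 w u e hu.1)
    · rw [ho'] at e
      rw [k.far_A hu hw hp hne e, e', ← hp]
      have := k.r v hv.1 hv.2.1 (by rw [ho']; exact e)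
      rw [ho'] at this
      exact this.symm
  · -- special part
    exfalso
    have hv2 := hv.2.1
    rw [ho'] at hv2
    have hs : sp (d.pt u) := hp ▸ hv2
    have hb := (k.s1 _ hs).2
    rcases hu with hu | hu | hu | hu | hu
    · exact hu.2.1 hs
    · have hst : step d R (d.pt (d.op u)) (d.pt u) := ⟨d.op u, hu.1, rfl, by rw [d.op_op]⟩
      have := k.s2 _ _ hu.2.1 hs (ReflTransGen.single hst)
      have hou : d.op u ≠ u := by
        have := k.R_ne hu.1
        rw [d.op_op] at this; exact this.symm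
      exact d.pt_op u hou this
    · exact d.tri_bip _ hu.2.1 hb
    · exact (Z_facts hu).2.1 hb
    · exact d.Z2_nb u hu.1 hb
  · -- root triangle
    exfalso
    have hvM := k.rt_mem hv
    have ht : d.tri (d.pt w) := by
      have := k.g.d v hvM hv.2.1 hv.2.2.1
      rwa [ho'] at this
    have hvR : v ∉ R := fun e => hv.2.2.1 v e rfl
    have hwR : w ∈ R := by
      by_contra hc
      apply hvR
      rw [k.g.a v hvM, ho']
      exact hc
    rcases hu with hu | hu | hu | hu | hu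
    · exact hne (k.g.b w hwR u hu.1 hp)
    · have hc := k.cyc_succ hu.1 hu.2.1
      have hst : step d R (d.pt u) (d.pt v) := ⟨w, hwR, hp, by rw [ho]⟩
      have hcv := (k.g.toOrient.cyc_step hc hst).1
      obtain ⟨x, hx, hxp, _⟩ := k.cyc_R hcv
      exact hv.2.2.1 x hx hxp
    · exact hu.2.2.1 w hwR hp
    · exact (Z_facts hu).1 (hp ▸ ht)
    · exact d.Z2_nt u hu.1 (hp ▸ ht)
  · exact absurd ((Z_facts hv).2.2.1.symm.trans ho').symm hwv
  · exact absurd ((d.Z2_op v hv.1 v rfl).symm.trans ho').symm hwv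

lemma Ctx.final_B (k : Ctx d M c R sp ρ rt) {u v : V} {b b' : Bool} (hu : Rem d c R sp ρ rt u b)
    (hv : Rem d c R sp ρ rt v b') (hne : u ≠ v)
    (hd : G.Adj u v ∨ ∃ w, G.Adj u w ∧ G.Adj w v) : b ≠ b' := by
  by_cases hp : d.pt u = d.pt v
  · exact k.same hu hv hp hne
  rcases hd with ha | ⟨w, h1, h2⟩
  · exact k.adj hu hv (d.op_of_adj u v ha hp) hne
  · by_cases e1 : d.pt w = d.pt u
    · have e2 : d.pt w ≠ d.pt v := fun e => hp (e1.symm.trans e)
      exact k.far hu hv e1 h1.symm (d.op_of_adj w v h2 e2) (Ne.symm hp)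
    · have e2 : d.op w = u := d.op_of_adj w u h1.symm e1
      by_cases e3 : d.pt w = d.pt v
      · exact (k.far hv hu e3 h2 e2 hp).symm
      · exact absurd (e2.symm.trans (d.op_of_adj w v h2 e3)) hne

end PD

namespace PD

variable {d : PD V ι G} {M : Finset V} {c : V → Bool} {R : Finset V}
variable {sp : ι → Prop} {ρ : ι → Bool} {rt : ι → V}

/-- the two main colours -/
noncomputable def main (d : PD V ι G) (M : Finset V) (c : V → Bool) (st : ι → V) (v : V) : Bool :=
  if d.tri (d.pt v) ∧ v ∈ M then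
    (if h : ∃ r, d.pt r = d.pt v ∧ r ∉ M then !c h.choose else decide (v = st (d.pt v)))
  else c v

lemma Ctx.rt_rem (k : Ctx d M c R sp ρ rt) {v : V} (ht : d.tri (d.pt v)) :
    ∃ b, Rem d c R sp ρ rt (rt (d.pt v)) b := by
  obtain ⟨h1, h2, h3⟩ := k.t (d.pt v) ht ⟨v, rfl⟩
  by_cases hr : ∃ x ∈ R, d.pt x = d.pt v
  · obtain ⟨x, hx, hxp⟩ := hr
    have e := h3 x hx hxp
    rw [← e]
    have hs : ¬ sp (d.pt x) := fun e' => d.tri_bip _ (hxp.symm ▸ ht) (k.s1 _ e').2
    by_cases htop : d.Top (d.op x)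
    · exact ⟨_, Or.inl ⟨hx, hs, Or.inl ⟨htop, rfl⟩⟩⟩
    · exact ⟨_, Or.inl ⟨hx, hs, Or.inr ⟨htop, rfl⟩⟩⟩
  · push Not at hr
    refine ⟨ρ (d.pt v), Or.inr (Or.inr (Or.inl ⟨?_, ?_, ?_, ?_⟩))⟩
    · rw [h2]
    · rw [h2]; exact ht
    · rw [h2]; exact hr
    · rw [h2]

lemma Ctx.main_tri (k : Ctx d M c R sp ρ rt) {st : ι → V}
    (hst : ∀ v, d.tri (d.pt v) → d.pt (st (d.pt v)) = d.pt v ∧ st (d.pt v) ≠ rt (d.pt v))
    {u v : V} (hne : u ≠ v) (hp : d.pt u = d.pt v) (ht : d.tri (d.pt v)) (hu : u ≠ rt (d.pt v))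
    (hv : v ≠ rt (d.pt v)) : main d M c st u ≠ main d M c st v := by
  have htu : d.tri (d.pt u) := hp ▸ ht
  obtain ⟨h1, h2, h3⟩ := k.t (d.pt v) ht ⟨v, rfl⟩
  have mixed : ∀ x y : V, x ≠ y → d.pt x = d.pt y → d.tri (d.pt y) → x ≠ rt (d.pt y) →
      rt (d.pt y) ∈ M → d.pt (rt (d.pt y)) = d.pt y →
      x ∈ M → y ∉ M → main d M c st x ≠ main d M c st y := by
    intro x y hxy hpp hty hx hr1 hr2 hxM hyM
    have hex : ∃ r, d.pt r = d.pt x ∧ r ∉ M := ⟨y, hpp.symm, hyM⟩
    have hnl : d.NL M x := fun _ => ⟨rt (d.pt y), hr1, hx.symm, hr2.trans hpp.symm⟩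
    have e := alive_unique hxM (hpp.symm ▸ hty) hnl hex.choose_spec.1 hex.choose_spec.2
      hpp.symm hyM
    have e1 : main d M c st x = !c y := by
      unfold main
      rw [if_pos ⟨hpp.symm ▸ hty, hxM⟩, dif_pos hex, e]
    have e2 : main d M c st y = c y := by
      unfold main
      rw [if_neg (fun h' => hyM h'.2)]
    rw [e1, e2]; simp
  by_cases m1 : u ∈ M <;> by_cases m2 : v ∈ M
  · have hno : ¬ ∃ r, d.pt r = d.pt v ∧ r ∉ M := by
      rintro ⟨r, hr, hrM⟩
      exact tri_no4 (d := d) ht hp h2 hr hne.symm hv (fun e => hrM (e ▸ m2)) hu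
        (fun e => hrM (e ▸ m1)) (fun e => hrM (e ▸ h1))
    have e1 : main d M c st v = decide (v = st (d.pt v)) := by
      unfold main; rw [if_pos ⟨ht, m2⟩, dif_neg hno]
    have e2 : main d M c st u = decide (u = st (d.pt v)) := by
      unfold main; rw [if_pos ⟨htu, m1⟩, dif_neg (by rw [hp]; exact hno), hp]
    rw [e1, e2]
    obtain ⟨s1, s2⟩ := hst v ht
    have : st (d.pt v) = u ∨ st (d.pt v) = v := by
      by_contra hc
      push Not at hc
      exact tri_no4 (d := d) ht hp h2 s1 hne.symm hv hc.2.symm hu hc.1.symm s2.symm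
    rcases this with e | e
    · rw [e]; simp [hne.symm]
    · rw [e]; simp [hne]
  · exact mixed u v hne hp ht hu h1 h2 m1 m2
  · exact (mixed v u hne.symm hp.symm htu (hp ▸ hv) (hp ▸ h1) (hp ▸ h2) m2 m1).symm
  · unfold main
    rw [if_neg (fun h' => m1 h'.2), if_neg (fun h' => m2 h'.2)]
    exact k.h.v4 u v htu hp hne m1 m2

lemma outer_rem {u : V} (hu : u ∈ R) :
    (∃ b, Rem d c R sp ρ rt u b) ∨ ∃ b, Rem d c R sp ρ rt (d.op u) b := by
  by_cases hs : sp (d.pt u)
  · right
    exact ⟨_, Or.inr (Or.inl ⟨by rw [d.op_op]; exact hu, by rw [d.op_op]; exact hs, rfl⟩)⟩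
  · left
    by_cases htop : d.Top (d.op u)
    · exact ⟨_, Or.inl ⟨hu, hs, Or.inl ⟨htop, rfl⟩⟩⟩
    · exact ⟨_, Or.inl ⟨hu, hs, Or.inr ⟨htop, rfl⟩⟩⟩

lemma Ctx.final_A (k : Ctx d M c R sp ρ rt) {st : ι → V}
    (hst : ∀ v, d.tri (d.pt v) → d.pt (st (d.pt v)) = d.pt v ∧ st (d.pt v) ≠ rt (d.pt v))
    {u v : V} (ha : G.Adj u v) (hu : ¬ ∃ b, Rem d c R sp ρ rt u b)
    (hv : ¬ ∃ b, Rem d c R sp ρ rt v b) : main d M c st u ≠ main d M c st v := by
  by_cases hp : d.pt u = d.pt v
  · by_cases ht : d.tri (d.pt v)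
    · have hr := k.rt_rem ht
      exact k.main_tri hst ha.ne hp ht (fun e => hu (e ▸ hr)) (fun e => hv (e ▸ hr))
    · have e1 : main d M c st v = c v := by
        unfold main; rw [if_neg (fun h' => ht h'.1)]
      have e2 : main d M c st u = c u := by
        unfold main; rw [if_neg (fun h' => ht (hp ▸ h'.1))]
      rw [e1, e2]
      have n1 : ∀ x, (¬ ∃ b, Rem d c R sp ρ rt x b) → ¬ d.Z1 x ∧ ¬ d.Z2 x := fun x hx =>
        ⟨fun e => hx ⟨_, Or.inr (Or.inr (Or.inr (Or.inl ⟨Or.inl e, rfl⟩)))⟩,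
          fun e => hx ⟨_, Or.inr (Or.inr (Or.inr (Or.inr ⟨e, rfl⟩)))⟩⟩
      have n2 : ∀ x y, (¬ ∃ b, Rem d c R sp ρ rt y b) → G.Adj x y → d.pt x = d.pt y → d.Top x →
          c y ≠ c x := fun x y hy hxy hpp htx e =>
        hy ⟨_, Or.inr (Or.inr (Or.inr (Or.inl ⟨Or.inr ⟨x, htx, hpp, hxy, e⟩, rfl⟩)))⟩
      by_cases t1 : d.Top u
      · exact (n2 u v hv ha hp t1).symm
      by_cases t2 : d.Top v
      · exact n2 v u hu ha.symm hp.symm t2
      exact k.h.v3 u v ⟨ha, hp, hp ▸ ht, (n1 u hu).1, (n1 v hv).1, (n1 u hu).2, (n1 v hv).2, t1, t2⟩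
  · have ho := d.op_of_adj u v ha hp
    have hou : d.op u ≠ u := by rw [ho]; exact ha.ne.symm
    by_cases m : u ∈ M
    · exfalso
      by_cases hR : u ∈ R
      · rcases outer_rem (d := d) (c := c) (sp := sp) (ρ := ρ) (rt := rt) hR with e | e
        · exact hu e
        · exact hv (ho ▸ e)
      · have hR' : v ∈ R := by
          by_contra hc
          exact hR ((k.g.a u m).mpr (ho.symm ▸ hc))
        rcases outer_rem (d := d) (c := c) (sp := sp) (ρ := ρ) (rt := rt) hR' with e | e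
        · exact hv e
        · rw [← ho, d.op_op] at e
          exact hu e
    · have m2 : v ∉ M := fun e => m (by
        have := k.h.v0' v e
        rwa [← ho, d.op_op] at this)
      have e1 : main d M c st v = c v := by
        unfold main; rw [if_neg (fun h' => m2 h'.2)]
      have e2 : main d M c st u = c u := by
        unfold main; rw [if_neg (fun h' => m h'.2)]
      rw [e1, e2, ← ho]
      exact k.h.v2 u hou m

theorem exists_colouring [Finite ι] (d : PD V ι G) : ∃ (rem : V → Prop) (col : V → Bool),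
    (∀ u v, G.Adj u v → ¬ rem u → ¬ rem v → col u ≠ col v) ∧
    (∀ u v, u ≠ v → rem u → rem v → (G.Adj u v ∨ ∃ w, G.Adj u w ∧ G.Adj w v) → col u ≠ col v) := by
  rcases isEmpty_or_nonempty V with hV | hV
  · exact ⟨fun _ => True, fun _ => true, fun u => (hV.false u).elim, fun u => (hV.false u).elim⟩
  obtain ⟨M, c, h⟩ := d.exists_best
  obtain ⟨R, sp, ρ, rt, k⟩ := h.exists_ctx
  have key : ∀ i, ∃ s : V, ∀ v, d.pt v = i → d.tri i → d.pt s = i ∧ s ≠ rt i := by
    intro i
    by_cases hi : d.tri i ∧ ∃ v, d.pt v = i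
    · obtain ⟨ht, v, hv⟩ := hi
      obtain ⟨a, b, h1, h2, h3, h4, h5, h6⟩ := d.tri_three v (hv.symm ▸ ht)
      by_cases e : v = rt i
      · exact ⟨a, fun _ _ _ => ⟨h4.trans hv, fun e' => h1 (e.trans e'.symm)⟩⟩
      · exact ⟨v, fun _ _ _ => ⟨hv, e⟩⟩
    · exact ⟨Classical.arbitrary V, fun v h1 h2 => absurd ⟨h2, v, h1⟩ hi⟩
  choose st hst using key
  refine ⟨fun v => ∃ b, Rem d c R sp ρ rt v b,
    fun v => if h : ∃ b, Rem d c R sp ρ rt v b then h.choose else main d M c st v, ?_, ?_⟩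
  · intro u v ha hu hv
    simp only [dif_neg hu, dif_neg hv]
    exact k.final_A (fun v ht => hst _ v rfl ht) ha hu hv
  · intro u v hne hu hv hd
    simp only [dif_pos hu, dif_pos hv]
    exact k.final_B hu.choose_spec hv.choose_spec hne hd

end PD

end Pool.Agent.CubicShort
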