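import Mathlib

/-!
Packing colourings of graphs.
-/

namespace Pool.Agent.CubicShort

universe u

/-- `G` is `(s 0, ..., s (k-1))`-packing colourable: the vertices can be coloured with `k` colours
so that distinct vertices of colour `i` are at distance greater than `s i`. -/
def PackingColorable {V : Type u} (G : SimpleGraph V) {k : ℕ} (s : Fin k → ℕ) : Prop :=
  ∃ f : V → Fin k, ∀ u v : V, u ≠ v → f u = f v → (s (f u) : ℕ∞) < G.edist u v

end Pool.Agent.CubicShort
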