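import Mathlib

/-!
Short cycles in cubic graphs: the partition of the vertex set into parts in which any two short
cycles meet.
-/

namespace Pool.Agent.CubicShort

open scoped Classical

universe u

variable {V : Type u} {G : SimpleGraph V}

/-- vertex set of a triangle -/
def Tri3 (G : SimpleGraph V) (C : Finset V) : Prop :=
  ∃ a b c, G.Adj a b ∧ G.Adj b c ∧ G.Adj c a ∧ C = {a, b, c}

/-- vertex set of a four-cycle -/
def Quad (G : SimpleGraph V) (C : Finset V) : Prop :=
  ∃ a b c e, G.Adj a b ∧ G.Adj b c ∧ G.Adj c e ∧ G.Adj e a ∧ a ≠ c ∧ b ≠ e ∧ C = {a, b, c, e}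

def Short (G : SimpleGraph V) (C : Finset V) : Prop := Tri3 G C ∨ Quad G C

def Cub (G : SimpleGraph V) : Prop :=
  ∀ v, ∃ a b c, a ≠ b ∧ a ≠ c ∧ b ≠ c ∧ ∀ w, G.Adj v w ↔ (w = a ∨ w = b ∨ w = c)

def Covered (G : SimpleGraph V) (S : Finset V) : Prop := ∀ v ∈ S, ∃ C, Short G C ∧ v ∈ C ∧ C ⊆ S

def Meet (G : SimpleGraph V) (S : Finset V) : Prop :=
  ∀ C1 C2, Short G C1 → Short G C2 → C1 ⊆ S → C2 ⊆ S → ∃ x, x ∈ C1 ∧ x ∈ C2

lemma Cub.mem3 (hc : Cub G) {v a b c w : V} (ha : G.Adj v a) (hb : G.Adj v b) (hcc : G.Adj v c)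
    (hw : G.Adj v w) (h1 : a ≠ b) (h2 : a ≠ c) (h3 : b ≠ c) : w = a ∨ w = b ∨ w = c := by
  obtain ⟨x, y, z, g1, g2, g3, g⟩ := hc v
  rw [g] at ha hb hcc hw
  rcases ha with rfl | rfl | rfl <;> rcases hb with rfl | rfl | rfl <;>
    rcases hcc with rfl | rfl | rfl <;> first
      | exact absurd rfl h1
      | exact absurd rfl h2
      | exact absurd rfl h3
      | (rcases hw with rfl | rfl | rfl <;> simp)

/-- the third neighbour -/
lemma Cub.third (hc : Cub G) {v a b : V} (ha : G.Adj v a) (hb : G.Adj v b) (h1 : a ≠ b) :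
    ∃ c, G.Adj v c ∧ a ≠ c ∧ b ≠ c ∧ ∀ w, G.Adj v w → w = a ∨ w = b ∨ w = c := by
  obtain ⟨x, y, z, g1, g2, g3, g⟩ := hc v
  have hx : G.Adj v x := (g x).mpr (Or.inl rfl)
  have hy : G.Adj v y := (g y).mpr (Or.inr (Or.inl rfl))
  have hz : G.Adj v z := (g z).mpr (Or.inr (Or.inr rfl))
  have key : ∀ c, G.Adj v c → a ≠ c → b ≠ c → ∃ c, G.Adj v c ∧ a ≠ c ∧ b ≠ c ∧
      ∀ w, G.Adj v w → w = a ∨ w = b ∨ w = c := fun c h2 h3 h4 =>
    ⟨c, h2, h3, h4, fun w hw => hc.mem3 ha hb h2 hw h1 h3 h4⟩
  rcases (g a).mp ha with rfl | rfl | rfl <;> rcases (g b).mp hb with rfl | rfl | rfl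
  · exact absurd rfl h1
  · exact key z hz g2 g3
  · exact key y hy g1 g3.symm
  · exact key z hz g3 g2
  · exact absurd rfl h1
  · exact key x hx g1.symm g2.symm
  · exact key y hy g3.symm g1
  · exact key x hx g2.symm g1.symm
  · exact absurd rfl h1

lemma Short.at {C : Finset V} (hC : Short G C) {v : V} (hv : v ∈ C) :
    (∃ p q, G.Adj v p ∧ G.Adj p q ∧ G.Adj q v ∧ C = {v, p, q}) ∨
    (∃ p q r, G.Adj v p ∧ G.Adj p q ∧ G.Adj q r ∧ G.Adj r v ∧ v ≠ q ∧ p ≠ r ∧
      C = {v, p, q, r}) := by
  rcases hC with ⟨a, b, c, h1, h2, h3, rfl⟩ | ⟨a, b, c, e, h1, h2, h3, h4, h5, h6, rfl⟩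
  · left
    simp only [Finset.mem_insert, Finset.mem_singleton] at hv
    rcases hv with rfl | rfl | rfl
    · exact ⟨b, c, h1, h2, h3, rfl⟩
    · exact ⟨c, a, h2, h3, h1, by ext x; simp; tauto⟩
    · exact ⟨a, b, h3, h1, h2, by ext x; simp; tauto⟩
  · right
    simp only [Finset.mem_insert, Finset.mem_singleton] at hv
    rcases hv with rfl | rfl | rfl | rfl
    · exact ⟨b, c, e, h1, h2, h3, h4, h5, h6, rfl⟩
    · exact ⟨c, e, a, h2, h3, h4, h1, h6, h5.symm, by ext x; simp; tauto⟩
    · exact ⟨e, a, b, h3, h4, h1, h2, h5.symm, h6.symm, by ext x; simp; tauto⟩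
    · exact ⟨a, b, c, h4, h1, h2, h3, h6.symm, h5, by ext x; simp; tauto⟩

lemma Short.two {C : Finset V} (hC : Short G C) {v : V} (hv : v ∈ C) :
    ∃ a ∈ C, ∃ b ∈ C, a ≠ b ∧ G.Adj v a ∧ G.Adj v b := by
  rcases hC.at hv with ⟨p, q, h1, h2, h3, rfl⟩ | ⟨p, q, r, h1, h2, h3, h4, h5, h6, rfl⟩
  · exact ⟨p, by simp, q, by simp, h2.ne, h1, h3.symm⟩
  · exact ⟨p, by simp, r, by simp, h6, h1, h4.symm⟩

lemma Short.card_le {C : Finset V} (hC : Short G C) : C.card ≤ 4 := by
  rcases hC with ⟨a, b, c, h1, h2, h3, rfl⟩ | ⟨a, b, c, e, h1, h2, h3, h4, h5, h6, rfl⟩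
  · exact (Finset.card_le_three).trans (by norm_num)
  · exact Finset.card_le_four

lemma Short.nonempty {C : Finset V} (hC : Short G C) : C.Nonempty := by
  rcases hC with ⟨a, b, c, h1, h2, h3, rfl⟩ | ⟨a, b, c, e, h1, h2, h3, h4, h5, h6, rfl⟩ <;>
    exact ⟨a, by simp⟩

/-- in a covered set, a vertex has at most one neighbour outside -/
lemma Covered.out_uniq {S : Finset V} (hS : Covered G S) (hc : Cub G) {v a b : V} (hv : v ∈ S)
    (ha : G.Adj v a) (hb : G.Adj v b) (ha' : a ∉ S) (hb' : b ∉ S) : a = b := by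
  obtain ⟨C, hC, hvC, hCS⟩ := hS v hv
  obtain ⟨x, hx, y, hy, hxy, hvx, hvy⟩ := hC.two hvC
  by_contra hne
  have hxa : x ≠ a := fun e => ha' (e ▸ hCS hx)
  have hxb : x ≠ b := fun e => hb' (e ▸ hCS hx)
  have hya : y ≠ a := fun e => ha' (e ▸ hCS hy)
  rcases hc.mem3 hvx hvy ha hb hxy hxa hya with e | e | e
  · exact hxb e.symm
  · exact hb' (e ▸ hCS hy)
  · exact hne e.symm

lemma Covered.nbr_in {S C : Finset V} (hS : Covered G S) (hc : Cub G) (hC : Short G C) {v : V}
    (hv : v ∈ S) (hvC : v ∈ C) : ∃ a, a ∈ C ∧ a ∈ S ∧ a ≠ v := by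
  obtain ⟨x, hx, y, hy, hxy, hvx, hvy⟩ := hC.two hvC
  by_cases h1 : x ∈ S
  · exact ⟨x, hx, h1, hvx.ne.symm⟩
  by_cases h2 : y ∈ S
  · exact ⟨y, hy, h2, hvy.ne.symm⟩
  exact absurd (hS.out_uniq hc hv hvx hvy h1 h2) hxy

lemma cross {S T C : Finset V} (hc : Cub G) (hS : Covered G S) (hT : Covered G T)
    (hST : Disjoint S T) (hC : Short G C) {v w : V} (hv : v ∈ C) (hvS : v ∈ S) (hw : w ∈ C)
    (hwT : w ∈ T) {x : V} (hx : x ∈ C) : x ∈ S ∨ x ∈ T := by
  obtain ⟨a, haC, haS, hav⟩ := hS.nbr_in hc hC hvS hv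
  obtain ⟨b, hbC, hbT, hbw⟩ := hT.nbr_in hc hC hwT hw
  have hd : ∀ y z, y ∈ S → z ∈ T → y ≠ z := fun y z hy hz e =>
    Finset.disjoint_left.mp hST hy (e ▸ hz)
  have hsub : ({v, a, w, b} : Finset V) ⊆ C := by
    intro y hy
    simp only [Finset.mem_insert, Finset.mem_singleton] at hy
    rcases hy with rfl | rfl | rfl | rfl <;> assumption
  have hcard : ({v, a, w, b} : Finset V).card = 4 := by
    rw [Finset.card_insert_of_notMem, Finset.card_insert_of_notMem, Finset.card_pair hbw.symm]
    · simp only [Finset.mem_insert, Finset.mem_singleton, not_or]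
      exact ⟨hd _ _ haS hwT, hd _ _ haS hbT⟩
    · simp only [Finset.mem_insert, Finset.mem_singleton, not_or]
      exact ⟨hav.symm, hd _ _ hvS hwT, hd _ _ hvS hbT⟩
  have heq := Finset.eq_of_subset_of_card_le hsub (by rw [hcard]; exact hC.card_le)
  rw [← heq] at hx
  simp only [Finset.mem_insert, Finset.mem_singleton] at hx
  rcases hx with rfl | rfl | rfl | rfl
  · exact Or.inl hvS
  · exact Or.inl haS
  · exact Or.inr hwT
  · exact Or.inr hbT

lemma exists_parts (hc : Cub G) : ∀ (n : ℕ) (S : Finset V), S.card ≤ n → Covered G S →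
    ∃ pt : V → Finset V, ∀ v ∈ S, v ∈ pt v ∧ pt v ⊆ S ∧ Covered G (pt v) ∧ Meet G (pt v) ∧
      ∀ u ∈ pt v, pt u = pt v := by
  intro n
  induction n with
  | zero =>
    intro S hS _
    have : S = ∅ := by simpa using hS
    subst this
    exact ⟨fun _ => ∅, by simp⟩
  | succ n ih =>
    intro S hSn hS
    by_cases hM : Meet G S
    · exact ⟨fun _ => S, fun v hv => ⟨hv, subset_rfl, hS, hM, fun _ _ => rfl⟩⟩
    · unfold Meet at hM
      push Not at hM
      obtain ⟨C1, C2, hC1, hC2, h1, h2, hdis⟩ := hM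
      set T : Finset V := S.filter (fun v => ∃ C, Short G C ∧ v ∈ C ∧ C ⊆ S ∧ ∀ x ∈ C, x ∉ C2)
        with hT
      have hTm : ∀ v, v ∈ T ↔ v ∈ S ∧ ∃ C, Short G C ∧ v ∈ C ∧ C ⊆ S ∧ ∀ x ∈ C, x ∉ C2 := by
        intro v; simp [hT]
      have hTS : T ⊆ S := Finset.filter_subset _ _
      have hTc : Covered G T := by
        intro v hv
        obtain ⟨_, C, hC, hvC, hCS, hCC⟩ := (hTm v).mp hv
        exact ⟨C, hC, hvC, fun x hx => (hTm x).mpr ⟨hCS hx, C, hC, hx, hCS, hCC⟩⟩
      have hC2c : Covered G C2 := fun v hv => ⟨C2, hC2, hv, subset_rfl⟩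
      have hTC2 : Disjoint T C2 := by
        rw [Finset.disjoint_left]
        intro v hv hv2
        obtain ⟨_, C, hC, hvC, hCS, hCC⟩ := (hTm v).mp hv
        exact hCC v hvC hv2
      have hUc : Covered G (S \ T) := by
        intro v hv
        rw [Finset.mem_sdiff] at hv
        obtain ⟨C, hC, hvC, hCS⟩ := hS v hv.1
        by_cases hCT : ∃ x ∈ C, x ∈ T
        · obtain ⟨x, hx, hxT⟩ := hCT
          have hCC2 : ∃ y ∈ C, y ∈ C2 := by
            by_contra hcon
            push Not at hcon
            exact hv.2 ((hTm v).mpr ⟨hv.1, C, hC, hvC, hCS, hcon⟩)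
          obtain ⟨y, hy, hyC2⟩ := hCC2
          have hvC2 : v ∈ C2 :=
            (cross hc hTc hC2c hTC2 hC hx hxT hy hyC2 hvC).resolve_left hv.2
          refine ⟨C2, hC2, hvC2, fun z hz => ?_⟩
          rw [Finset.mem_sdiff]
          exact ⟨h2 hz, fun e => Finset.disjoint_left.mp hTC2 e hz⟩
        · push Not at hCT
          exact ⟨C, hC, hvC, fun z hz => Finset.mem_sdiff.mpr ⟨hCS hz, hCT z hz⟩⟩
      have hT1 : T.card < S.card := by
        obtain ⟨y, hy⟩ := hC2.nonempty
        exact Finset.card_lt_card ((Finset.ssubset_iff_of_subset hTS).mpr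
          ⟨y, h2 hy, fun e => Finset.disjoint_left.mp hTC2 e hy⟩)
      have hT2 : (S \ T).card < S.card := by
        obtain ⟨y, hy⟩ := hC1.nonempty
        have hyT : y ∈ T := (hTm y).mpr ⟨h1 hy, C1, hC1, hy, h1, hdis⟩
        exact Finset.card_lt_card ((Finset.ssubset_iff_of_subset Finset.sdiff_subset).mpr
          ⟨y, h1 hy, fun e => (Finset.mem_sdiff.mp e).2 hyT⟩)
      obtain ⟨p1, hp1⟩ := ih T (by omega) hTc
      obtain ⟨p2, hp2⟩ := ih (S \ T) (by omega) hUc
      refine ⟨fun v => if v ∈ T then p1 v else p2 v, fun v hv => ?_⟩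
      by_cases hvT : v ∈ T
      · obtain ⟨g1, g2, g3, g4, g5⟩ := hp1 v hvT
        simp only [if_pos hvT]
        refine ⟨g1, g2.trans hTS, g3, g4, fun u hu => ?_⟩
        rw [if_pos (g2 hu)]
        exact g5 u hu
      · obtain ⟨g1, g2, g3, g4, g5⟩ := hp2 v (Finset.mem_sdiff.mpr ⟨hv, hvT⟩)
        simp only [if_neg hvT]
        refine ⟨g1, g2.trans Finset.sdiff_subset, g3, g4, fun u hu => ?_⟩
        rw [if_neg (Finset.mem_sdiff.mp (g2 hu)).2]
        exact g5 u hu

/-- a vertex with a neighbour outside the part -/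
def Outer (G : SimpleGraph V) (P : Finset V) (v : V) : Prop := ∃ w, G.Adj v w ∧ w ∉ P

structure PData (G : SimpleGraph V) (P : Finset V) (tri bip : Prop) (z1 z2 top : V → Prop)
    (β : V → Bool) : Prop where
  excl : tri → bip → False
  t3 : tri → ∀ v ∈ P, ∃ a b, v ≠ a ∧ v ≠ b ∧ a ≠ b ∧ a ∈ P ∧ b ∈ P ∧ ∀ w ∈ P, w = v ∨ w = a ∨ w = b
  tout : tri → ∀ v ∈ P, Outer G P v
  col : ¬ tri → ∀ u ∈ P, ∀ v ∈ P, G.Adj u v → ¬ z1 u → ¬ z1 v → ¬ z2 u → ¬ z2 v → ¬ top u →
    ¬ top v → β u ≠ β v
  card4 : ¬ tri → ∀ Q : Finset V, (∀ v ∈ Q, v ∈ P ∧ Outer G P v ∧ ¬ top v) → Q.card ≤ 4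
  card2 : ¬ tri → ¬ bip → ∀ Q : Finset V, (∀ v ∈ Q, v ∈ P ∧ Outer G P v ∧ ¬ top v) → Q.card ≤ 2
  z1o : ∀ v ∈ P, z1 v → ¬ Outer G P v
  z1s : ∀ v ∈ P, z1 v → ¬ bip ∧ ¬ tri ∧ ¬ z2 v
  z1u : ∀ u ∈ P, ∀ v ∈ P, z1 u → z1 v → u = v
  z2o : ∀ v ∈ P, z2 v → ∀ u ∈ P, ¬ Outer G P u
  z2s : ∀ v ∈ P, z2 v → ¬ bip ∧ ¬ tri
  z2u : ∀ u ∈ P, ∀ v ∈ P, z2 u → z2 v → u = v
  tops : ∀ v ∈ P, top v → ¬ bip ∧ ¬ tri
  topu : ∀ u ∈ P, ∀ v ∈ P, top u → top v → u = v
  topz : ∀ u ∈ P, top u → ∀ v ∈ P, ¬ z1 v ∧ ¬ z2 v
  topab : ∀ t ∈ P, top t → ∃ a b, a ∈ P ∧ b ∈ P ∧ G.Adj a b ∧ ¬ Outer G P a ∧ ¬ Outer G P b ∧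
    ¬ top a ∧ ¬ top b ∧ ∀ w ∈ P, G.Adj t w → w = a ∨ w = b

def HasData (G : SimpleGraph V) (P : Finset V) : Prop :=
  ∃ (tri bip : Prop) (z1 z2 top : V → Prop) (β : V → Bool), PData G P tri bip z1 z2 top β

lemma card_le_two_of {Q : Finset V} {x y : V} (h : ∀ v ∈ Q, v = x ∨ v = y) : Q.card ≤ 2 := by
  have : Q ⊆ {x, y} := by
    intro v hv; simpa using h v hv
  exact (Finset.card_le_card this).trans Finset.card_le_two

lemma card_le_four_of {Q : Finset V} {x y z w : V} (h : ∀ v ∈ Q, v = x ∨ v = y ∨ v = z ∨ v = w) :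
    Q.card ≤ 4 := by
  have : Q ⊆ {x, y, z, w} := by
    intro v hv; simpa using h v hv
  exact (Finset.card_le_card this).trans Finset.card_le_four

lemma mkT (hc : Cub G) {a b c : V} (h1 : G.Adj a b) (h2 : G.Adj b c) (h3 : G.Adj c a) :
    HasData G {a, b, c} := by
  refine ⟨True, False, fun _ => False, fun _ => False, fun _ => False, fun _ => false,
    { excl := fun _ h => h
      t3 := ?_
      tout := ?_
      col := fun h => absurd trivial h
      card4 := fun h => absurd trivial h
      card2 := fun h => absurd trivial h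
      z1o := fun _ _ h => h.elim
      z1s := fun _ _ h => h.elim
      z1u := fun _ _ _ _ h => h.elim
      z2o := fun _ _ h => h.elim
      z2s := fun _ _ h => h.elim
      z2u := fun _ _ _ _ h => h.elim
      tops := fun _ _ h => h.elim
      topu := fun _ _ _ _ h => h.elim
      topz := fun _ _ h => h.elim
      topab := fun _ _ h => h.elim }⟩
  · intro _ v hv
    have n1 := h1.ne
    have n2 := h2.ne
    have n3 := h3.ne
    simp only [Finset.mem_insert, Finset.mem_singleton] at hv
    rcases hv with rfl | rfl | rfl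
    · exact ⟨b, c, n1, n3.symm, n2, by simp, by simp, by simp⟩
    · exact ⟨a, c, n1.symm, n2, n3.symm, by simp, by simp, by simp⟩
    · exact ⟨a, b, n3, n2.symm, n1, by simp, by simp, by simp⟩
  · intro _ v hv
    have key : ∀ x y z : V, G.Adj x y → G.Adj y z → G.Adj z x → ∃ w, G.Adj x w ∧ w ≠ x ∧ w ≠ y ∧
        w ≠ z := by
      intro x y z g1 g2 g3
      obtain ⟨w, hw, k1, k2, _⟩ := hc.third g1 g3.symm g2.ne
      exact ⟨w, hw, hw.ne.symm, k1.symm, k2.symm⟩
    simp only [Finset.mem_insert, Finset.mem_singleton] at hv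
    rcases hv with rfl | rfl | rfl
    · obtain ⟨w, hw, k1, k2, k3⟩ := key _ _ _ h1 h2 h3
      exact ⟨w, hw, by simp [k1, k2, k3]⟩
    · obtain ⟨w, hw, k1, k2, k3⟩ := key _ _ _ h2 h3 h1
      exact ⟨w, hw, by simp [k1, k2, k3]⟩
    · obtain ⟨w, hw, k1, k2, k3⟩ := key _ _ _ h3 h1 h2
      exact ⟨w, hw, by simp [k1, k2, k3]⟩

lemma mkB {P : Finset V} (β : V → Bool) (hβ : ∀ u ∈ P, ∀ v ∈ P, G.Adj u v → β u ≠ β v)
    (x y z w : V) (ho : ∀ v ∈ P, Outer G P v → v = x ∨ v = y ∨ v = z ∨ v = w) :
    HasData G P := by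
  exact ⟨False, True, fun _ => False, fun _ => False, fun _ => False, β,
    { excl := fun h _ => h
      t3 := fun h => h.elim
      tout := fun h => h.elim
      col := fun _ u hu v hv ha _ _ _ _ _ _ => hβ u hu v hv ha
      card4 := fun _ Q hQ => card_le_four_of (fun v hv => ho v (hQ v hv).1 (hQ v hv).2.1)
      card2 := fun _ h => absurd trivial h
      z1o := fun _ _ h => h.elim
      z1s := fun _ _ h => h.elim
      z1u := fun _ _ _ _ h => h.elim
      z2o := fun _ _ h => h.elim
      z2s := fun _ _ h => h.elim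
      z2u := fun _ _ _ _ h => h.elim
      tops := fun _ _ h => h.elim
      topu := fun _ _ _ _ h => h.elim
      topz := fun _ _ h => h.elim
      topab := fun _ _ h => h.elim }⟩

lemma mkZ {P : Finset V} {z : V} (hz : ¬ Outer G P z) (β : V → Bool)
    (hβ : ∀ u ∈ P, ∀ v ∈ P, G.Adj u v → u ≠ z → v ≠ z → β u ≠ β v)
    (x y : V) (ho : ∀ v ∈ P, Outer G P v → v = x ∨ v = y) :
    HasData G P := by
  have h2 : ∀ Q : Finset V, (∀ v ∈ Q, v ∈ P ∧ Outer G P v ∧ ¬ False) → Q.card ≤ 2 :=
    fun Q hQ => card_le_two_of (fun v hv => ho v (hQ v hv).1 (hQ v hv).2.1)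
  exact ⟨False, False, fun v => v = z, fun _ => False, fun _ => False, β,
    { excl := fun h _ => h
      t3 := fun h => h.elim
      tout := fun h => h.elim
      col := fun _ u hu v hv ha h1 h2 _ _ _ _ => hβ u hu v hv ha h1 h2
      card4 := fun _ Q hQ => (h2 Q hQ).trans (by norm_num)
      card2 := fun _ _ Q hQ => h2 Q hQ
      z1o := fun v _ hv => by rw [hv]; exact hz
      z1s := fun _ _ _ => ⟨not_false, not_false, not_false⟩
      z1u := fun u _ v _ hu hv => by rw [hu, hv]
      z2o := fun _ _ h => h.elim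
      z2s := fun _ _ h => h.elim
      z2u := fun _ _ _ _ h => h.elim
      tops := fun _ _ h => h.elim
      topu := fun _ _ _ _ h => h.elim
      topz := fun _ _ h => h.elim
      topab := fun _ _ h => h.elim }⟩

lemma mkH {P : Finset V} {t a b : V} (haP : a ∈ P) (hbP : b ∈ P)
    (hab : G.Adj a b) (hat : a ≠ t) (hbt : b ≠ t) (ha : ¬ Outer G P a) (hb : ¬ Outer G P b)
    (hn : ∀ w ∈ P, G.Adj t w → w = a ∨ w = b) (β : V → Bool)
    (hβ : ∀ u ∈ P, ∀ v ∈ P, G.Adj u v → u ≠ t → v ≠ t → β u ≠ β v)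
    (x y : V) (ho : ∀ v ∈ P, Outer G P v → v ≠ t → v = x ∨ v = y) :
    HasData G P := by
  have h2 : ∀ Q : Finset V, (∀ v ∈ Q, v ∈ P ∧ Outer G P v ∧ ¬ v = t) → Q.card ≤ 2 :=
    fun Q hQ => card_le_two_of (fun v hv => ho v (hQ v hv).1 (hQ v hv).2.1 (hQ v hv).2.2)
  exact ⟨False, False, fun _ => False, fun _ => False, fun v => v = t, β,
    { excl := fun h _ => h
      t3 := fun h => h.elim
      tout := fun h => h.elim
      col := fun _ u hu v hv ha _ _ _ _ h1 h2 => hβ u hu v hv ha h1 h2
      card4 := fun _ Q hQ => (h2 Q hQ).trans (by norm_num)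
      card2 := fun _ _ Q hQ => h2 Q hQ
      z1o := fun _ _ h => h.elim
      z1s := fun _ _ h => h.elim
      z1u := fun _ _ _ _ h => h.elim
      z2o := fun _ _ h => h.elim
      z2s := fun _ _ h => h.elim
      z2u := fun _ _ _ _ h => h.elim
      tops := fun _ _ _ => ⟨not_false, not_false⟩
      topu := fun u _ v _ hu hv => by rw [hu, hv]
      topz := fun _ _ _ _ _ => ⟨not_false, not_false⟩
      topab := fun s _ hs => by
        rw [hs]; exact ⟨a, b, haP, hbP, hab, ha, hb, hat, hbt, hn⟩ }⟩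

lemma mkK {P : Finset V} (hP : ∀ u ∈ P, ¬ Outer G P u) (p q r s : V) (hpq : p ≠ q)
    (hm : ∀ v ∈ P, v = p ∨ v = q ∨ v = r ∨ v = s) (hrs : r ≠ s) :
    HasData G P := by
  have h0 : ∀ Q : Finset V, (∀ v ∈ Q, v ∈ P ∧ Outer G P v ∧ ¬ False) → Q.card = 0 := by
    intro Q hQ
    have : Q = ∅ := by
      rw [Finset.eq_empty_iff_forall_notMem]
      intro v hv
      exact hP v (hQ v hv).1 (hQ v hv).2.1
    rw [this]; simp
  refine ⟨False, False, fun v => v = p, fun v => v = q, fun _ => False, fun v => decide (v = r),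
    { excl := fun h _ => h
      t3 := fun h => h.elim
      tout := fun h => h.elim
      col := ?_
      card4 := fun _ Q hQ => by rw [h0 Q hQ]; norm_num
      card2 := fun _ _ Q hQ => by rw [h0 Q hQ]; norm_num
      z1o := fun v hv _ => hP v hv
      z1s := fun v _ hv => ⟨not_false, not_false, fun h => hpq (hv.symm.trans h)⟩
      z1u := fun u _ v _ hu hv => by rw [hu, hv]
      z2o := fun _ _ _ u hu => hP u hu
      z2s := fun _ _ _ => ⟨not_false, not_false⟩
      z2u := fun u _ v _ hu hv => by rw [hu, hv]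
      tops := fun _ _ h => h.elim
      topu := fun _ _ _ _ h => h.elim
      topz := fun _ _ h => h.elim
      topab := fun _ _ h => h.elim }⟩
  intro _ u hu v hv ha h1 h2 h3 h4 _ _
  have hne := ha.ne
  have k : ∀ w ∈ P, ¬ w = p → ¬ w = q → w = r ∨ w = s := fun w hw g1 g2 => by
    rcases hm w hw with e | e | e | e
    · exact absurd e g1
    · exact absurd e g2
    · exact Or.inl e
    · exact Or.inr e
  rcases k u hu h1 h3 with e | e <;> rcases k v hv h2 h4 with e' | e'
  · exact absurd (e.trans e'.symm) hne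
  · simp [e, e', hrs.symm]
  · simp [e, e', hrs.symm]
  · exact absurd (e.trans e'.symm) hne

/-- a part closed under taking neighbours inside contains only reachable short cycles -/
lemma Short.sub_closed {D : Finset V} (hD : Short G D) {K : Finset V}
    (hK : ∀ x ∈ K, ∀ y, G.Adj x y → y ∈ K) {w : V} (hw : w ∈ D) (hwK : w ∈ K) {v : V}
    (hv : v ∈ D) : v ∈ K := by
  rcases hD.at hw with ⟨p, q, h1, h2, h3, rfl⟩ | ⟨p, q, r, h1, h2, h3, h4, h5, h6, rfl⟩
  · simp only [Finset.mem_insert, Finset.mem_singleton] at hv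
    have hp := hK w hwK p h1
    have hq := hK p hp q h2
    rcases hv with rfl | rfl | rfl <;> assumption
  · simp only [Finset.mem_insert, Finset.mem_singleton] at hv
    have hp := hK w hwK p h1
    have hq := hK p hp q h2
    have hr := hK q hq r h3
    rcases hv with rfl | rfl | rfl | rfl <;> assumption

lemma not_outer_of {P : Finset V} (hc : Cub G) {v a b c : V} (ha : G.Adj v a) (hb : G.Adj v b)
    (hcc : G.Adj v c) (h1 : a ≠ b) (h2 : a ≠ c) (h3 : b ≠ c) (ka : a ∈ P) (kb : b ∈ P)
    (kc : c ∈ P) : ¬ Outer G P v := by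
  rintro ⟨w, hw, hwP⟩
  rcases hc.mem3 ha hb hcc hw h1 h2 h3 with e | e | e <;> exact hwP (e ▸ (by assumption))

lemma diamond (hc : Cub G) {P : Finset V} (hP : Covered G P) (hM : Meet G P) {p q r s : V}
    (hp : p ∈ P) (hq : q ∈ P) (hr : r ∈ P) (hs : s ∈ P) (hqr : G.Adj q r) (hqp : G.Adj q p)
    (hqs : G.Adj q s) (hrp : G.Adj r p) (hrs : G.Adj r s) (hps : p ≠ s) : HasData G P := by
  have Nq : ∀ w, G.Adj q w → w = r ∨ w = p ∨ w = s := fun w hw =>
    hc.mem3 hqr hqp hqs hw hrp.ne hrs.ne hps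
  have Nr : ∀ w, G.Adj r w → w = q ∨ w = p ∨ w = s := fun w hw =>
    hc.mem3 hqr.symm hrp hrs hw hqp.ne hqs.ne hps
  have s1 : Short G {p, q, r} := Or.inl ⟨p, q, r, hqp.symm, hqr, hrp, rfl⟩
  have s2 : Short G {q, r, s} := Or.inl ⟨q, r, s, hqr, hrs, hqs.symm, rfl⟩
  have s1P : ({p, q, r} : Finset V) ⊆ P := by
    intro x hx; simp only [Finset.mem_insert, Finset.mem_singleton] at hx
    rcases hx with rfl | rfl | rfl <;> assumption
  have s2P : ({q, r, s} : Finset V) ⊆ P := by
    intro x hx; simp only [Finset.mem_insert, Finset.mem_singleton] at hx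
    rcases hx with rfl | rfl | rfl <;> assumption
  have oq : ¬ Outer G P q := not_outer_of hc hqr hqp hqs hrp.ne hrs.ne hps hr hp hs
  have or' : ¬ Outer G P r := not_outer_of hc hqr.symm hrp hrs hqp.ne hqs.ne hps hq hp hs
  by_cases hadj : G.Adj p s
  · have Np : ∀ w, G.Adj p w → w = q ∨ w = r ∨ w = s := fun w hw =>
      hc.mem3 hqp.symm hrp.symm hadj hw hqr.ne hqs.ne hrs.ne
    have Ns : ∀ w, G.Adj s w → w = q ∨ w = r ∨ w = p := fun w hw =>
      hc.mem3 hqs.symm hrs.symm hadj.symm hw hqr.ne hqp.ne hrp.ne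
    have hK : ∀ x ∈ ({p, q, r, s} : Finset V), ∀ y, G.Adj x y → y ∈ ({p, q, r, s} : Finset V) := by
      intro x hx y hy
      simp only [Finset.mem_insert, Finset.mem_singleton] at hx ⊢
      rcases hx with rfl | rfl | rfl | rfl
      · have := Np y hy; tauto
      · have := Nq y hy; tauto
      · have := Nr y hy; tauto
      · have := Ns y hy; tauto
    have hsub : ({p, q, r, s} : Finset V) ⊆ P := by
      intro x hx; simp only [Finset.mem_insert, Finset.mem_singleton] at hx
      rcases hx with rfl | rfl | rfl | rfl <;> assumption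
    have hall : ∀ v ∈ P, v ∈ ({p, q, r, s} : Finset V) := by
      intro v hv
      obtain ⟨D, hD, hvD, hDP⟩ := hP v hv
      obtain ⟨w, hw1, hw2⟩ := hM _ _ s1 hD s1P hDP
      refine hD.sub_closed hK hw2 ?_ hvD
      simp only [Finset.mem_insert, Finset.mem_singleton] at hw1 ⊢
      tauto
    refine mkK (p := p) (q := q) (r := r) (s := s) ?_ hqp.ne.symm ?_ hrs.ne
    · rintro u hu ⟨w, hw, hwP⟩
      exact hwP (hsub (hK u (hall u hu) w hw))
    · intro v hv; simpa using hall v hv
  · -- no edge p s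
    have claim : ∀ v ∈ P, v ≠ p → v ≠ q → v ≠ r → v ≠ s → G.Adj v p ∧ G.Adj v s := by
      intro v hv n1 n2 n3 n4
      have nq : ¬ G.Adj v q := fun h => by
        rcases Nq v h.symm with e | e | e
        · exact n3 e
        · exact n1 e
        · exact n4 e
      have nr : ¬ G.Adj v r := fun h => by
        rcases Nr v h.symm with e | e | e
        · exact n2 e
        · exact n1 e
        · exact n4 e
      obtain ⟨D, hD, hvD, hDP⟩ := hP v hv
      obtain ⟨w, hw1, hw2⟩ := hM _ _ s1 hD s1P hDP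
      obtain ⟨w', hw1', hw2'⟩ := hM _ _ s2 hD s2P hDP
      simp only [Finset.mem_insert, Finset.mem_singleton] at hw1 hw1'
      rcases hD.at hvD with ⟨a, b, h1, h2, h3, rfl⟩ | ⟨a, b, c, h1, h2, h3, h4, h5, h6, rfl⟩
      · simp only [Finset.mem_insert, Finset.mem_singleton] at hw2 hw2'
        have e1 : w = p := by
          rcases hw1 with e | e | e
          · exact e
          · subst e; rcases hw2 with e | e | e
            · exact absurd e.symm n2
            · exact absurd (e ▸ h1) nq
            · exact absurd (e ▸ h3.symm) nq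
          · subst e; rcases hw2 with e | e | e
            · exact absurd e.symm n3
            · exact absurd (e ▸ h1) nr
            · exact absurd (e ▸ h3.symm) nr
        have e2 : w' = s := by
          rcases hw1' with e | e | e
          · subst e; rcases hw2' with e | e | e
            · exact absurd e.symm n2
            · exact absurd (e ▸ h1) nq
            · exact absurd (e ▸ h3.symm) nq
          · subst e; rcases hw2' with e | e | e
            · exact absurd e.symm n3
            · exact absurd (e ▸ h1) nr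
            · exact absurd (e ▸ h3.symm) nr
          · exact e
        subst e1 e2
        rcases hw2 with e | e | e
        · exact absurd e.symm n1
        · rcases hw2' with e' | e' | e'
          · exact absurd e'.symm n4
          · exact absurd (e.trans e'.symm) hps
          · subst e e'; exact absurd h2 hadj
        · rcases hw2' with e' | e' | e'
          · exact absurd e'.symm n4
          · subst e e'; exact absurd h2.symm hadj
          · exact absurd (e.trans e'.symm) hps
      · simp only [Finset.mem_insert, Finset.mem_singleton] at hw2 hw2'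
        have aq : a ≠ q := fun e => nq (e ▸ h1)
        have ar : a ≠ r := fun e => nr (e ▸ h1)
        have cq : c ≠ q := fun e => nq (e ▸ h4.symm)
        have cr : c ≠ r := fun e => nr (e ▸ h4.symm)
        by_cases hb : b = q ∨ b = r
        · have ka : a = p ∨ a = s := by
            rcases hb with rfl | rfl
            · rcases Nq a h2.symm with e | e | e
              · exact absurd e ar
              · exact Or.inl e
              · exact Or.inr e
            · rcases Nr a h2.symm with e | e | e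
              · exact absurd e aq
              · exact Or.inl e
              · exact Or.inr e
          have kc : c = p ∨ c = s := by
            rcases hb with rfl | rfl
            · rcases Nq c h3 with e | e | e
              · exact absurd e cr
              · exact Or.inl e
              · exact Or.inr e
            · rcases Nr c h3 with e | e | e
              · exact absurd e cq
              · exact Or.inl e
              · exact Or.inr e
          rcases ka with rfl | rfl <;> rcases kc with rfl | rfl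
          · exact absurd rfl h6
          · exact ⟨h1, h4.symm⟩
          · exact ⟨h4.symm, h1⟩
          · exact absurd rfl h6
        · push Not at hb
          have e1 : w = p := by
            rcases hw1 with e | e | e
            · exact e
            · subst e; exfalso
              rcases hw2 with e | e | e | e
              · exact n2 e.symm
              · exact aq e.symm
              · exact hb.1 e.symm
              · exact cq e.symm
            · subst e; exfalso
              rcases hw2 with e | e | e | e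
              · exact n3 e.symm
              · exact ar e.symm
              · exact hb.2 e.symm
              · exact cr e.symm
          have e2 : w' = s := by
            rcases hw1' with e | e | e
            · subst e; exfalso
              rcases hw2' with e | e | e | e
              · exact n2 e.symm
              · exact aq e.symm
              · exact hb.1 e.symm
              · exact cq e.symm
            · subst e; exfalso
              rcases hw2' with e | e | e | e
              · exact n3 e.symm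
              · exact ar e.symm
              · exact hb.2 e.symm
              · exact cr e.symm
            · exact e
          subst e1 e2
          rcases hw2 with e | e | e | e
          · exact absurd e.symm n1
          · subst e
            rcases hw2' with e | e | e | e
            · exact absurd e.symm n4
            · exact absurd e.symm hps
            · subst e; exact absurd h2 hadj
            · subst e; exact ⟨h1, h4.symm⟩
          · subst e
            rcases hw2' with e | e | e | e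
            · exact absurd e.symm n4
            · subst e; exact absurd h2.symm hadj
            · exact absurd e.symm hps
            · subst e; exact absurd h3 hadj
          · subst e
            rcases hw2' with e | e | e | e
            · exact absurd e.symm n4
            · subst e; exact ⟨h4.symm, h1⟩
            · subst e; exact absurd h3.symm hadj
            · exact absurd e.symm hps
    have col : ∀ u ∈ P, ∀ v ∈ P, G.Adj u v → u ≠ q → v ≠ q →
        decide (u = p ∨ u = s) ≠ decide (v = p ∨ v = s) := by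
      intro u hu v hv ha h1 h2 he
      rw [decide_eq_decide] at he
      by_cases k : u = p ∨ u = s
      · have k' := he.mp k
        rcases k with rfl | rfl <;> rcases k' with rfl | rfl
        · exact ha.ne rfl
        · exact hadj ha
        · exact hadj ha.symm
        · exact ha.ne rfl
      · have k' : ¬ (v = p ∨ v = s) := fun e => k (he.mpr e)
        push Not at k k'
        by_cases ur : u = r
        · subst ur
          rcases Nr v ha with e | e | e
          · exact h2 e
          · exact k'.1 e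
          · exact k'.2 e
        by_cases vr : v = r
        · subst vr
          rcases Nr u ha.symm with e | e | e
          · exact h1 e
          · exact k.1 e
          · exact k.2 e
        have g1 := (claim u hu k.1 h1 ur k.2).1
        have g2 := (claim v hv k'.1 h2 vr k'.2).1
        rcases hc.mem3 hqp.symm hrp.symm g1.symm g2.symm hqr.ne h1.symm (Ne.symm ur) with e | e | e
        · exact h2 e
        · exact vr e
        · exact ha.ne e.symm
    by_cases hex : ∃ v ∈ P, v ≠ p ∧ v ≠ q ∧ v ≠ r ∧ v ≠ s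
    · obtain ⟨v, hv, n1, n2, n3, n4⟩ := hex
      obtain ⟨g1, g2⟩ := claim v hv n1 n2 n3 n4
      have op : ¬ Outer G P p := not_outer_of hc hqp.symm hrp.symm g1.symm hqr.ne n2.symm n3.symm
        hq hr hv
      have os : ¬ Outer G P s := not_outer_of hc hqs.symm hrs.symm g2.symm hqr.ne n2.symm n3.symm
        hq hr hv
      refine mkZ oq _ col v v ?_
      intro u hu hou
      left
      have u1 : u ≠ p := fun e => op (e ▸ hou)
      have u2 : u ≠ q := fun e => oq (e ▸ hou)
      have u3 : u ≠ r := fun e => or' (e ▸ hou)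
      have u4 : u ≠ s := fun e => os (e ▸ hou)
      have g3 := (claim u hu u1 u2 u3 u4).1
      rcases hc.mem3 hqp.symm hrp.symm g1.symm g3.symm hqr.ne n2.symm n3.symm with e | e | e
      · exact absurd e u2
      · exact absurd e u3
      · exact e
    · push Not at hex
      refine mkZ oq _ col p s ?_
      intro u hu hou
      have u2 : u ≠ q := fun e => oq (e ▸ hou)
      have u3 : u ≠ r := fun e => or' (e ▸ hou)
      by_cases u1 : u = p
      · exact Or.inl u1
      · exact Or.inr (hex u hu u1 u2 u3)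

/-- prism minus an edge -/
lemma prism (hc : Cub G) {P : Finset V} {t x y v w u : V}
    (ht : t ∈ P) (hx : x ∈ P) (hy : y ∈ P) (hv : v ∈ P) (hw : w ∈ P) (hu : u ∈ P)
    (htx : G.Adj t x) (hty : G.Adj t y) (hxy : G.Adj x y) (hvx : G.Adj v x) (hwy : G.Adj w y)
    (hvw : G.Adj v w) (hut : G.Adj u t) (huv : G.Adj u v) (huw : ¬ G.Adj u w)
    (nv : v ≠ t ∧ v ≠ y) (nw : w ≠ t ∧ w ≠ x) (nu : u ≠ x ∧ u ≠ y ∧ u ≠ w)
    (hall : ∀ s ∈ P, s = t ∨ s = x ∨ s = y ∨ s = v ∨ s = w ∨ s = u) : HasData G P := by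
  have Nx : ∀ s, G.Adj x s → s = t ∨ s = y ∨ s = v := fun s hs =>
    hc.mem3 htx.symm hxy hvx.symm hs hty.ne nv.1.symm nv.2.symm
  have Ny : ∀ s, G.Adj y s → s = t ∨ s = x ∨ s = w := fun s hs =>
    hc.mem3 hty.symm hxy.symm hwy.symm hs htx.ne nw.1.symm nw.2.symm
  have Nv : ∀ s, G.Adj v s → s = x ∨ s = w ∨ s = u := fun s hs =>
    hc.mem3 hvx hvw huv.symm hs nw.2.symm nu.1.symm nu.2.2.symm
  have ot : ¬ Outer G P t := not_outer_of hc htx hty hut.symm hxy.ne nu.1.symm nu.2.1.symm hx hy hu
  have ox : ¬ Outer G P x := not_outer_of hc htx.symm hxy hvx.symm hty.ne nv.1.symm nv.2.symm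
    ht hy hv
  have oy : ¬ Outer G P y := not_outer_of hc hty.symm hxy.symm hwy.symm htx.ne nw.1.symm nw.2.symm
    ht hx hw
  have ov : ¬ Outer G P v := not_outer_of hc hvx hvw huv.symm nw.2.symm nu.1.symm nu.2.2.symm
    hx hw hu
  refine mkZ ot (fun s => decide (s = y ∨ s = v)) ?_ u w ?_
  · intro a ha b hb hab n1 n2 he
    rw [decide_eq_decide] at he
    have hab' := hab.ne
    have key : ∀ a b, G.Adj a b → a ≠ t → b ≠ t → (a = y ∨ a = v) → (b = y ∨ b = v) → False := by
      intro a b hab n1 n2 h1 h2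
      rcases h1 with rfl | rfl <;> rcases h2 with rfl | rfl
      · exact hab.ne rfl
      · rcases Ny _ hab with e | e | e
        · exact nv.1 e
        · exact hvx.ne e
        · exact hvw.ne e
      · rcases Ny _ hab.symm with e | e | e
        · exact nv.1 e
        · exact hvx.ne e
        · exact hvw.ne e
      · exact hab.ne rfl
    by_cases k : a = y ∨ a = v
    · exact key a b hab n1 n2 k (he.mp k)
    · have k' : ¬ (b = y ∨ b = v) := fun e => k (he.mpr e)
      push Not at k k'
      have ka : a = x ∨ a = w ∨ a = u := by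
        rcases hall a ha with e | e | e | e | e | e
        · exact absurd e n1
        · exact Or.inl e
        · exact absurd e k.1
        · exact absurd e k.2
        · exact Or.inr (Or.inl e)
        · exact Or.inr (Or.inr e)
      have kb : b = x ∨ b = w ∨ b = u := by
        rcases hall b hb with e | e | e | e | e | e
        · exact absurd e n2
        · exact Or.inl e
        · exact absurd e k'.1
        · exact absurd e k'.2
        · exact Or.inr (Or.inl e)
        · exact Or.inr (Or.inr e)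
      have hxa : ∀ s, G.Adj x s → s ≠ t → s ≠ y → s ≠ v → False := by
        intro s hs g1 g2 g3
        rcases Nx s hs with e | e | e
        · exact g1 e
        · exact g2 e
        · exact g3 e
      rcases ka with rfl | rfl | rfl
      · exact hxa b hab n2 k'.1 k'.2
      · rcases kb with rfl | rfl | rfl
        · exact hxa a hab.symm n1 k.1 k.2
        · exact hab' rfl
        · exact huw hab.symm
      · rcases kb with rfl | rfl | rfl
        · exact hxa a hab.symm n1 k.1 k.2
        · exact huw hab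
        · exact hab' rfl
  · intro s hs hso
    rcases hall s hs with rfl | rfl | rfl | rfl | rfl | rfl
    · exact absurd hso ot
    · exact absurd hso ox
    · exact absurd hso oy
    · exact absurd hso ov
    · exact Or.inr rfl
    · exact Or.inl rfl

lemma house (hc : Cub G) {P : Finset V} (hP : Covered G P) (hM : Meet G P) {t x y v w : V}
    (ht : t ∈ P) (hx : x ∈ P) (hy : y ∈ P) (hv : v ∈ P) (hw : w ∈ P)
    (htx : G.Adj t x) (hty : G.Adj t y) (hxy : G.Adj x y) (hvx : G.Adj v x) (hwy : G.Adj w y)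
    (hvw : G.Adj v w) (nv : v ≠ t ∧ v ≠ y) (nw : w ≠ t ∧ w ≠ x)
    (hvt : ¬ G.Adj v t) (hwt : ¬ G.Adj w t) : HasData G P := by
  have Nx : ∀ s, G.Adj x s → s = t ∨ s = y ∨ s = v := fun s hs =>
    hc.mem3 htx.symm hxy hvx.symm hs hty.ne nv.1.symm nv.2.symm
  have Ny : ∀ s, G.Adj y s → s = t ∨ s = x ∨ s = w := fun s hs =>
    hc.mem3 hty.symm hxy.symm hwy.symm hs htx.ne nw.1.symm nw.2.symm
  have ox : ¬ Outer G P x := not_outer_of hc htx.symm hxy hvx.symm hty.ne nv.1.symm nv.2.symm
    ht hy hv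
  have oy : ¬ Outer G P y := not_outer_of hc hty.symm hxy.symm hwy.symm htx.ne nw.1.symm nw.2.symm
    ht hx hw
  have s1 : Short G {t, x, y} := Or.inl ⟨t, x, y, htx, hxy, hty.symm, rfl⟩
  have s1P : ({t, x, y} : Finset V) ⊆ P := by
    intro z hz; simp only [Finset.mem_insert, Finset.mem_singleton] at hz
    rcases hz with rfl | rfl | rfl <;> assumption
  have claim : ∀ u ∈ P, u ≠ t → u ≠ x → u ≠ y → u ≠ v → u ≠ w →
      G.Adj u t ∧ (G.Adj u v ∨ G.Adj u w) := by
    intro u hu n1 n2 n3 n4 n5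
    have nx : ¬ G.Adj u x := fun h => by
      rcases Nx u h.symm with e | e | e
      · exact n1 e
      · exact n3 e
      · exact n4 e
    have ny : ¬ G.Adj u y := fun h => by
      rcases Ny u h.symm with e | e | e
      · exact n1 e
      · exact n2 e
      · exact n5 e
    obtain ⟨D, hD, huD, hDP⟩ := hP u hu
    obtain ⟨z, hz1, hz2⟩ := hM _ _ s1 hD s1P hDP
    simp only [Finset.mem_insert, Finset.mem_singleton] at hz1
    rcases hD.at huD with ⟨a, b, h1, h2, h3, rfl⟩ | ⟨a, b, c, h1, h2, h3, h4, h5, h6, rfl⟩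
    · exfalso
      simp only [Finset.mem_insert, Finset.mem_singleton] at hz2
      have key : ∀ a b, G.Adj u a → G.Adj a b → G.Adj b u → z = a → False := by
        intro a b h1 h2 h3 e
        subst e
        rcases hz1 with rfl | rfl | rfl
        · rcases hc.mem3 htx hty h1.symm h2 hxy.ne n2.symm n3.symm with e | e | e
          · exact nx (e ▸ h3.symm)
          · exact ny (e ▸ h3.symm)
          · exact h3.ne e
        · exact nx h1
        · exact ny h1
      rcases hz2 with e | e | e
      · subst e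
        rcases hz1 with e | e | e
        · exact n1 e
        · exact n2 e
        · exact n3 e
      · exact key a b h1 h2 h3 e
      · exact key b a h3.symm h2.symm h1.symm e
    · simp only [Finset.mem_insert, Finset.mem_singleton] at hz2
      have ax : a ≠ x := fun e => nx (e ▸ h1)
      have ay : a ≠ y := fun e => ny (e ▸ h1)
      have cx : c ≠ x := fun e => nx (e ▸ h4.symm)
      have cy : c ≠ y := fun e => ny (e ▸ h4.symm)
      have key : ∀ a b, G.Adj u a → G.Adj a b → b ≠ u → z = a → b ≠ x → b ≠ y → False := by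
        intro a b h1 h2 h3 e k1 k2
        subst e
        rcases hz1 with rfl | rfl | rfl
        · rcases hc.mem3 htx hty h1.symm h2 hxy.ne n2.symm n3.symm with e | e | e
          · exact k1 e
          · exact k2 e
          · exact h3 e
        · exact nx h1
        · exact ny h1
      by_cases bx : b = x
      · subst bx
        have ka : a = t ∨ a = v := by
          rcases Nx a h2.symm with e | e | e
          · exact Or.inl e
          · exact absurd e ay
          · exact Or.inr e
        have kc : c = t ∨ c = v := by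
          rcases Nx c h3 with e | e | e
          · exact Or.inl e
          · exact absurd e cy
          · exact Or.inr e
        rcases ka with rfl | rfl <;> rcases kc with rfl | rfl
        · exact absurd rfl h6
        · exact ⟨h1, Or.inl h4.symm⟩
        · exact ⟨h4.symm, Or.inl h1⟩
        · exact absurd rfl h6
      by_cases by' : b = y
      · subst by'
        have ka : a = t ∨ a = w := by
          rcases Ny a h2.symm with e | e | e
          · exact Or.inl e
          · exact absurd e ax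
          · exact Or.inr e
        have kc : c = t ∨ c = w := by
          rcases Ny c h3 with e | e | e
          · exact Or.inl e
          · exact absurd e cx
          · exact Or.inr e
        rcases ka with rfl | rfl <;> rcases kc with rfl | rfl
        · exact absurd rfl h6
        · exact ⟨h1, Or.inr h4.symm⟩
        · exact ⟨h4.symm, Or.inr h1⟩
        · exact absurd rfl h6
      exfalso
      rcases hz2 with e | e | e | e
      · subst e
        rcases hz1 with e | e | e
        · exact n1 e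
        · exact n2 e
        · exact n3 e
      · exact key a b h1 h2 h5.symm e bx by'
      · subst e
        rcases hz1 with e | e | e
        · subst e
          -- z = t is opposite to u
          rcases hc.mem3 htx hty h2.symm h3 hxy.ne ax.symm ay.symm with e | e | e
          · exact cx e
          · exact cy e
          · exact h6 e.symm
        · exact bx e
        · exact by' e
      · exact key c b h4.symm h3.symm h5.symm e bx by'
  by_cases hex : ∃ u ∈ P, u ≠ t ∧ u ≠ x ∧ u ≠ y ∧ u ≠ v ∧ u ≠ w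
  · obtain ⟨u, hu, n1, n2, n3, n4, n5⟩ := hex
    obtain ⟨g1, g2⟩ := claim u hu n1 n2 n3 n4 n5
    have hall : ∀ s ∈ P, s = t ∨ s = x ∨ s = y ∨ s = v ∨ s = w ∨ s = u := by
      intro s hs
      by_contra hcon
      push Not at hcon
      obtain ⟨c1, c2, c3, c4, c5, c6⟩ := hcon
      have g3 := (claim s hs c1 c2 c3 c4 c5).1
      rcases hc.mem3 htx hty g1.symm g3.symm hxy.ne n2.symm n3.symm with e | e | e
      · exact c2 e
      · exact c3 e
      · exact c6 e
    have hnb : ¬ (G.Adj u v ∧ G.Adj u w) := by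
      rintro ⟨k1, k2⟩
      have s2 : Short G {u, v, w} := Or.inl ⟨u, v, w, k1, hvw, k2.symm, rfl⟩
      have s2P : ({u, v, w} : Finset V) ⊆ P := by
        intro z hz; simp only [Finset.mem_insert, Finset.mem_singleton] at hz
        rcases hz with rfl | rfl | rfl <;> assumption
      obtain ⟨z, hz1, hz2⟩ := hM _ _ s1 s2 s1P s2P
      simp only [Finset.mem_insert, Finset.mem_singleton] at hz1 hz2
      have m1 := hvx.ne
      have m2 := hwy.ne
      rcases hz1 with rfl | rfl | rfl <;> rcases hz2 with e | e | e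
      · exact n1 e.symm
      · exact nv.1 e.symm
      · exact nw.1 e.symm
      · exact n2 e.symm
      · exact m1 e.symm
      · exact nw.2 e.symm
      · exact n3 e.symm
      · exact nv.2 e.symm
      · exact m2 e.symm
    rcases g2 with g2 | g2
    · exact prism hc ht hx hy hv hw hu htx hty hxy hvx hwy hvw g1 g2 (fun e => hnb ⟨g2, e⟩) nv nw
        ⟨n2, n3, n5⟩ hall
    · refine prism hc ht hy hx hw hv hu hty htx hxy.symm hwy hvx hvw.symm g1 g2
        (fun e => hnb ⟨e, g2⟩) nw nv ⟨n3, n2, n4⟩ ?_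
      intro s hs
      have := hall s hs
      tauto
  · push Not at hex
    refine mkH hx hy hxy htx.ne.symm hty.ne.symm ox oy ?_ (fun s => decide (s = y ∨ s = v)) ?_
      v w ?_
    · intro s hs hts
      by_contra hcon
      push Not at hcon
      by_cases e1 : s = v
      · exact hvt (e1 ▸ hts.symm)
      · have := hex s hs hts.ne.symm hcon.1 hcon.2 e1
        exact hwt (this ▸ hts.symm)
    · intro a ha b hb hab n1 n2 he
      rw [decide_eq_decide] at he
      have hyv : ¬ G.Adj y v := fun h => by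
        rcases Ny _ h with e | e | e
        · exact nv.1 e
        · exact hvx.ne e
        · exact hvw.ne e
      have hxw : ¬ G.Adj x w := fun h => by
        rcases Nx _ h with e | e | e
        · exact nw.1 e
        · exact hwy.ne e
        · exact hvw.ne e.symm
      by_cases k : a = y ∨ a = v
      · have k' := he.mp k
        rcases k with rfl | rfl <;> rcases k' with rfl | rfl
        · exact hab.ne rfl
        · exact hyv hab
        · exact hyv hab.symm
        · exact hab.ne rfl
      · have k' : ¬ (b = y ∨ b = v) := fun e => k (he.mpr e)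
        push Not at k k'
        have ka : a = x ∨ a = w := by
          by_cases e1 : a = x
          · exact Or.inl e1
          · exact Or.inr (hex a ha n1 e1 k.1 k.2)
        have kb : b = x ∨ b = w := by
          by_cases e1 : b = x
          · exact Or.inl e1
          · exact Or.inr (hex b hb n2 e1 k'.1 k'.2)
        rcases ka with rfl | rfl <;> rcases kb with rfl | rfl
        · exact hab.ne rfl
        · exact hxw hab
        · exact hxw hab.symm
        · exact hab.ne rfl
    · intro s hs hso n1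
      have n2 : s ≠ x := fun e => ox (e ▸ hso)
      have n3 : s ≠ y := fun e => oy (e ▸ hso)
      by_cases e1 : s = v
      · exact Or.inl e1
      · exact Or.inr (hex s hs n1 n2 n3 e1)

/-- a part containing a triangle -/
lemma withTri (hc : Cub G) {P : Finset V} (hP : Covered G P) (hM : Meet G P) {a b c : V}
    (ha : a ∈ P) (hb : b ∈ P) (hcP : c ∈ P) (hab : G.Adj a b) (hbc : G.Adj b c) (hca : G.Adj c a) :
    HasData G P := by
  -- reordering the triangle
  have reord : ∀ x y, (x = a ∨ x = b ∨ x = c) → (y = a ∨ y = b ∨ y = c) → x ≠ y →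
      ∃ t, t ∈ P ∧ x ∈ P ∧ y ∈ P ∧ G.Adj t x ∧ G.Adj t y ∧ G.Adj x y ∧
        (∀ s, (s = a ∨ s = b ∨ s = c) ↔ (s = t ∨ s = x ∨ s = y)) := by
    intro x y hx hy hxy
    rcases hx with rfl | rfl | rfl <;> rcases hy with rfl | rfl | rfl
    · exact absurd rfl hxy
    · exact ⟨c, hcP, ha, hb, hca, hbc.symm, hab, fun s => by tauto⟩
    · exact ⟨b, hb, ha, hcP, hab.symm, hbc, hca.symm, fun s => by tauto⟩
    · exact ⟨c, hcP, hb, ha, hbc.symm, hca, hab.symm, fun s => by tauto⟩
    · exact absurd rfl hxy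
    · exact ⟨a, ha, hb, hcP, hab, hca.symm, hbc, fun s => by tauto⟩
    · exact ⟨b, hb, hcP, ha, hbc, hab.symm, hca, fun s => by tauto⟩
    · exact ⟨a, ha, hcP, hb, hca.symm, hab, hbc.symm, fun s => by tauto⟩
    · exact absurd rfl hxy
  by_cases h1 : ∃ u ∈ P, ∃ x y, (x = a ∨ x = b ∨ x = c) ∧ (y = a ∨ y = b ∨ y = c) ∧ x ≠ y ∧
      ¬ (u = a ∨ u = b ∨ u = c) ∧ G.Adj u x ∧ G.Adj u y
  · obtain ⟨u, hu, x, y, hx, hy, hxy, hn, hux, huy⟩ := h1
    obtain ⟨t, htP, hxP, hyP, htx, hty, hxy', hset⟩ := reord x y hx hy hxy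
    rw [hset] at hn
    push Not at hn
    exact diamond hc hP hM htP hxP hyP hu hxy' htx.symm hux.symm hty.symm huy.symm hn.1.symm
  · replace h1 : ∀ u ∈ P, ∀ x y, (x = a ∨ x = b ∨ x = c) → (y = a ∨ y = b ∨ y = c) → x ≠ y →
        ¬ (u = a ∨ u = b ∨ u = c) → G.Adj u x → ¬ G.Adj u y :=
      fun u hu x y hx hy hxy hn hux huy => h1 ⟨u, hu, x, y, hx, hy, hxy, hn, hux, huy⟩
    by_cases h2 : ∃ u ∈ P, ¬ (u = a ∨ u = b ∨ u = c)
    · obtain ⟨u, hu, hn⟩ := h2
      obtain ⟨D, hD, huD, hDP⟩ := hP u hu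
      have s1 : Short G {a, b, c} := Or.inl ⟨a, b, c, hab, hbc, hca, rfl⟩
      have s1P : ({a, b, c} : Finset V) ⊆ P := by
        intro z hz; simp only [Finset.mem_insert, Finset.mem_singleton] at hz
        rcases hz with rfl | rfl | rfl <;> assumption
      obtain ⟨z, hz1, hz2⟩ := hM _ _ s1 hD s1P hDP
      simp only [Finset.mem_insert, Finset.mem_singleton] at hz1
      -- neighbours of a triangle vertex
      have nbr : ∀ z p q, (z = a ∨ z = b ∨ z = c) → G.Adj z p → G.Adj z q → p ≠ q →
          ¬ (p = a ∨ p = b ∨ p = c) → (q = a ∨ q = b ∨ q = c) := by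
        intro z p q hz hp hq hpq hpn
        push Not at hpn
        rcases hz with rfl | rfl | rfl
        · rcases hc.mem3 hab hca.symm hp hq hbc.ne hpn.2.1.symm hpn.2.2.symm with e | e | e
          · exact Or.inr (Or.inl e)
          · exact Or.inr (Or.inr e)
          · exact absurd e.symm hpq
        · rcases hc.mem3 hab.symm hbc hp hq hca.ne.symm hpn.1.symm hpn.2.2.symm with e | e | e
          · exact Or.inl e
          · exact Or.inr (Or.inr e)
          · exact absurd e.symm hpq
        · rcases hc.mem3 hca hbc.symm hp hq hab.ne hpn.1.symm hpn.2.1.symm with e | e | e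
          · exact Or.inl e
          · exact Or.inr (Or.inl e)
          · exact absurd e.symm hpq
      rcases hD.at huD with ⟨p, q, g1, g2, g3, rfl⟩ | ⟨p, q, r, g1, g2, g3, g4, g5, g6, rfl⟩
      · exfalso
        simp only [Finset.mem_insert, Finset.mem_singleton] at hz2
        have key : ∀ p q, G.Adj u p → G.Adj p q → G.Adj q u → z = p → False := by
          intro p q g1 g2 g3 e
          subst e
          have hq := nbr z u q hz1 g1.symm g2 g3.ne.symm hn
          exact h1 u hu z q hz1 hq g2.ne hn g1 g3.symm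
        rcases hz2 with e | e | e
        · exact hn (e ▸ hz1)
        · exact key p q g1 g2 g3 e
        · exact key q p g3.symm g2.symm g1.symm e
      · simp only [Finset.mem_insert, Finset.mem_singleton] at hz2
        have hpP : p ∈ P := hDP (by simp)
        have hqP : q ∈ P := hDP (by simp)
        have hrP : r ∈ P := hDP (by simp)
        have key : ∀ p q r, r ∈ P → G.Adj u p → G.Adj p q → G.Adj q r → G.Adj r u → u ≠ q → p ≠ r →
            z = p → HasData G P := by
          intro p q r hrP g1 g2 g3 g4 g5 g6 e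
          subst e
          have hq := nbr z u q hz1 g1.symm g2 g5 hn
          have hr : ¬ (r = a ∨ r = b ∨ r = c) := fun e =>
            h1 u hu z r hz1 e g6 hn g1 g4.symm
          obtain ⟨t, htP, hxP, hyP, htx, hty, hxy', hset⟩ := reord z q hz1 hq g2.ne
          have hn' := hn
          have hr' := hr
          rw [hset] at hn' hr'
          push Not at hn' hr'
          have ht1 := (hset t).mpr (Or.inl rfl)
          exact house hc hP hM htP hxP hyP hu hrP htx hty hxy' g1 g3.symm g4.symm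
            ⟨hn'.1, hn'.2.2⟩ ⟨hr'.1, hr'.2.1⟩
            (fun e => h1 u hu z t hz1 ht1 htx.ne.symm hn g1 e)
            (fun e => h1 r hrP q t hq ht1 hty.ne.symm hr g3.symm e)
        rcases hz2 with e | e | e | e
        · exact absurd (e ▸ hz1) hn
        · exact key p q r hrP g1 g2 g3 g4 g5 g6 e
        · subst e
          have g7 : ¬ ((p = a ∨ p = b ∨ p = c) ∨ (r = a ∨ r = b ∨ r = c)) → False := by
            intro hcon
            push Not at hcon
            have hp : ¬ (p = a ∨ p = b ∨ p = c) := by push Not; exact hcon.1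
            have := nbr z p r hz1 g2.symm g3 g6 hp
            rcases this with e | e | e
            · exact hcon.2.1 e
            · exact hcon.2.2.1 e
            · exact hcon.2.2.2 e
          by_cases k1 : p = a ∨ p = b ∨ p = c
          · -- p in the triangle
            by_cases k2 : r = a ∨ r = b ∨ r = c
            · exact absurd g4.symm (h1 u hu p r k1 k2 g6 hn g1)
            · obtain ⟨t, htP, hxP, hyP, htx, hty, hxy', hset⟩ := reord p z k1 hz1 g2.ne
              have hn' := hn
              have hr' := k2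
              rw [hset] at hn' hr'
              push Not at hn' hr'
              have ht1 := (hset t).mpr (Or.inl rfl)
              exact house hc hP hM htP hxP hyP hu hrP htx hty hxy' g1 g3.symm g4.symm
                ⟨hn'.1, hn'.2.2⟩ ⟨hr'.1, hr'.2.1⟩
                (fun e => h1 u hu p t k1 ht1 htx.ne.symm hn g1 e)
                (fun e => h1 r hrP z t hz1 ht1 hty.ne.symm k2 g3.symm e)
          · by_cases k2 : r = a ∨ r = b ∨ r = c
            · obtain ⟨t, htP, hxP, hyP, htx, hty, hxy', hset⟩ := reord r z k2 hz1 g3.ne.symm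
              have hn' := hn
              have hr' := k1
              rw [hset] at hn' hr'
              push Not at hn' hr'
              have ht1 := (hset t).mpr (Or.inl rfl)
              exact house hc hP hM htP hxP hyP hu hpP htx hty hxy' g4.symm g2 g1
                ⟨hn'.1, hn'.2.2⟩ ⟨hr'.1, hr'.2.1⟩
                (fun e => h1 u hu r t k2 ht1 htx.ne.symm hn g4.symm e)
                (fun e => h1 p hpP z t hz1 ht1 hty.ne.symm k1 g2 e)
            · exact (g7 (by push Not at k1 k2 ⊢; exact ⟨k1, k2⟩)).elim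
        · exact key r q p hpP g4.symm g3.symm g2.symm g1.symm g5 g6.symm e
    · push Not at h2
      have : P = {a, b, c} := by
        ext z
        simp only [Finset.mem_insert, Finset.mem_singleton]
        constructor
        · intro hz; exact h2 z hz
        · rintro (rfl | rfl | rfl) <;> assumption
      rw [this]
      exact mkT hc hab hbc hca

/-- data of a four-cycle in a triangle-free part, with the third neighbours -/
structure Sq (G : SimpleGraph V) (P : Finset V) (u1 u2 u3 u4 : V) : Prop where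
  m1 : u1 ∈ P
  m2 : u2 ∈ P
  m3 : u3 ∈ P
  m4 : u4 ∈ P
  a12 : G.Adj u1 u2
  a23 : G.Adj u2 u3
  a34 : G.Adj u3 u4
  a41 : G.Adj u4 u1
  n13 : u1 ≠ u3
  n24 : u2 ≠ u4
  notri : ∀ a ∈ P, ∀ b ∈ P, ∀ c ∈ P, G.Adj a b → G.Adj b c → G.Adj c a → False

lemma Sq.rot {P : Finset V} {u1 u2 u3 u4 : V} (h : Sq G P u1 u2 u3 u4) : Sq G P u2 u3 u4 u1 :=
  ⟨h.m2, h.m3, h.m4, h.m1, h.a23, h.a34, h.a41, h.a12, h.n24, h.n13.symm, h.notri⟩

lemma swap_eq (u a b c : V) : ({u, a, b, c} : Finset V) = {u, c, b, a} := by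
  ext s
  simp only [Finset.mem_insert, Finset.mem_singleton]
  tauto

/-- a short cycle through a vertex adjacent to `u1`, whose neighbour is adjacent to `u3` -/
lemma Sq.side {P : Finset V} {u1 u2 u3 u4 : V} (h : Sq G P u1 u2 u3 u4) (hc : Cub G)
    (hP : Covered G P) (hM : Meet G P) {u v : V} (hu : u ∈ P)
    (nu : u ≠ u1 ∧ u ≠ u2 ∧ u ≠ u3 ∧ u ≠ u4) (nv : v ≠ u1 ∧ v ≠ u2 ∧ v ≠ u3 ∧ v ≠ u4)
    (huu : G.Adj u u1) (hvv : G.Adj v u3) (huv : u ≠ v) :
    ∃ b c, (b = u2 ∨ b = u4) ∧ G.Adj c b ∧ G.Adj c u ∧ c ∈ P ∧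
      (c ≠ u1 ∧ c ≠ u2 ∧ c ≠ u3 ∧ c ≠ u4) ∧ Short G {u, u1, b, c} ∧
      ({u, u1, b, c} : Finset V) ⊆ P := by
  obtain ⟨D, hD, huD, hDP⟩ := hP u hu
  have s1 : Short G {u1, u2, u3, u4} :=
    Or.inr ⟨u1, u2, u3, u4, h.a12, h.a23, h.a34, h.a41, h.n13, h.n24, rfl⟩
  have s1P : ({u1, u2, u3, u4} : Finset V) ⊆ P := by
    intro z hz; simp only [Finset.mem_insert, Finset.mem_singleton] at hz
    have := h.m1
    have := h.m2
    have := h.m3
    have := h.m4
    rcases hz with rfl | rfl | rfl | rfl <;> assumption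
  obtain ⟨z, hz1, hz2⟩ := hM _ _ s1 hD s1P hDP
  rcases hD.at huD with ⟨p, q, g1, g2, g3, rfl⟩ | ⟨a, b, c, g1, g2, g3, g4, g5, g6, rfl⟩
  · exact (h.notri u hu p (hDP (by simp)) q (hDP (by simp)) g1 g2 g3).elim
  have haP : a ∈ P := hDP (by simp)
  have hbP : b ∈ P := hDP (by simp)
  have hcP : c ∈ P := hDP (by simp)
  simp only [Finset.mem_insert, Finset.mem_singleton] at hz1 hz2
  have N1 : ∀ w, G.Adj u1 w → w = u2 ∨ w = u4 ∨ w = u := fun w hw =>
    hc.mem3 h.a12 h.a41.symm huu.symm hw h.n24 nu.2.1.symm nu.2.2.2.symm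
  have N3 : ∀ w, G.Adj u3 w → w = u2 ∨ w = u4 ∨ w = v := fun w hw =>
    hc.mem3 h.a23.symm h.a34 hvv.symm hw h.n24 nv.2.1.symm nv.2.2.2.symm
  -- the only neighbour of `u` on the square is `u1`
  have only : ∀ s, G.Adj u s → (s = u1 ∨ s = u2 ∨ s = u3 ∨ s = u4) → s = u1 := by
    intro s hs hs'
    rcases hs' with e | e | e | e
    · exact e
    · subst e; exact (h.notri u hu u1 h.m1 s h.m2 huu h.a12 hs.symm).elim
    · subst e
      rcases N3 u hs.symm with e | e | e
      · exact absurd e nu.2.1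
      · exact absurd e nu.2.2.2
      · exact absurd e huv
    · subst e; exact (h.notri u hu u1 h.m1 s h.m4 huu h.a41.symm hs.symm).elim
  -- one of `a`, `c` is on the square
  have hac : a = u1 ∨ c = u1 := by
    by_contra hcon
    push Not at hcon
    have ka : ¬ (a = u1 ∨ a = u2 ∨ a = u3 ∨ a = u4) := fun e => hcon.1 (only a g1 e)
    have kc : ¬ (c = u1 ∨ c = u2 ∨ c = u3 ∨ c = u4) := fun e => hcon.2 (only c g4.symm e)
    push Not at ka kc
    rcases hz2 with e | e | e | e
    · subst e
      rcases hz1 with e | e | e | e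
      · exact nu.1 e
      · exact nu.2.1 e
      · exact nu.2.2.1 e
      · exact nu.2.2.2 e
    · subst e
      rcases hz1 with e | e | e | e
      · exact ka.1 e
      · exact ka.2.1 e
      · exact ka.2.2.1 e
      · exact ka.2.2.2 e
    · subst e
      rcases hz1 with e | e | e | e
      · subst e
        rcases hc.mem3 h.a12 h.a41.symm g2.symm g3 h.n24 ka.2.1.symm ka.2.2.2.symm with e | e | e
        · exact kc.2.1 e
        · exact kc.2.2.2 e
        · exact g6 e.symm
      · subst e
        rcases hc.mem3 h.a12.symm h.a23 g2.symm g3 h.n13 ka.1.symm ka.2.2.1.symm with e | e | e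
        · exact kc.1 e
        · exact kc.2.2.1 e
        · exact g6 e.symm
      · subst e
        rcases hc.mem3 h.a23.symm h.a34 g2.symm g3 h.n24 ka.2.1.symm ka.2.2.2.symm with e | e | e
        · exact kc.2.1 e
        · exact kc.2.2.2 e
        · exact g6 e.symm
      · subst e
        rcases hc.mem3 h.a34.symm h.a41 g2.symm g3 h.n13.symm ka.2.2.1.symm ka.1.symm with e | e | e
        · exact kc.2.2.1 e
        · exact kc.1 e
        · exact g6 e.symm
    · subst e
      rcases hz1 with e | e | e | e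
      · exact kc.1 e
      · exact kc.2.1 e
      · exact kc.2.2.1 e
      · exact kc.2.2.2 e
  have fin : ∀ b c, c ∈ P → G.Adj u1 b → G.Adj b c → G.Adj c u → u ≠ b → u1 ≠ c →
      (b = u2 ∨ b = u4) ∧ G.Adj c b ∧ G.Adj c u ∧ c ∈ P ∧
      (c ≠ u1 ∧ c ≠ u2 ∧ c ≠ u3 ∧ c ≠ u4) := by
    intro b c hcP k1 k2 k3 k4 k5
    have kc : ¬ (c = u1 ∨ c = u2 ∨ c = u3 ∨ c = u4) := fun e => k5 (only c k3.symm e).symm
    push Not at kc
    refine ⟨?_, k2.symm, k3, hcP, kc⟩
    rcases N1 b k1 with e | e | e
    · exact Or.inl e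
    · exact Or.inr e
    · exact absurd e.symm k4
  rcases hac with rfl | rfl
  · obtain ⟨f1, f2, f3, f4, f5⟩ := fin b c hcP g2 g3 g4 g5 g6
    exact ⟨b, c, f1, f2, f3, f4, f5, hD, hDP⟩
  · obtain ⟨f1, f2, f3, f4, f5⟩ := fin b a haP g3.symm g2.symm g1.symm g5 g6.symm
    have e : ({u, a, b, c} : Finset V) = {u, c, b, a} := swap_eq u a b c
    rw [e] at hD hDP
    exact ⟨b, a, f1, f2, f3, f4, f5, hD, hDP⟩

lemma Sq.opp {P : Finset V} {u1 u2 u3 u4 : V} (h : Sq G P u1 u2 u3 u4) (hc : Cub G)
    (hP : Covered G P) (hM : Meet G P) {u v : V} (hu : u ∈ P) (hv : v ∈ P)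
    (nu : u ≠ u1 ∧ u ≠ u2 ∧ u ≠ u3 ∧ u ≠ u4) (nv : v ≠ u1 ∧ v ≠ u2 ∧ v ≠ u3 ∧ v ≠ u4)
    (huu : G.Adj u u1) (hvv : G.Adj v u3) (huv : G.Adj u v) : False := by
  obtain ⟨b, c, hb, hcb, hcu, hcP, nc, hS, hSP⟩ := h.side hc hP hM hu nu nv huu hvv huv.ne
  obtain ⟨b', c', hb', hcb', hcu', hcP', nc', hS', hSP'⟩ := h.rot.rot.side hc hP hM hv
    ⟨nv.2.2.1, nv.2.2.2, nv.1, nv.2.1⟩ ⟨nu.2.2.1, nu.2.2.2, nu.1, nu.2.1⟩ hvv huu huv.ne.symm
  have hcc : c ≠ c' := fun e => by
    subst e
    exact h.notri u hu v hv c hcP huv hcu'.symm hcu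
  have hcv : c ≠ v := fun e => by
    subst e
    rcases hb with rfl | rfl
    · exact h.notri c hcP b h.m2 u3 h.m3 hcb h.a23 hvv.symm
    · exact h.notri c hcP b h.m4 u3 h.m3 hcb h.a34.symm hvv.symm
  have hcu2 : c' ≠ u := fun e => by
    subst e
    rcases hb' with rfl | rfl
    · exact h.notri c' hcP' b' h.m4 u1 h.m1 hcb' h.a41 huu.symm
    · exact h.notri c' hcP' b' h.m2 u1 h.m1 hcb' h.a12.symm huu.symm
  have a14 := h.a41.ne
  have a12 := h.a12.ne
  have a23 := h.a23.ne
  have a34 := h.a34.ne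
  have n13 := h.n13
  have n24 := h.n24
  by_cases hbb : b = b'
  · subst hbb
    rcases hb with rfl | rfl
    · rcases hc.mem3 h.a12.symm h.a23 hcb.symm hcb'.symm h.n13 nc.1.symm nc.2.2.1.symm with e | e | e
      · exact nc'.2.2.1 e
      · exact nc'.1 e
      · exact hcc e.symm
    · rcases hc.mem3 h.a34.symm h.a41 hcb.symm hcb'.symm h.n13.symm nc.2.2.1.symm nc.1.symm with
        e | e | e
      · exact nc'.1 e
      · exact nc'.2.2.1 e
      · exact hcc e.symm
  · obtain ⟨z, hz, hz'⟩ := hM _ _ hS hS' hSP hSP'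
    simp only [Finset.mem_insert, Finset.mem_singleton] at hz hz'
    have huv' := huv.ne
    have hbu : b ≠ u := by rcases hb with rfl | rfl; exacts [nu.2.1.symm, nu.2.2.2.symm]
    have hbv : b ≠ v := by rcases hb with rfl | rfl; exacts [nv.2.1.symm, nv.2.2.2.symm]
    have hb'u : b' ≠ u := by rcases hb' with rfl | rfl; exacts [nu.2.2.2.symm, nu.2.1.symm]
    have hb1 : b' ≠ u1 := by rcases hb' with rfl | rfl; exacts [a14, a12.symm]
    have hb3 : b ≠ u3 := by rcases hb with rfl | rfl; exacts [a23, a34.symm]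
    have hbc' : b ≠ c' := by rcases hb with rfl | rfl; exacts [nc'.2.2.2.symm, nc'.2.1.symm]
    have hb'c : b' ≠ c := by rcases hb' with rfl | rfl; exacts [nc.2.2.2.symm, nc.2.1.symm]
    rcases hz with e | e | e | e <;> rcases hz' with e' | e' | e' | e'
    · exact huv' (e.symm.trans e')
    · exact nu.2.2.1 (e.symm.trans e')
    · exact hb'u (e'.symm.trans e)
    · exact hcu2 (e'.symm.trans e)
    · exact nv.1 (e'.symm.trans e)
    · exact n13 (e.symm.trans e')
    · exact hb1 (e'.symm.trans e)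
    · exact nc'.2.2.1 (e'.symm.trans e)
    · exact hbv (e.symm.trans e')
    · exact hb3 (e.symm.trans e')
    · exact hbb (e.symm.trans e')
    · exact hbc' (e.symm.trans e')
    · exact hcv (e.symm.trans e')
    · exact nc.2.2.1 (e.symm.trans e')
    · exact hb'c (e'.symm.trans e)
    · exact hcc (e.symm.trans e')

lemma Sq.adjC {P : Finset V} {u1 u2 u3 u4 : V} (h : Sq G P u1 u2 u3 u4) (hc : Cub G)
    (hP : Covered G P) (hM : Meet G P) {v : V} (hv : v ∈ P) :
    (G.Adj v u1 ∨ G.Adj v u3) ∨ (G.Adj v u2 ∨ G.Adj v u4) := by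
  by_contra hcon
  push Not at hcon
  obtain ⟨⟨k1, k3⟩, k2, k4⟩ := hcon
  have n1 : v ≠ u1 := fun e => k2 (e ▸ h.a12)
  have n2 : v ≠ u2 := fun e => k3 (e ▸ h.a23)
  have n3 : v ≠ u3 := fun e => k4 (e ▸ h.a34)
  have n4 : v ≠ u4 := fun e => k1 (e ▸ h.a41)
  obtain ⟨D, hD, hvD, hDP⟩ := hP v hv
  have s1 : Short G {u1, u2, u3, u4} :=
    Or.inr ⟨u1, u2, u3, u4, h.a12, h.a23, h.a34, h.a41, h.n13, h.n24, rfl⟩
  have s1P : ({u1, u2, u3, u4} : Finset V) ⊆ P := by
    intro z hz; simp only [Finset.mem_insert, Finset.mem_singleton] at hz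
    have := h.m1
    have := h.m2
    have := h.m3
    have := h.m4
    rcases hz with rfl | rfl | rfl | rfl <;> assumption
  obtain ⟨z, hz1, hz2⟩ := hM _ _ s1 hD s1P hDP
  simp only [Finset.mem_insert, Finset.mem_singleton] at hz1
  have hvz : ¬ G.Adj v z := fun e => by
    rcases hz1 with rfl | rfl | rfl | rfl
    · exact k1 e
    · exact k2 e
    · exact k3 e
    · exact k4 e
  have hvz' : v ≠ z := fun e => by
    subst e
    rcases hz1 with e | e | e | e
    · exact n1 e
    · exact n2 e
    · exact n3 e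
    · exact n4 e
  rcases hD.at hvD with ⟨p, q, g1, g2, g3, rfl⟩ | ⟨a, b, c, g1, g2, g3, g4, g5, g6, rfl⟩
  · exact (h.notri v hv p (hDP (by simp)) q (hDP (by simp)) g1 g2 g3).elim
  simp only [Finset.mem_insert, Finset.mem_singleton] at hz2
  rcases hz2 with e | e | e | e
  · exact hvz' e.symm
  · exact hvz (e ▸ g1)
  · subst e
    have a1 : a ≠ u1 := fun e => k1 (e ▸ g1)
    have a2 : a ≠ u2 := fun e => k2 (e ▸ g1)
    have a3 : a ≠ u3 := fun e => k3 (e ▸ g1)
    have a4 : a ≠ u4 := fun e => k4 (e ▸ g1)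
    have c1 : c ≠ u1 := fun e => k1 (e ▸ g4.symm)
    have c2 : c ≠ u2 := fun e => k2 (e ▸ g4.symm)
    have c3 : c ≠ u3 := fun e => k3 (e ▸ g4.symm)
    have c4 : c ≠ u4 := fun e => k4 (e ▸ g4.symm)
    rcases hz1 with e | e | e | e
    · subst e
      rcases hc.mem3 h.a12 h.a41.symm g2.symm g3 h.n24 a2.symm a4.symm with e | e | e
      · exact c2 e
      · exact c4 e
      · exact g6 e.symm
    · subst e
      rcases hc.mem3 h.a12.symm h.a23 g2.symm g3 h.n13 a1.symm a3.symm with e | e | e
      · exact c1 e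
      · exact c3 e
      · exact g6 e.symm
    · subst e
      rcases hc.mem3 h.a23.symm h.a34 g2.symm g3 h.n24 a2.symm a4.symm with e | e | e
      · exact c2 e
      · exact c4 e
      · exact g6 e.symm
    · subst e
      rcases hc.mem3 h.a34.symm h.a41 g2.symm g3 h.n13.symm a3.symm a1.symm with e | e | e
      · exact c3 e
      · exact c1 e
      · exact g6 e.symm
  · exact hvz (e ▸ g4.symm)

lemma Sq.proper {P : Finset V} {u1 u2 u3 u4 : V} (h : Sq G P u1 u2 u3 u4) (hc : Cub G)
    (hP : Covered G P) (hM : Meet G P) {a b : V} (ha : a ∈ P) (hb : b ∈ P) (hab : G.Adj a b)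
    (h1 : G.Adj a u1 ∨ G.Adj a u3) (h2 : G.Adj b u1 ∨ G.Adj b u3) : False := by
  have key : ∀ a ∈ P, ∀ b ∈ P, G.Adj a b → G.Adj a u1 → G.Adj b u3 → False := by
    intro a ha b hb hab k1 k2
    have na : a ≠ u1 ∧ a ≠ u2 ∧ a ≠ u3 ∧ a ≠ u4 := by
      refine ⟨k1.ne, fun e => ?_, fun e => ?_, fun e => ?_⟩
      · subst e; exact h.notri a ha b hb u3 h.m3 hab k2 h.a23.symm
      · subst e; exact h.notri a ha u1 h.m1 u2 h.m2 k1 h.a12 h.a23
      · subst e; exact h.notri a ha b hb u3 h.m3 hab k2 h.a34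
    have nb : b ≠ u1 ∧ b ≠ u2 ∧ b ≠ u3 ∧ b ≠ u4 := by
      refine ⟨fun e => ?_, fun e => ?_, k2.ne, fun e => ?_⟩
      · subst e; exact h.notri b hb u3 h.m3 u2 h.m2 k2 h.a23.symm h.a12.symm
      · subst e; exact h.notri a ha b hb u1 h.m1 hab h.a12.symm k1.symm
      · subst e; exact h.notri a ha b hb u1 h.m1 hab h.a41 k1.symm
    exact h.opp hc hP hM ha hb na nb k1 k2 hab
  rcases h1 with h1 | h1 <;> rcases h2 with h2 | h2
  · exact h.notri a ha b hb u1 h.m1 hab h2 h1.symm
  · exact key a ha b hb hab h1 h2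
  · exact key b hb a ha hab.symm h2 h1
  · exact h.notri a ha b hb u3 h.m3 hab h2 h1.symm

lemma Sq.outer {P : Finset V} {u1 u2 u3 u4 : V} (h : Sq G P u1 u2 u3 u4) (hc : Cub G) :
    ∃ x, ∀ v ∈ P, (v = u1 ∧ Outer G P v) ∨ (G.Adj v u1 ∧ v ≠ u2 ∧ v ≠ u4) → v = x := by
  obtain ⟨t, ht, n2, n4, hN⟩ := hc.third h.a12 h.a41.symm h.n24
  by_cases htP : t ∈ P
  · refine ⟨t, fun v hv hvv => ?_⟩
    rcases hvv with ⟨rfl, ho⟩ | ⟨k, k2, k4⟩
    · obtain ⟨w, hw, hwP⟩ := ho
      rcases hN w hw with e | e | e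
      · exact absurd (e ▸ h.m2) hwP
      · exact absurd (e ▸ h.m4) hwP
      · exact absurd (e ▸ htP) hwP
    · rcases hN v k.symm with e | e | e
      · exact absurd e k2
      · exact absurd e k4
      · exact e
  · refine ⟨u1, fun v hv hvv => ?_⟩
    rcases hvv with ⟨rfl, ho⟩ | ⟨k, k2, k4⟩
    · rfl
    · rcases hN v k.symm with e | e | e
      · exact absurd e k2
      · exact absurd e k4
      · exact absurd (e ▸ hv) htP

lemma Sq.hasData {P : Finset V} {u1 u2 u3 u4 : V} (h : Sq G P u1 u2 u3 u4) (hc : Cub G)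
    (hP : Covered G P) (hM : Meet G P) : HasData G P := by
  obtain ⟨x1, hx1⟩ := h.outer hc
  obtain ⟨x2, hx2⟩ := h.rot.outer hc
  obtain ⟨x3, hx3⟩ := h.rot.rot.outer hc
  obtain ⟨x4, hx4⟩ := h.rot.rot.rot.outer hc
  refine mkB (fun v => decide (G.Adj v u1 ∨ G.Adj v u3)) ?_ x1 x2 x3 x4 ?_
  · intro a ha b hb hab he
    rw [decide_eq_decide] at he
    by_cases k : G.Adj a u1 ∨ G.Adj a u3
    · exact h.proper hc hP hM ha hb hab k (he.mp k)
    · have k' : ¬ (G.Adj b u1 ∨ G.Adj b u3) := fun e => k (he.mpr e)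
      exact h.rot.proper hc hP hM ha hb hab ((h.adjC hc hP hM ha).resolve_left k)
        ((h.adjC hc hP hM hb).resolve_left k')
  · intro v hv ho
    by_cases e1 : v = u1
    · exact Or.inl (hx1 v hv (Or.inl ⟨e1, ho⟩))
    by_cases e2 : v = u2
    · exact Or.inr (Or.inl (hx2 v hv (Or.inl ⟨e2, ho⟩)))
    by_cases e3 : v = u3
    · exact Or.inr (Or.inr (Or.inl (hx3 v hv (Or.inl ⟨e3, ho⟩))))
    by_cases e4 : v = u4
    · exact Or.inr (Or.inr (Or.inr (hx4 v hv (Or.inl ⟨e4, ho⟩))))
    rcases h.adjC hc hP hM hv with (k | k) | (k | k)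
    · exact Or.inl (hx1 v hv (Or.inr ⟨k, e2, e4⟩))
    · exact Or.inr (Or.inr (Or.inl (hx3 v hv (Or.inr ⟨k, e4, e2⟩))))
    · exact Or.inr (Or.inl (hx2 v hv (Or.inr ⟨k, e3, e1⟩)))
    · exact Or.inr (Or.inr (Or.inr (hx4 v hv (Or.inr ⟨k, e1, e3⟩))))

lemma classify (hc : Cub G) {P : Finset V} (hP : Covered G P) (hM : Meet G P) {v : V}
    (hv : v ∈ P) : HasData G P := by
  by_cases ht : ∃ a ∈ P, ∃ b ∈ P, ∃ c ∈ P, G.Adj a b ∧ G.Adj b c ∧ G.Adj c a
  · obtain ⟨a, ha, b, hb, c, hcP, h1, h2, h3⟩ := ht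
    exact withTri hc hP hM ha hb hcP h1 h2 h3
  · have hno : ∀ a ∈ P, ∀ b ∈ P, ∀ c ∈ P, G.Adj a b → G.Adj b c → G.Adj c a → False :=
      fun a ha b hb c hcP h1 h2 h3 => ht ⟨a, ha, b, hb, c, hcP, h1, h2, h3⟩
    obtain ⟨D, hD, hvD, hDP⟩ := hP v hv
    rcases hD.at hvD with ⟨p, q, g1, g2, g3, rfl⟩ | ⟨a, b, c, g1, g2, g3, g4, g5, g6, rfl⟩
    · exact (hno v hv p (hDP (by simp)) q (hDP (by simp)) g1 g2 g3).elim
    · have h : Sq G P v a b c := ⟨hv, hDP (by simp), hDP (by simp), hDP (by simp), g1, g2, g3, g4,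
        g5, g6, hno⟩
      exact h.hasData hc hP hM

end Pool.Agent.CubicShort
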