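import Pool.Agent.CubicShort.Abstract
import Pool.Agent.CubicShort.Parts

/-!
The colouring of a cubic graph all of whose vertices lie on short cycles.
-/

namespace Pool.Agent.CubicShort

open scoped Classical

universe u

variable {V : Type u} {G : SimpleGraph V}

theorem colouring [Fintype V] (hc : Cub G) (hcov : ∀ v, ∃ C, Short G C ∧ v ∈ C) :
    ∃ (rem : V → Prop) (col : V → Bool),
    (∀ u v, G.Adj u v → ¬ rem u → ¬ rem v → col u ≠ col v) ∧
    (∀ u v, u ≠ v → rem u → rem v → (G.Adj u v ∨ ∃ w, G.Adj u w ∧ G.Adj w v) →
      col u ≠ col v) := by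
  have hcv : Covered G (Finset.univ : Finset V) := fun v _ => by
    obtain ⟨C, hC, hv⟩ := hcov v
    exact ⟨C, hC, hv, Finset.subset_univ C⟩
  obtain ⟨pt, hpt⟩ := exists_parts hc _ Finset.univ le_rfl hcv
  replace hpt := fun v => hpt v (Finset.mem_univ v)
  have key : ∀ P : Finset V, ∃ (tri bip : Prop) (z1 z2 top : V → Prop) (β : V → Bool),
      (HasData G P → PData G P tri bip z1 z2 top β) ∧ (tri → bip → False) := by
    intro P
    by_cases h : HasData G P
    · obtain ⟨t, b, z1, z2, top, β, hd⟩ := h
      exact ⟨t, b, z1, z2, top, β, fun _ => hd, hd.excl⟩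
    · exact ⟨False, False, fun _ => True, fun _ => True, fun _ => True, fun _ => true,
        fun h' => absurd h' h, fun h' _ => h'⟩
  choose tri bip z1 z2 top β hdat hexcl using key
  have hd : ∀ v, PData G (pt v) (tri (pt v)) (bip (pt v)) (z1 (pt v)) (z2 (pt v)) (top (pt v))
      (β (pt v)) := fun v =>
    hdat (pt v) (classify hc (hpt v).2.2.1 (hpt v).2.2.2.1 (hpt v).1)
  have hself : ∀ v, v ∈ pt v := fun v => (hpt v).1
  have hsame : ∀ {u v : V}, u ∈ pt v → pt u = pt v := fun {u v} h => (hpt v).2.2.2.2 u h
  have hmem : ∀ {u v : V}, pt u = pt v → u ∈ pt v := fun {u v} h => h ▸ hself u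
  set op : V → V := fun v => if h : Outer G (pt v) v then h.choose else v with hop
  have hout : ∀ v, Outer G (pt v) v → G.Adj v (op v) ∧ op v ∉ pt v := by
    intro v h
    simp only [hop, dif_pos h]
    exact h.choose_spec
  have hin : ∀ v, ¬ Outer G (pt v) v → op v = v := by
    intro v h
    simp only [hop, dif_neg h]
  have huniq : ∀ v w, G.Adj v w → w ∉ pt v → op v = w := by
    intro v w hvw hw
    have h := hout v ⟨w, hvw, hw⟩
    exact (hpt v).2.2.1.out_uniq hc (hself v) h.1 hvw h.2 hw
  have hne : ∀ v, op v ≠ v → Outer G (pt v) v := by
    intro v h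
    by_contra hcon
    exact h (hin v hcon)
  have hne' : ∀ v, Outer G (pt v) v → op v ≠ v := fun v h => (hout v h).1.ne.symm
  let d : PD V (Finset V) G :=
    { pt := pt
      op := op
      tri := tri
      bip := bip
      Z1 := fun v => z1 (pt v) v
      Z2 := fun v => z2 (pt v) v
      Top := fun v => top (pt v) v
      β := fun v => β (pt v) v
      op_op := by
        intro v
        by_cases h : Outer G (pt v) v
        · have h1 := hout v h
          apply huniq _ _ h1.1.symm
          intro e
          apply h1.2
          have := hsame e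
          exact hmem this.symm
        · rw [hin v h, hin v h]
      pt_op := by
        intro v h e
        exact (hout v (hne v h)).2 (hmem e)
      op_of_adj := by
        intro u v huv h
        exact huniq u v huv (fun e => h (hsame e).symm)
      tri_bip := hexcl
      tri_three := by
        intro v h
        obtain ⟨a, b, h1, h2, h3, h4, h5, h6⟩ := (hd v).t3 h v (hself v)
        exact ⟨a, b, h1, h2, h3, hsame h4, hsame h5, fun w hw => h6 w (hmem hw)⟩
      tri_op := fun v h => hne' v ((hd v).tout h v (hself v))
      β_ok := by
        intro u v huv hp ht h1 h2 h3 h4 h5 h6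
        rw [← hp] at h2 h4 h6
        rw [← hp]
        exact (hd u).col ht u (hself u) v (hmem hp.symm) huv h1 h2 h3 h4 h5 h6
      card4 := by
        intro P ht
        by_contra hcon
        obtain ⟨v, hv⟩ := Finset.card_pos.mp (lt_of_lt_of_le (by norm_num) (not_le.mp hcon).le)
        · apply hcon
          simp only [Finset.mem_filter, Finset.mem_univ, true_and] at hv
          have hp := hv.1
          subst hp
          apply (hd v).card4 ht
          intro w hw
          simp only [Finset.mem_filter, Finset.mem_univ, true_and] at hw
          have := hne w hw.2.1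
          rw [hw.1] at this
          exact ⟨hmem hw.1, this, fun e => hw.2.2 (by rw [hw.1]; exact e)⟩
      card2 := by
        intro P ht hb
        by_contra hcon
        obtain ⟨v, hv⟩ := Finset.card_pos.mp (lt_of_lt_of_le (by norm_num) (not_le.mp hcon).le)
        · apply hcon
          simp only [Finset.mem_filter, Finset.mem_univ, true_and] at hv
          have hp := hv.1
          subst hp
          apply (hd v).card2 ht hb
          intro w hw
          simp only [Finset.mem_filter, Finset.mem_univ, true_and] at hw
          have := hne w hw.2.1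
          rw [hw.1] at this
          exact ⟨hmem hw.1, this, fun e => hw.2.2 (by rw [hw.1]; exact e)⟩
      Z1_op := fun v h => hin v ((hd v).z1o v (hself v) h)
      Z1_nb := fun v h => ((hd v).z1s v (hself v) h).1
      Z1_nt := fun v h => ((hd v).z1s v (hself v) h).2.1
      Z1_uniq := by
        intro u v h1 h2 hp
        rw [← hp] at h2
        exact (hd u).z1u u (hself u) v (hmem hp.symm) h1 h2
      Z2_nb := fun v h => ((hd v).z2s v (hself v) h).1
      Z2_nt := fun v h => ((hd v).z2s v (hself v) h).2
      Z2_op := by
        intro v h u hp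
        have := (hd v).z2o v (hself v) h u (hmem hp)
        rw [← hp] at this
        exact hin u this
      Z2_uniq := by
        intro u v h1 h2 hp
        rw [← hp] at h2
        exact (hd u).z2u u (hself u) v (hmem hp.symm) h1 h2
      Z12 := fun v h => ((hd v).z1s v (hself v) h).2.2
      Top_nb := fun v h => ((hd v).tops v (hself v) h).1
      Top_nt := fun v h => ((hd v).tops v (hself v) h).2
      Top_uniq := by
        intro u v h1 h2 hp
        rw [← hp] at h2
        exact (hd u).topu u (hself u) v (hmem hp.symm) h1 h2
      Top_Z1 := by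
        intro u v h1 h2 hp
        rw [← hp] at h2
        exact ((hd u).topz u (hself u) h1 v (hmem hp.symm)).1 h2
      Top_Z2 := by
        intro u v h1 h2 hp
        rw [← hp] at h2
        exact ((hd u).topz u (hself u) h1 v (hmem hp.symm)).2 h2
      Top_ab := by
        intro t h
        obtain ⟨a, b, h1, h2, h3, h4, h5, h6, h7, h8⟩ := (hd t).topab t (hself t) h
        have ha := hsame h1
        have hb := hsame h2
        refine ⟨a, b, h3, ha, hb, hin a (by rw [ha]; exact h4), hin b (by rw [hb]; exact h5),
          by rw [ha]; exact h6, by rw [hb]; exact h7, fun w hw hp => h8 w (hmem hp) hw⟩ }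
  exact d.exists_colouring

end Pool.Agent.CubicShort
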