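import Pool.Agent.CubicShort.Defs
import Pool.Agent.CubicShort.Main

/-!
Every cubic graph in which each vertex lies on a cycle of length 3 or 4 is (1,1,2,2)-packing
colourable: the last step, from the colouring of `Main` to the statement with distances.
-/

namespace Pool.Agent.CubicShort

universe u

theorem one_lt_edist {V : Type u} {G : SimpleGraph V} {u v : V} (hne : u ≠ v)
    (h : ¬ G.Adj u v) : (1 : ℕ∞) < G.edist u v := by
  by_contra hcon
  rw [not_lt] at hcon
  have hne0 : G.edist u v ≠ ⊤ := by
    intro e; rw [e] at hcon; simp at hcon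
  obtain ⟨p, hp⟩ := SimpleGraph.exists_walk_of_edist_ne_top hne0
  rw [← hp] at hcon
  have hl : p.length ≤ 1 := by exact_mod_cast hcon
  cases p with
  | nil => exact hne rfl
  | cons h1 q =>
    cases q with
    | nil => exact h h1
    | cons h2 r => simp at hl

theorem two_lt_edist {V : Type u} {G : SimpleGraph V} {u v : V} (hne : u ≠ v)
    (h : ¬ (G.Adj u v ∨ ∃ w, G.Adj u w ∧ G.Adj w v)) : (2 : ℕ∞) < G.edist u v := by
  by_contra hcon
  rw [not_lt] at hcon
  have hne0 : G.edist u v ≠ ⊤ := by
    intro e; rw [e] at hcon; simp at hcon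
  obtain ⟨p, hp⟩ := SimpleGraph.exists_walk_of_edist_ne_top hne0
  rw [← hp] at hcon
  have hl : p.length ≤ 2 := by exact_mod_cast hcon
  cases p with
  | nil => exact hne rfl
  | cons h1 q =>
    cases q with
    | nil => exact h (Or.inl h1)
    | cons h2 r =>
      cases r with
      | nil => exact h (Or.inr ⟨_, h1, h2⟩)
      | cons h3 r' => simp at hl

theorem short_of_cycle {V : Type u} {G : SimpleGraph V} {v : V} (w : G.Walk v v) (hw : w.IsCycle)
    (hl : w.length = 3 ∨ w.length = 4) : ∃ C : Finset V, Short G C ∧ v ∈ C := by
  classical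
  cases w with
  | nil => simp at hl
  | @cons _ a _ h1 q =>
    cases q with
    | nil => simp at hl
    | @cons _ b _ h2 r =>
      cases r with
      | nil => simp at hl
      | @cons _ c _ h3 t =>
        cases t with
        | nil => exact ⟨{v, a, b}, Or.inl ⟨v, a, b, h1, h2, h3, rfl⟩, by simp⟩
        | @cons _ e _ h4 t' =>
          cases t' with
          | nil =>
            have hnd := hw.support_nodup
            simp at hnd
            refine ⟨{v, a, b, c}, Or.inr ⟨v, a, b, c, h1, h2, h3, h4, ?_, ?_, rfl⟩, by simp⟩
            · intro e; subst e; simp at hnd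
            · intro e; subst e; simp at hnd
          | cons h5 t'' => simp at hl

/-- Every finite cubic graph each of whose vertices lies on a cycle of length 3 or 4 is
(1,1,2,2)-packing colourable. -/
theorem packingColorable_of_short {V : Type u} [Finite V] (G : SimpleGraph V)
    (hcubic : ∀ v : V, (G.neighborSet v).ncard = 3)
    (hshort : ∀ v : V, ∃ w : G.Walk v v, w.IsCycle ∧ (w.length = 3 ∨ w.length = 4)) :
    PackingColorable G ![1, 1, 2, 2] := by
  classical
  have := Fintype.ofFinite V
  have hc : Cub G := by
    intro v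
    obtain ⟨a, b, c, h1, h2, h3, h4⟩ := Set.ncard_eq_three.mp (hcubic v)
    refine ⟨a, b, c, h1, h2, h3, fun w => ?_⟩
    rw [← SimpleGraph.mem_neighborSet, h4]
    simp
  obtain ⟨rem, col, hA, hB⟩ := colouring hc (fun v => by
    obtain ⟨w, hw, hl⟩ := hshort v
    exact short_of_cycle w hw hl)
  refine ⟨fun v => if rem v then (if col v then 2 else 3) else (if col v then 0 else 1), ?_⟩
  intro u v hne huv
  simp only at huv ⊢
  by_cases hu : rem u <;> by_cases hv : rem v
  · have hcol : col u = col v := by
      cases h1 : col u <;> cases h2 : col v <;> simp_all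
    have h2 : ¬ (G.Adj u v ∨ ∃ w, G.Adj u w ∧ G.Adj w v) := fun h => hB u v hne hu hv h hcol
    have h3 := two_lt_edist hne h2
    cases h1 : col u <;> simpa [hu, h1] using h3
  · exfalso
    cases h1 : col u <;> cases h2 : col v <;> simp_all
  · exfalso
    cases h1 : col u <;> cases h2 : col v <;> simp_all
  · have hcol : col u = col v := by
      cases h1 : col u <;> cases h2 : col v <;> simp_all
    have h2 : ¬ G.Adj u v := fun h => hA u v h hu hv hcol
    have h3 := one_lt_edist hne h2
    cases h1 : col u <;> simpa [hu, h1] using h3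

end Pool.Agent.CubicShort
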